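import Pool.Agent.N794.CG.Eng

/-!
# All intervals and sets of primes, from the thresholds
-/

set_option autoImplicit false

namespace Pool.Agent.N794.CG
open Finset Filter
open Pool.Agent.R459.Eq

lemma ind_sub (A y z : ℝ) (hA : A ≤ 1) (h : min y 2 ≤ min z 2) :
    (if y ≤ A ∧ A < z then (1 : ℝ) else 0) = (if A < min z 2 then 1 else 0) - (if A < min y 2 then 1 else 0) := by
  have e1 : A < min z 2 ↔ A < z := ⟨fun h1 => (lt_min_iff.1 h1).1, fun h1 => lt_min h1 (by linarith)⟩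
  have e2 : A < min y 2 ↔ A < y := ⟨fun h1 => (lt_min_iff.1 h1).1, fun h1 => lt_min h1 (by linarith)⟩
  by_cases h1 : A < y
  · have h2 : A < z := e1.1 (lt_of_lt_of_le (e2.2 h1) h)
    rw [if_neg (fun h3 => absurd h3.1 (not_le.2 h1)), if_pos (e1.2 h2), if_pos (e2.2 h1), sub_self]
  · rw [if_neg (fun h3 => h1 (e2.1 h3)), sub_zero]
    by_cases h2 : A < z
    · rw [if_pos ⟨not_lt.1 h1, h2⟩, if_pos (e1.2 h2)]
    · rw [if_neg (fun h3 => h2 h3.2), if_neg (fun h3 => h2 (e1.1 h3))]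

lemma ind_zero (A y z : ℝ) (hA : A ≤ 1) (h : min z 2 < min y 2) : ¬ (y ≤ A ∧ A < z) := by
  rintro ⟨h1, h2⟩
  have h3 : y ≤ min z 2 := le_min (by linarith) (by linarith)
  have h4 := h.trans_le (min_le_left y 2)
  linarith

variable {ι : Type} {Ω : Finset ι} {w : ι → ℝ} {v : ι → ℤ}

open Classical in
/-- all intervals `[y, z)` and a set of primes -/
theorem ang_between {δ : ℝ} {X : ℕ} {R₀ : ℕ → Prop} {τ : ℝ}
    (H : ∀ s : AS, Mostly Ω w v τ (fun n => ∀ x : ℕ, X ≤ x → R₀ x → QA δ s x n))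
    (a : ℕ → ℤ → ℝ) (ha : Sys a) (hle : ∀ p n, a p n ≤ 1) (T : Set ℕ) :
    Mostly Ω w v τ (fun n => ∀ x : ℕ, X ≤ x → R₀ x → ∀ y z : ℝ,
      |(((range (x + 1)).filter (fun p => p.Prime ∧ p ∈ T ∧ y ≤ a p n ∧ a p n < z)).card : ℝ) -
        ∑ p ∈ (range (x + 1)).filter (fun p => p.Prime ∧ p ∈ T),
          (((range p).filter (fun t : ℕ => y ≤ a p (t : ℤ) ∧ a p (t : ℤ) < z)).card : ℝ) / p| ≤ 2 * (x : ℝ) ^ (1 / 2 + δ)) := by
  obtain ⟨g, hg⟩ : ∃ g : ℕ → ℤ → ℝ, g = fun p n => if p ∈ T then a p n else 2 := ⟨_, rfl⟩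
  have hsys : Sys g := by
    intro p hp m n hmn
    rw [hg]
    simp only
    rw [ha p hp m n hmn]
  refine (H ⟨g, hsys⟩).mono fun n hn x hXx hR y z => ?_
  have hq : ∀ u : ℝ, |(cntA g n x u : ℝ) - ∑ p ∈ pri x, prp g p u| ≤ (x : ℝ) ^ (1 / 2 + δ) := hn x hXx hR
  have hx0 : (0 : ℝ) ≤ (x : ℝ) ^ (1 / 2 + δ) := by positivity
  have e1 : (((range (x + 1)).filter (fun p => p.Prime ∧ p ∈ T ∧ y ≤ a p n ∧ a p n < z)).card : ℝ) =
      ∑ p ∈ pri x, if p ∈ T then (if y ≤ a p n ∧ a p n < z then (1 : ℝ) else 0) else 0 := by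
    have e2 : (range (x + 1)).filter (fun p => p.Prime ∧ p ∈ T ∧ y ≤ a p n ∧ a p n < z) =
        (pri x).filter (fun p => p ∈ T ∧ y ≤ a p n ∧ a p n < z) := by
      ext p
      simp only [mem_filter, mem_range, mem_pri]
      constructor
      · rintro ⟨h1, h2, h3⟩
        exact ⟨⟨by omega, h2⟩, h3⟩
      · rintro ⟨⟨h1, h2⟩, h3⟩
        exact ⟨by omega, h2, h3⟩
    rw [e2, card_filter]
    push_cast
    apply sum_congr rfl
    intro p _
    by_cases h1 : p ∈ T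
    · simp only [h1, true_and, if_true]
    · simp only [h1, false_and, if_false]
  have e3 : ∑ p ∈ (range (x + 1)).filter (fun p => p.Prime ∧ p ∈ T),
      (((range p).filter (fun t : ℕ => y ≤ a p (t : ℤ) ∧ a p (t : ℤ) < z)).card : ℝ) / p =
      ∑ p ∈ pri x, if p ∈ T then (∑ t ∈ range p, (if y ≤ a p ((t : ℕ) : ℤ) ∧ a p ((t : ℕ) : ℤ) < z then (1 : ℝ) else 0)) / p else 0 := by
    rw [← sum_filter]
    apply sum_congr
    · ext p
      simp only [mem_filter, mem_range, mem_pri]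
      constructor
      · rintro ⟨h1, h2, h3⟩
        exact ⟨⟨by omega, h2⟩, h3⟩
      · rintro ⟨⟨h1, h2⟩, h3⟩
        exact ⟨by omega, h2, h3⟩
    · intro p _
      rw [card_filter]
      push_cast
      rfl
  rw [e1, e3, ← sum_sub_distrib]
  rcases le_or_gt (min y 2) (min z 2) with h | h
  · have hu : ∀ u : ℝ, u ≤ 2 → ∑ p ∈ pri x, dv g n u p = ∑ p ∈ pri x, if p ∈ T then ((if a p n < u then (1 : ℝ) else 0) -
        (∑ t ∈ range p, (if a p ((t : ℕ) : ℤ) < u then (1 : ℝ) else 0)) / p) else 0 := by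
      intro u hu
      apply sum_congr rfl
      intro p _
      unfold dv prp
      rw [hg]
      by_cases h1 : p ∈ T
      · simp only [h1, if_true]
        rw [card_filter]
        push_cast
        rfl
      · simp only [h1, if_false]
        rw [if_neg (not_lt.2 hu)]
        simp [not_lt.2 hu]
    have h1 := hq (min z 2)
    have h2 := hq (min y 2)
    rw [dev_eq, hu _ (min_le_right _ _)] at h1 h2
    have h3 : ∑ p ∈ pri x, ((if p ∈ T then (if y ≤ a p n ∧ a p n < z then (1 : ℝ) else 0) else 0) -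
        (if p ∈ T then (∑ t ∈ range p, (if y ≤ a p ((t : ℕ) : ℤ) ∧ a p ((t : ℕ) : ℤ) < z then (1 : ℝ) else 0)) / p else 0)) =
        (∑ p ∈ pri x, if p ∈ T then ((if a p n < min z 2 then (1 : ℝ) else 0) -
          (∑ t ∈ range p, (if a p ((t : ℕ) : ℤ) < min z 2 then (1 : ℝ) else 0)) / p) else 0) -
        (∑ p ∈ pri x, if p ∈ T then ((if a p n < min y 2 then (1 : ℝ) else 0) -
          (∑ t ∈ range p, (if a p ((t : ℕ) : ℤ) < min y 2 then (1 : ℝ) else 0)) / p) else 0) := by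
      rw [← sum_sub_distrib]
      apply sum_congr rfl
      intro p _
      by_cases h4 : p ∈ T
      · simp only [if_pos h4]
        rw [ind_sub _ _ _ (hle p n) h, sum_congr rfl fun (t : ℕ) _ => ind_sub _ _ _ (hle p (t : ℤ)) h, sum_sub_distrib]
        ring
      · simp only [if_neg h4, sub_zero]
    rw [h3]
    refine (abs_sub _ _).trans ?_
    linarith
  · have h3 : ∑ p ∈ pri x, ((if p ∈ T then (if y ≤ a p n ∧ a p n < z then (1 : ℝ) else 0) else 0) -
        (if p ∈ T then (∑ t ∈ range p, (if y ≤ a p ((t : ℕ) : ℤ) ∧ a p ((t : ℕ) : ℤ) < z then (1 : ℝ) else 0)) / p else 0)) = 0 := by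
      apply sum_eq_zero
      intro p _
      rw [if_neg (ind_zero _ _ _ (hle p n) h), sum_congr rfl fun (t : ℕ) _ => if_neg (ind_zero _ _ _ (hle p (t : ℤ)) h)]
      simp
    rw [h3, abs_zero]
    positivity

end Pool.Agent.N794.CG
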