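import Pool.Agent.N794.CG.Multi

/-!
# One and two parameters: from the one-dimensional statement to counts of primes

Adapted from `Pool.Agent.R459.Eq17`, `Eq18`, `Tw1` (starting library) and `Pool.Agent.N193.PS.Eqs2` (helper193).
-/

set_option autoImplicit false

namespace Pool.Agent.N794.CG

open Finset Filter
open Pool.Agent.R459.Eq
open Pool.Agent.R459.Tw (jac_per jac_mean log_small recip_sum)

variable {ι : Type} {Ω : Finset ι} {w : ι → ℝ} {v : ι → ℤ}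

/-- both parameters -/
theorem FineAt.two_param {δ : ℝ} {X : ℕ} {R₀ : ℕ → Prop} {τ : ℝ} (H : FineAt δ X R₀ τ Ω w v)
    (g : ℕ → ℕ → ℤ → ℤ → ℝ) (hg : ∀ j, Sys2 (g j)) (hfew : ∀ a, Few (fun j p n => g j p a n)) :
    (∀ a : ℤ, Mostly Ω w v τ (fun n => ∀ x : ℕ, X ≤ x → R₀ x →
      (∀ j : ℕ, j ≤ x → |∑ p ∈ pri x, g j p a n - ∑ p ∈ pri x, Av (g j) p a| ≤ (x : ℝ) ^ (1 / 2 + δ)) ∧
      (∀ j : ℕ, (j : ℝ) ≤ (x : ℝ) ^ (δ / 2) → |∑ p ∈ pri x, g j p a n - ∑ p ∈ pri x, Av (g j) p a| ≤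
        √(max 1 (∑ p ∈ pri (2 * x), Av (g j) p a)) * (x : ℝ) ^ δ))) ∧
    Mostly Ω w v τ (fun a => ∀ x : ℕ, X ≤ x → R₀ x →
      (∀ j : ℕ, j ≤ x → |∑ p ∈ pri x, Av (g j) p a - ∑ p ∈ pri x, mean p (Av (g j) p)| ≤ (x : ℝ) ^ (1 / 2 + δ)) ∧
      (∀ j : ℕ, (j : ℝ) ≤ (x : ℝ) ^ (δ / 2) → |∑ p ∈ pri x, Av (g j) p a - ∑ p ∈ pri x, mean p (Av (g j) p)| ≤
        √(max 1 (∑ p ∈ pri (2 * x), mean p (Av (g j) p))) * (x : ℝ) ^ δ)) := by
  refine ⟨fun a => ?_, ?_⟩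
  · refine (H ⟨fun j p n => g j p a n, fun j => sys2_fst (g j) (hg j) a, hfew a⟩).mono ?_
    intro n hn x hXx hxW
    obtain ⟨h2, h3⟩ := hn x hXx hxW
    constructor
    · intro j hj
      rw [← sum_sub_distrib]
      exact h2 j hj
    · intro j hj
      rw [← sum_sub_distrib]
      refine (h3 j hj).trans ?_
      apply mul_le_mul_of_nonneg_right _ (by positivity)
      apply Real.sqrt_le_sqrt
      apply max_le_max le_rfl
      exact Vs_le (fun p n => g j p a n) (fun p hp n => (hg j).2 p hp a n) (2 * x)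
  · refine (H ⟨fun j => Av (g j), fun j => Av_sysb (g j) (hg j), Av_few g hfew⟩).mono ?_
    intro a hn x hXx hxW
    obtain ⟨h2, h3⟩ := hn x hXx hxW
    constructor
    · intro j hj
      rw [← sum_sub_distrib]
      exact h2 j hj
    · intro j hj
      rw [← sum_sub_distrib]
      refine (h3 j hj).trans ?_
      apply mul_le_mul_of_nonneg_right _ (by positivity)
      apply Real.sqrt_le_sqrt
      apply max_le_max le_rfl
      exact Vs_le (Av (g j)) (fun p hp n => Av_mem (g j) (hg j) p hp n) (2 * x)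

/-- **two parameters** -/
theorem FineAt.two_count {δ : ℝ} {X : ℕ} {R₀ : ℕ → Prop} {τ : ℝ} (H : FineAt δ X R₀ τ Ω w v)
    (R : ℕ → ℕ → ℤ → ℤ → Prop)
    (hper : ∀ j p : ℕ, p.Prime → ∀ a a' n n' : ℤ, (p : ℤ) ∣ a - a' → (p : ℤ) ∣ n - n' → (R j p a n ↔ R j p a' n'))
    (hfew : ∀ p : ℕ, p.Prime → ∀ (a n : ℤ) (Q : Finset ℕ), (∀ j ∈ Q, R j p a n) → Q.card ≤ Nat.log 2 p + 3) :
    (∀ a : ℤ, Mostly Ω w v τ (fun n => ∀ x : ℕ, X ≤ x → R₀ x →
      (∀ j : ℕ, j ≤ x → |(cntR (R j) a n x : ℝ) - ∑ p ∈ pri x, dens (R j) a p| ≤ (x : ℝ) ^ (1 / 2 + δ)) ∧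
      (∀ j : ℕ, (j : ℝ) ≤ (x : ℝ) ^ (δ / 2) → |(cntR (R j) a n x : ℝ) - ∑ p ∈ pri x, dens (R j) a p| ≤
        √(max 1 (∑ p ∈ pri (2 * x), dens (R j) a p)) * (x : ℝ) ^ δ))) ∧
    Mostly Ω w v τ (fun a => ∀ x : ℕ, X ≤ x → R₀ x →
      (∀ j : ℕ, j ≤ x → |∑ p ∈ pri x, dens (R j) a p - ∑ p ∈ pri x, dens2 (R j) p| ≤ (x : ℝ) ^ (1 / 2 + δ)) ∧
      (∀ j : ℕ, (j : ℝ) ≤ (x : ℝ) ^ (δ / 2) → |∑ p ∈ pri x, dens (R j) a p - ∑ p ∈ pri x, dens2 (R j) p| ≤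
        √(max 1 (∑ p ∈ pri (2 * x), dens2 (R j) p)) * (x : ℝ) ^ δ)) := by
  classical
  have h1 := H.two_param (fun j => indR (R j)) (by
    intro j
    constructor
    · intro p hp a a' n n' h h'
      unfold indR
      simp only [hper j p hp a a' n n' h h']
    · intro p _ a n
      unfold indR
      split_ifs <;> norm_num) (by
    intro a p hp n M
    have e : ∀ j, (indR (R j) p a n) ^ 2 = if R j p a n then 1 else 0 := by
      intro j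
      unfold indR
      split_ifs <;> norm_num
    simp only [e]
    rw [sum_boole]
    have h2 := hfew p hp a n ((range M).filter (fun j => R j p a n)) (by
      intro j hj
      exact (mem_filter.1 hj).2)
    exact_mod_cast h2)
  simp only [ind_sum, ind_av, ind_av2] at h1
  exact h1

open Classical in
/-- **twisted counts**: the numbers of the primes `p ≤ x`, `p ≠ 2`, `p ∈ T j`, with a given sign `ε p = ± 1` of the character of `n` -/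
theorem twist_of (δ : ℝ) (hδ : 0 < δ) : ∃ X₁ : ℕ, ∀ X : ℕ, X₁ ≤ X → ∀ (ι : Type) (Ω : Finset ι) (w : ι → ℝ) (v : ι → ℤ)
    (R₀ : ℕ → Prop) (τ : ℝ), FineAt δ X R₀ τ Ω w v → ∀ (T : ℕ → Set ℕ) (ε : ℕ → ℤ), (∀ p, ε p = 1 ∨ ε p = -1) → (∀ p j j', p ∈ T j → p ∈ T j' → j = j') →
    Mostly Ω w v τ (fun n => ∀ x : ℕ, X ≤ x → R₀ x → ∀ j : ℕ, (j : ℝ) ≤ (x : ℝ) ^ (δ / 2) →
      |(((pri x).filter (fun p => p ≠ 2 ∧ p ∈ T j ∧ jacobiSym n p = ε p)).card : ℝ) -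
        1 / 2 * ((pri x).filter (fun p => p ≠ 2 ∧ p ∈ T j)).card| ≤
        2 * √(max 1 ((((pri (2 * x)).filter (fun p => p ≠ 2 ∧ p ∈ T j)).card : ℝ))) * (x : ℝ) ^ δ) := by
  obtain ⟨X₁, hX₁⟩ := log_small δ hδ
  refine ⟨X₁ + 1, fun X hX ι Ω w v R₀ τ H T ε hε hT => ?_⟩
  obtain ⟨g, hg⟩ : ∃ g : ℕ → ℕ → ℤ → ℝ, g = fun j p n => if p ≠ 2 ∧ p ∈ T j ∧ jacobiSym n p = ε p then 1 else 0 := ⟨_, rfl⟩
  have hg1 : ∀ j, Sysb (g j) := by
    intro j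
    constructor
    · intro p hp m n h
      rw [hg]
      simp only
      rw [jac_per hp h]
    · intro p _ n
      rw [hg]
      simp only
      split_ifs <;> norm_num
  have hg2 : Few g := by
    intro p hp n M
    have h2 : ∑ j ∈ range M, (g j p n) ^ 2 ≤ 1 := by
      have e : ∀ j, (g j p n) ^ 2 = if p ≠ 2 ∧ p ∈ T j ∧ jacobiSym n p = ε p then 1 else 0 := by
        intro j
        rw [hg]
        simp only
        split_ifs <;> norm_num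
      simp only [e]
      rw [sum_boole]
      have h3 : ((range M).filter (fun j => p ≠ 2 ∧ p ∈ T j ∧ jacobiSym n p = ε p)).card ≤ 1 := by
        rw [card_le_one]
        intro j hj j' hj'
        exact hT p j j' (mem_filter.1 hj).2.2.1 (mem_filter.1 hj').2.2.1
      exact_mod_cast h3
    have h3 : (0 : ℝ) ≤ Nat.log 2 p := Nat.cast_nonneg _
    linarith
  have h1 := H ⟨g, hg1, hg2⟩
  have hmean : ∀ j p, p.Prime → mean p (g j p) = if p ≠ 2 ∧ p ∈ T j then 1 / 2 - 1 / (2 * (p : ℝ)) else 0 := by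
    intro j p hp
    by_cases h : p ≠ 2 ∧ p ∈ T j
    · rw [if_pos h, ← jac_mean hp h.1 (ε p) (hε p)]
      congr 1
      funext n
      rw [hg]
      simp only
      by_cases h4 : jacobiSym n p = ε p
      · rw [if_pos h4, if_pos ⟨h.1, h.2, h4⟩]
      · rw [if_neg h4, if_neg (fun h5 => h4 h5.2.2)]
    · rw [if_neg h]
      have : g j p = fun _ => 0 := by
        funext n
        rw [hg]
        simp only
        rw [if_neg (fun h5 => h ⟨h5.1, h5.2.1⟩)]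
      rw [this]
      unfold mean
      simp
  refine h1.mono ?_
  intro n hn x hXx hxW j hj
  have hx1 : 1 ≤ x := by omega
  have h2 := (hn x hXx hxW).2 j hj
  obtain ⟨V, hV⟩ : ∃ V : ℝ, V = ((((pri (2 * x)).filter (fun p => p ≠ 2 ∧ p ∈ T j)).card : ℝ)) := ⟨_, rfl⟩
  have hVs : Vs (g j) (2 * x) ≤ V := by
    rw [hV, card_filter]
    push_cast
    unfold Vs
    apply sum_le_sum
    intro p hp
    have hpp := (mem_pri.1 hp).2
    have hp0 : (0 : ℝ) < p := by exact_mod_cast hpp.pos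
    unfold mean
    rw [div_le_iff₀ hp0]
    refine (sum_le_card_nsmul (range p) (fun t : ℕ => (g j p (t : ℤ)) ^ 2) (if p ≠ 2 ∧ p ∈ T j then 1 else 0) fun t _ => ?_).trans ?_
    · rw [hg]
      simp only
      by_cases h : p ≠ 2 ∧ p ∈ T j
      · rw [if_pos h]
        split_ifs <;> norm_num
      · rw [if_neg h, if_neg (fun h5 => h ⟨h5.1, h5.2.1⟩)]
        norm_num
    · rw [card_range, nsmul_eq_mul, mul_comm]
  have h2' : |∑ p ∈ pri x, (g j p n - mean p (g j p))| ≤ √(max 1 (Vs (g j) (2 * x))) * (x : ℝ) ^ δ := h2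
  rw [sum_sub_distrib] at h2'
  have e1 : ∑ p ∈ pri x, g j p n = (((pri x).filter (fun p => p ≠ 2 ∧ p ∈ T j ∧ jacobiSym n p = ε p)).card : ℝ) := by
    rw [hg]
    simp only
    rw [sum_boole]
  have e2 : |∑ p ∈ pri x, mean p (g j p) - 1 / 2 * ((pri x).filter (fun p => p ≠ 2 ∧ p ∈ T j)).card| ≤ (x : ℝ) ^ δ := by
    have e3 : 1 / 2 * (((pri x).filter (fun p => p ≠ 2 ∧ p ∈ T j)).card : ℝ) = ∑ p ∈ pri x, if p ≠ 2 ∧ p ∈ T j then (1 / 2 : ℝ) else 0 := by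
      rw [card_filter]
      push_cast
      rw [mul_sum]
      apply sum_congr rfl
      intro p _
      split_ifs <;> norm_num
    rw [e3, sum_congr rfl fun p hp => hmean j p (mem_pri.1 hp).2, ← sum_sub_distrib]
    refine (abs_sum_le_sum_abs _ _).trans ?_
    have h3 : ∀ p ∈ pri x, |(if p ≠ 2 ∧ p ∈ T j then 1 / 2 - 1 / (2 * (p : ℝ)) else 0) - (if p ≠ 2 ∧ p ∈ T j then (1 / 2 : ℝ) else 0)| ≤ 1 / (p : ℝ) := by
      intro p hp
      have hp0 : (0 : ℝ) < p := by exact_mod_cast (mem_pri.1 hp).2.pos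
      split_ifs
      · have : (1 / 2 - 1 / (2 * (p : ℝ)) - 1 / 2) = -(1 / (2 * (p : ℝ))) := by ring
        rw [this, abs_neg, abs_of_pos (by positivity)]
        apply div_le_div_of_nonneg_left (by norm_num) hp0
        linarith
      · rw [sub_zero, abs_zero]
        positivity
    refine (sum_le_sum h3).trans ((recip_sum x).trans (hX₁ x (by omega)))
  rw [e1] at h2'
  rw [← hV]
  have h4 : √(max 1 (Vs (g j) (2 * x))) ≤ √(max 1 V) := Real.sqrt_le_sqrt (max_le_max le_rfl hVs)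
  have h5 : 1 ≤ √(max 1 V) := by
    rw [Real.one_le_sqrt]
    exact le_max_left _ _
  have hx0 : (0 : ℝ) ≤ (x : ℝ) ^ δ := by positivity
  have h6 : √(max 1 (Vs (g j) (2 * x))) * (x : ℝ) ^ δ ≤ √(max 1 V) * (x : ℝ) ^ δ := mul_le_mul_of_nonneg_right h4 hx0
  have h7 : (x : ℝ) ^ δ ≤ √(max 1 V) * (x : ℝ) ^ δ := le_mul_of_one_le_left hx0 h5
  rw [abs_le] at h2' e2 ⊢
  constructor <;> linarith [h2'.1, h2'.2, e2.1, e2.2]

/-- the one-dimensional statements for the families -/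
theorem fineAt_aut (δ : ℝ) (hδ : 0 < δ) (hδ1 : δ ≤ 1 / 2) {σ : Type} [Fintype σ] (b : ℕ) (hb : 2 ≤ b) (M : DFA ℕ σ)
    (hS : ∀ k : ℕ, ∃ᶠ N : ℕ in atTop, Real.log N ^ k < ((mem b M N).card : ℝ)) : ∃ W e : ℕ, 1 ≤ W ∧
    ∀ κ : ℤ, κ ≠ 0 → ∃ X₀ : ℕ, ∀ X : ℕ, X₀ ≤ X → ∀ (N : ℕ) (c : ℤ),
      FineAt δ X (fun x => x ^ W ≤ N) (Real.log N ^ e * (2 * (X : ℝ) ^ (-(δ / 2)))) (mem b M N)
        (fun _ => 1 / ((mem b M N).card : ℝ)) (fun v => c + κ * (v : ℕ)) := by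
  obtain ⟨W, e, hW, H⟩ := eng_aut (fun X => by positivity) (eng_fine δ hδ hδ1) b hb M hS
  refine ⟨W, e, hW, fun κ hκ => ?_⟩
  obtain ⟨X₀, J⟩ := H κ hκ
  exact ⟨X₀, fun X hX N c s => J X hX N c s⟩

theorem fineAt_flex (δ : ℝ) (hδ : 0 < δ) (hδ1 : δ ≤ 1 / 2) (b L : ℕ) (hb : 2 ≤ b) (hL : 1 ≤ L) (η : ℝ) (hη0 : 0 < η) (hη1 : η ≤ 1)
    (T : ℕ) : ∃ W : ℕ, 1 ≤ W ∧ ∀ κ : ℤ, κ ≠ 0 → ∃ X₀ : ℕ, ∀ X : ℕ, X₀ ≤ X → ∀ (k : ℕ) (p : ℕ → ℝ),
      Pool.Agent.N625.PT.Flex b L η T k p → ∀ (c : ℤ),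
      FineAt δ X (fun x => x ^ W ≤ b ^ k) ((k : ℝ) ^ T * (2 * (X : ℝ) ^ (-(δ / 2)))) (range (b ^ k)) p
        (fun v => c + κ * (v : ℕ)) := by
  obtain ⟨W, hW, H⟩ := eng_flex (fun X => by positivity) (eng_fine δ hδ hδ1) b L hb hL η hη0 hη1 T
  refine ⟨W, hW, fun κ hκ => ?_⟩
  obtain ⟨X₀, J⟩ := H κ hκ
  exact ⟨X₀, fun X hX k p hp c s => J X hX k p hp c s⟩

end Pool.Agent.N794.CG
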