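import Pool.Agent.N794.CG.Dom
import Pool.Agent.H491R4.AF2

/-!
# The members of automatic sets are dominated by decaying random integers
-/

set_option autoImplicit false

namespace Pool.Agent.N794.CG
open Finset Filter
open Pool.Agent.R459.Eq (Decays)
open Pool.Agent.H491R4.AF (acc acc_true AlmostS aut_almost)

variable {σ : Type}

open Classical in
/-- the members below `N` -/
noncomputable def mem (b : ℕ) (M : DFA ℕ σ) (N : ℕ) : Finset ℕ := (range N).filter (fun v => Nat.digits b v ∈ M.accepts)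

lemma acc_mem (b : ℕ) (M : DFA ℕ σ) (N : ℕ) : acc b M N (fun _ => True) = (mem b M N).card := by
  classical
  rw [acc_true b M N]
  unfold mem
  congr!

theorem aut_dom [Fintype σ] (b : ℕ) (hb : 2 ≤ b) (M : DFA ℕ σ)
    (hS : ∀ k : ℕ, ∃ᶠ N : ℕ in atTop, Real.log N ^ k < (acc b M N (fun _ => True) : ℝ)) :
    ∃ B A e N₀ : ℕ, 2 ≤ B ∧ ∀ N : ℕ, N₀ ≤ N → ∀ κ c : ℤ,
      Dom B B.factorial A (Nat.log B N + 1) (1 / 2) κ (Real.log N ^ e) (mem b M N) (fun _ => 1 / ((mem b M N).card : ℝ))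
        (fun v => c + κ * (v : ℕ)) := by
  classical
  obtain ⟨B, A, e, N₀, hB, H⟩ := aut_almost b hb M hS
  refine ⟨B, A, e, N₀, hB, fun N hN κ c P τ hτ hP E hE hbad => ?_⟩
  have h1 := H N hN κ c τ P hP
  unfold AlmostS at h1
  rw [acc_mem] at h1
  have h2 : E.card ≤ acc b M N (fun v => ¬ P (c + κ * v)) := by
    unfold acc
    apply card_le_card
    intro v hv
    have h3 := hE hv
    unfold mem at h3
    have h4 := mem_filter.1 h3
    simp only [mem_filter]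
    exact ⟨h4.1, h4.2, hbad v hv⟩
  have h3 : (E.card : ℝ) ≤ Real.log N ^ e * τ * (mem b M N).card := (Nat.cast_le.2 h2).trans h1
  rw [sum_const, nsmul_eq_mul]
  rcases Nat.eq_zero_or_pos (mem b M N).card with h0 | h0
  · rw [h0]
    have h4 : 0 ≤ Real.log N := Real.log_natCast_nonneg N
    simp only [Nat.cast_zero, div_zero, mul_zero]
    positivity
  · have h5 : (0 : ℝ) < (mem b M N).card := by exact_mod_cast h0
    rw [mul_one_div, div_le_iff₀ h5]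
    exact h3

/-- the scale `k` and the size `N` -/
structure ScaleB (B k : ℕ) (N : ℕ) : Prop where
  low : B ^ k ≤ B * N
  high : N < B ^ k

lemma scaleB_of (B : ℕ) (hB : 2 ≤ B) (N : ℕ) (hN : 1 ≤ N) : ScaleB B (Nat.log B N + 1) N := by
  constructor
  · rw [pow_succ, mul_comm]
    exact Nat.mul_le_mul_left B (Nat.pow_log_le_self B (by omega))
  · exact Nat.lt_pow_succ_log_self (by omega) N

lemma ScaleB.log_le {B k N : ℕ} (h : ScaleB B k N) (hB : 2 ≤ B) (hN : 1 ≤ N) (hk : B ≤ k) : Real.log N ≤ (k : ℝ) ^ 2 := by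
  have hN0 : (0 : ℝ) < N := by exact_mod_cast hN
  have h1 : Real.log N ≤ Real.log ((B : ℝ) ^ k) := Real.log_le_log hN0 (by exact_mod_cast h.high.le)
  rw [Real.log_pow] at h1
  have hB0 : (2 : ℝ) ≤ B := by exact_mod_cast hB
  have h2 : Real.log (B : ℝ) ≤ B := by
    have := Real.log_le_sub_one_of_pos (show (0 : ℝ) < B by linarith)
    linarith
  have h3 : (B : ℝ) ≤ k := by exact_mod_cast hk
  calc Real.log N ≤ k * Real.log B := h1
    _ ≤ k * k := mul_le_mul_of_nonneg_left (h2.trans h3) (Nat.cast_nonneg _)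
    _ = _ := by ring

lemma ScaleB.le_log {B k N : ℕ} (h : ScaleB B k N) (hB : 2 ≤ B) (hN : 1 ≤ N) : (k : ℝ) ≤ 2 * Real.log N + 1 := by
  have hN0 : (0 : ℝ) < N := by exact_mod_cast hN
  have hB0 : (2 : ℝ) ≤ B := by exact_mod_cast hB
  have h1 : Real.log ((B : ℝ) ^ k) ≤ Real.log ((B : ℝ) * N) := Real.log_le_log (by positivity) (by exact_mod_cast h.low)
  rw [Real.log_pow, Real.log_mul (by linarith) hN0.ne'] at h1
  have h2 := Real.log_two_gt_d9
  have h3 : Real.log 2 ≤ Real.log B := Real.log_le_log (by norm_num) hB0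
  have h4 : 0 ≤ Real.log N := Real.log_natCast_nonneg N
  by_contra hcon
  push Not at hcon
  have h5 : ((k : ℝ) - 1) * Real.log B ≤ Real.log N := by linarith
  nlinarith

lemma ScaleB.int_le {B k N : ℕ} (h : ScaleB B k N) (hB : 2 ≤ B) (hN : 1 ≤ N) (hk : B ≤ k) (T : ℕ) (j : ℤ)
    (hj : |(j : ℝ)| ≤ Real.log N ^ T) : |j| ≤ (k : ℤ) ^ (2 * T) := by
  have h1 : |(j : ℝ)| ≤ (k : ℝ) ^ (2 * T) := by
    rw [pow_mul]
    exact hj.trans (pow_le_pow_left₀ (Real.log_natCast_nonneg N) (h.log_le hB hN hk) T)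
  have h2 : ((|j| : ℤ) : ℝ) ≤ (((k : ℤ) ^ (2 * T) : ℤ) : ℝ) := by
    push_cast
    exact h1
  exact_mod_cast h2

lemma ScaleB.nat_le {B k N : ℕ} (h : ScaleB B k N) (hB : 2 ≤ B) (hN : 1 ≤ N) (hk : B ≤ k) (T : ℕ) (j : ℕ)
    (hj : (j : ℝ) ≤ Real.log N ^ T) : j ≤ k ^ (2 * T) := by
  have h1 := h.int_le hB hN hk T (j : ℤ) (by
    rw [Int.cast_natCast, abs_of_nonneg (Nat.cast_nonneg j)]
    exact hj)
  rw [abs_of_nonneg (by positivity)] at h1
  exact_mod_cast h1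

lemma ScaleB.size_le {B k N : ℕ} (h : ScaleB B k N) (V : ℕ) (v : ℤ) (hv : |(v : ℝ)| ≤ (N : ℝ) ^ V) :
    |v| ≤ (B : ℤ) ^ (V * k) := by
  have h1 : |(v : ℝ)| ≤ (B : ℝ) ^ (V * k) := by
    have h2 : (N : ℝ) ≤ (B : ℝ) ^ k := by exact_mod_cast h.high.le
    rw [mul_comm V k, pow_mul]
    exact hv.trans (pow_le_pow_left₀ (Nat.cast_nonneg _) h2 V)
  have h2 : ((|v| : ℤ) : ℝ) ≤ (((B : ℤ) ^ (V * k) : ℤ) : ℝ) := by
    push_cast
    exact h1
  exact_mod_cast h2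

lemma ScaleB.rpow {B k N : ℕ} (h : ScaleB B k N) (hN : 1 ≤ N) (W : ℕ) :
    (B : ℝ) ^ (-((k : ℝ) / W)) ≤ (N : ℝ) ^ (-(1 / (W : ℝ))) := by
  have hN0 : (0 : ℝ) < N := by exact_mod_cast hN
  have h1 : (B : ℝ) ^ (-((k : ℝ) / W)) = ((B : ℝ) ^ k) ^ (-(1 / (W : ℝ))) := by
    rw [← Real.rpow_natCast, ← Real.rpow_mul (Nat.cast_nonneg _)]
    congr 1
    ring
  rw [h1]
  apply Real.rpow_le_rpow_of_nonpos hN0 (by exact_mod_cast h.high.le)
  rw [neg_nonpos]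
  positivity

/-- the passage from the scale `k` to the size `N` in the bound -/
lemma ScaleB.bound {B k N : ℕ} (h : ScaleB B k N) (hB : 2 ≤ B) (hN : 32 ≤ N) (B₁ W r e : ℕ) (hr : 1 ≤ r)
    (Y θ : ℝ) (hY : 1 ≤ Y) :
    Real.log N ^ e * ((k : ℝ) ^ B₁ * (√Y * max (Y ^ (-θ)) ((B : ℝ) ^ (-((k : ℝ) / W))))) ^ r ≤
      (Real.log N ^ (2 * B₁ + e) * (√Y * max (Y ^ (-θ)) ((N : ℝ) ^ (-(1 / (W : ℝ)))))) ^ r := by
  have hN1 : 1 ≤ N := by omega
  have hNr : (32 : ℝ) ≤ N := by exact_mod_cast hN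
  have hL3 : (3 : ℝ) ≤ Real.log N := by
    rw [Real.le_log_iff_exp_le (by linarith)]
    have h1 := Real.exp_one_lt_d9
    have h2 : Real.exp 3 = Real.exp 1 * Real.exp 1 * Real.exp 1 := by rw [← Real.exp_add, ← Real.exp_add]; norm_num
    have h3 := Real.exp_pos 1
    rw [h2]
    have h4 : Real.exp 1 * Real.exp 1 ≤ 2.7182818286 * 2.7182818286 := by nlinarith
    nlinarith
  have hk0 : (0 : ℝ) ≤ k := Nat.cast_nonneg _
  have hkL : (k : ℝ) ≤ Real.log N ^ 2 := by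
    have h1 := h.le_log hB hN1
    nlinarith
  have h1 : (k : ℝ) ^ B₁ ≤ Real.log N ^ (2 * B₁) := by
    rw [pow_mul]
    exact pow_le_pow_left₀ hk0 hkL B₁
  have hY0 : 0 ≤ √Y := Real.sqrt_nonneg _
  have hYθ : 0 ≤ Y ^ (-θ) := Real.rpow_nonneg (by linarith) _
  have hL0 : 0 ≤ Real.log N := by linarith
  have h2 : max (Y ^ (-θ)) ((B : ℝ) ^ (-((k : ℝ) / W))) ≤ max (Y ^ (-θ)) ((N : ℝ) ^ (-(1 / (W : ℝ)))) :=
    max_le_max le_rfl (h.rpow hN1 W)
  have h3 : (k : ℝ) ^ B₁ * (√Y * max (Y ^ (-θ)) ((B : ℝ) ^ (-((k : ℝ) / W)))) ≤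
      Real.log N ^ (2 * B₁) * (√Y * max (Y ^ (-θ)) ((N : ℝ) ^ (-(1 / (W : ℝ))))) := by
    apply mul_le_mul h1 (mul_le_mul_of_nonneg_left h2 hY0) _ (by positivity)
    exact mul_nonneg hY0 (le_max_of_le_left hYθ)
  have h4 : 0 ≤ (k : ℝ) ^ B₁ * (√Y * max (Y ^ (-θ)) ((B : ℝ) ^ (-((k : ℝ) / W)))) :=
    mul_nonneg (by positivity) (mul_nonneg hY0 (le_max_of_le_left hYθ))
  have h5 : Real.log N ^ e ≤ (Real.log N ^ e) ^ r := by
    apply le_self_pow₀ (one_le_pow₀ (by linarith)) (by omega)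
  calc _ ≤ (Real.log N ^ e) ^ r * (Real.log N ^ (2 * B₁) * (√Y * max (Y ^ (-θ)) ((N : ℝ) ^ (-(1 / (W : ℝ)))))) ^ r := by
        apply mul_le_mul h5 (pow_le_pow_left₀ h4 h3 r) (by positivity) (by positivity)
    _ = _ := by
        rw [← mul_pow, pow_add]
        congr 1
        ring

end Pool.Agent.N794.CG
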