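import Pool.Agent.R459.Eq3

/-!
# Families which are dominated by random integers with decaying characteristic functions
-/

set_option autoImplicit false

namespace Pool.Agent.N794.CG
open Finset
open Pool.Agent.R459.Eq (Decays)

/-- the random integers `v i`, with the weights `w i`, have the property `P` up to a probability of at most `τ` -/
def Mostly {ι : Type} (Ω : Finset ι) (w : ι → ℝ) (v : ι → ℤ) (τ : ℝ) (P : ℤ → Prop) : Prop :=
  ∀ E : Finset ι, E ⊆ Ω → (∀ i ∈ E, ¬ P (v i)) → ∑ i ∈ E, w i ≤ τ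

lemma Mostly.mono {ι : Type} {Ω : Finset ι} {w : ι → ℝ} {v : ι → ℤ} {τ : ℝ} {P Q : ℤ → Prop} (h : Mostly Ω w v τ P)
    (hPQ : ∀ n, P n → Q n) : Mostly Ω w v τ Q := fun E hE hbad => h E hE fun i hi hP => hbad i hi (hPQ _ hP)

lemma Mostly.le {ι : Type} {Ω : Finset ι} {w : ι → ℝ} {v : ι → ℤ} {τ τ' : ℝ} {P : ℤ → Prop} (h : Mostly Ω w v τ P)
    (hτ : τ ≤ τ') : Mostly Ω w v τ' P := fun E hE hbad => (h E hE hbad).trans hτ

lemma Mostly.of_all {ι : Type} {Ω : Finset ι} {w : ι → ℝ} {v : ι → ℤ} {τ : ℝ} {P : ℤ → Prop} (hτ : 0 ≤ τ)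
    (h : ∀ n, P n) : Mostly Ω w v τ P := by
  intro E _ hbad
  have : E = ∅ := by
    rw [eq_empty_iff_forall_notMem]
    intro i hi
    exact hbad i hi (h _)
  rw [this, sum_empty]
  exact hτ

lemma Mostly.and {ι : Type} {Ω : Finset ι} {w : ι → ℝ} {v : ι → ℤ} (hw : ∀ i ∈ Ω, 0 ≤ w i) {τ τ' : ℝ} {P Q : ℤ → Prop}
    (h : Mostly Ω w v τ P) (h' : Mostly Ω w v τ' Q) : Mostly Ω w v (τ + τ') (fun n => P n ∧ Q n) := by
  classical
  intro E hE hbad
  have h1 := h (E.filter (fun i => ¬ P (v i))) ((filter_subset _ _).trans hE) (fun i hi => (mem_filter.1 hi).2)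
  have h2 := h' (E.filter (fun i => P (v i))) ((filter_subset _ _).trans hE) (fun i hi hQ =>
    hbad i (mem_filter.1 hi).1 ⟨(mem_filter.1 hi).2, hQ⟩)
  have h3 := sum_filter_add_sum_filter_not E (fun i => P (v i)) w
  linarith

/-- the family `(Ω, w, v)` is dominated, with the factor `Λ`, by random integers with a decaying characteristic function -/
def Dom (b F₀ A₀ k : ℕ) (γ : ℝ) (κ : ℤ) (Λ : ℝ) {ι : Type} (Ω : Finset ι) (w : ι → ℝ) (v : ι → ℤ) : Prop :=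
  ∀ (P : ℤ → Prop) (τ : ℝ), 0 ≤ τ → (∀ (ι' : Type) (Ω' : Finset ι') (w' : ι' → ℝ) (v' : ι' → ℤ), Decays b F₀ A₀ k γ κ Ω' w' v' →
    Mostly Ω' w' v' τ P) → Mostly Ω w v (Λ * τ) P

lemma dom_of_decays {b F₀ A₀ k : ℕ} {γ : ℝ} {κ : ℤ} {ι : Type} {Ω : Finset ι} {w : ι → ℝ} {v : ι → ℤ}
    (h : Decays b F₀ A₀ k γ κ Ω w v) : Dom b F₀ A₀ k γ κ 1 Ω w v := by
  intro P τ _ H
  rw [one_mul]
  exact H ι Ω w v h

end Pool.Agent.N794.CG
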