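import Pool.Agent.N794.CG.Dom
import Pool.Agent.N625.PT.B

/-!
# The random integers whose blocks of digits can be exchanged are dominated by decaying random integers

The exponential decay of the exponential sums (`char_pow`, `gd_of_far`) is copied from helper625 (`Pool.Agent.N625.PT.D`) and
the starting library (`Pool.Agent.R557.AD.Few`).
-/

set_option autoImplicit false

namespace Pool.Agent.N794.CG
open Finset
open Pool.Agent.TH872
open Pool.Agent.H807R2.Dav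
open Pool.Agent.W93.AU
open Pool.Agent.W93.DG
open Pool.Agent.N625.PT
open Pool.Agent.R459.Eq (Decays)

/-- far from the integers for `B!` times the frequency implies good -/
lemma gd_of_far (B : ℕ) (hB : 2 ≤ B) (x : ℝ) (h : Mir.Far (1 / (B : ℝ) ^ 2) ((B.factorial : ℝ) * x)) :
    Gd B (4 * (1 / ((B : ℝ) ^ 2 * (B.factorial : ℝ))) ^ 2) x := by
  have hF0 : (0 : ℝ) < (B.factorial : ℝ) := by exact_mod_cast B.factorial_pos
  have hB0 : (0 : ℝ) < B := by exact_mod_cast (by omega : 0 < B)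
  apply gd_dist B _ _ (by positivity)
  intro d hd0 hdB n
  obtain ⟨e, he⟩ : d ∣ B.factorial := Nat.dvd_factorial hd0 hdB.le
  have he0 : 0 < e := by
    rcases Nat.eq_zero_or_pos e with h0 | h0
    · rw [h0, mul_zero] at he
      exact absurd he B.factorial_ne_zero
    · exact h0
  have heB : e ≤ B.factorial := by rw [he]; exact Nat.le_mul_of_pos_left e hd0
  have her : (0 : ℝ) < e := by exact_mod_cast he0
  have e1 : (B.factorial : ℝ) = d * e := by exact_mod_cast he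
  have e2 : (e : ℝ) * ((d : ℝ) * x - n) = (B.factorial : ℝ) * x - ((e * n : ℤ) : ℝ) := by
    rw [e1]; push_cast; ring
  have h2 : 1 / (B : ℝ) ^ 2 ≤ |(e : ℝ) * ((d : ℝ) * x - n)| := by
    rw [e2]
    exact h _
  rw [abs_mul, abs_of_pos her] at h2
  have h3 : (e : ℝ) * |(d : ℝ) * x - n| ≤ (B.factorial : ℝ) * |(d : ℝ) * x - n| :=
    mul_le_mul_of_nonneg_right (by exact_mod_cast heB) (abs_nonneg _)
  rw [div_le_iff₀ (by positivity)]
  have h4 : 1 / (B : ℝ) ^ 2 ≤ (B.factorial : ℝ) * |(d : ℝ) * x - n| := h2.trans h3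
  rw [div_le_iff₀ (by positivity)] at h4
  calc (1 : ℝ) ≤ (B.factorial : ℝ) * |(d : ℝ) * x - n| * (B : ℝ) ^ 2 := h4
    _ = _ := by ring

/-- exponential decay of the exponential sums in the number of the good places -/
theorem char_pow (b L : ℕ) (hb : 2 ≤ b) (hL : 1 ≤ L) (η : ℝ) (hη0 : 0 < η) (hη1 : η ≤ 1) :
    ∃ μ : ℝ, 0 < μ ∧ μ < 1 ∧ ∀ (T k : ℕ) (p : ℕ → ℝ), Flex b L η T k p → ∀ (θ : ℝ) (r : ℕ),
      r + L ≤ Mir.farCount b (b.factorial * (b ^ L).factorial) k θ →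
      ‖∑ v ∈ range (b ^ k), (p v : ℂ) * ee (v * θ)‖ ≤ (k : ℝ) ^ T * μ ^ r := by
  classical
  have hB2 : (2 : ℝ) ≤ b := by exact_mod_cast hb
  have hF1 : (1 : ℝ) ≤ (b.factorial : ℝ) := by exact_mod_cast b.factorial_pos
  obtain ⟨c, hc⟩ : ∃ c, c = 4 * (1 / ((b : ℝ) ^ 2 * (b.factorial : ℝ))) ^ 2 := ⟨_, rfl⟩
  have hc0 : 0 < c := by rw [hc]; positivity
  have hc1 : c ≤ 1 / 4 := by
    rw [hc]
    have e1 : (4 : ℝ) ≤ (b : ℝ) ^ 2 * (b.factorial : ℝ) := by nlinarith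
    have e2 : 1 / ((b : ℝ) ^ 2 * (b.factorial : ℝ)) ≤ 1 / 4 := one_div_le_one_div_of_le (by norm_num) e1
    have e3 : 0 ≤ 1 / ((b : ℝ) ^ 2 * (b.factorial : ℝ)) := by positivity
    nlinarith
  obtain ⟨M, hM⟩ : ∃ M, M = (b ^ L).factorial := ⟨_, rfl⟩
  have hM1 : (1 : ℝ) ≤ M := by rw [hM]; exact_mod_cast Nat.factorial_pos _
  obtain ⟨c', hc'⟩ : ∃ c', c' = c / (2 * (M : ℝ) ^ 2) := ⟨_, rfl⟩
  have hc'0 : 0 < c' := by rw [hc']; positivity
  have hc'c : c' ≤ c := by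
    rw [hc']
    apply div_le_self hc0.le
    nlinarith
  have hLr : (1 : ℝ) ≤ L := by exact_mod_cast hL
  obtain ⟨w, hw⟩ : ∃ w, w = c' * η ^ 2 / (2 * L) := ⟨_, rfl⟩
  have hw0 : 0 < w := by rw [hw]; positivity
  have hw1 : w ≤ 1 / 4 := by
    rw [hw, div_le_iff₀ (by positivity)]
    have : c' * η ^ 2 ≤ c' * 1 := mul_le_mul_of_nonneg_left (pow_le_one₀ hη0.le hη1) hc'0.le
    nlinarith
  obtain ⟨μ, hμ⟩ : ∃ μ, μ = 1 - w := ⟨_, rfl⟩
  have hμ0 : 0 < μ := by rw [hμ]; linarith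
  have hμ1 : μ < 1 := by rw [hμ]; linarith
  have hμL : 1 - c' * η ^ 2 / 2 ≤ μ ^ L := by
    have h1 := one_add_mul_le_pow (a := -w) (by linarith) L
    have h2 : 1 + (L : ℝ) * -w = 1 - c' * η ^ 2 / 2 := by
      rw [hw]
      field_simp
      ring
    rw [h2] at h1
    rw [hμ, sub_eq_add_neg 1 w]
    exact h1
  refine ⟨μ, hμ0, hμ1, fun T k p hp θ r hr => ?_⟩
  obtain ⟨g, hg⟩ : ∃ g : ℕ → Prop, g = fun j => Gq b L c' ((b : ℝ) ^ j * θ) := ⟨_, rfl⟩
  have hact : r ≤ actL g L k := by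
    have h1 : Mir.farCount b (b.factorial * (b ^ L).factorial) k θ ≤ actL g L k + L := by
      unfold Mir.farCount actL
      have h2 : (range k).filter (fun j => Mir.Far (1 / (b : ℝ) ^ 2) (((b.factorial * (b ^ L).factorial : ℕ) : ℝ) * ((b : ℝ) ^ j * θ))) ⊆
          (range k).filter (fun j => j + L ≤ k ∧ g j) ∪ Ico (k - L) k := by
        intro j hj
        rw [mem_filter, mem_range] at hj
        rw [mem_union, mem_filter, mem_range, mem_Ico]
        by_cases h : j + L ≤ k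
        · left
          refine ⟨hj.1, h, ?_⟩
          rw [hg]
          simp only
          rw [hc', hM]
          apply gq_of b L hb c hc0.le (by linarith)
          rw [hc]
          apply gd_of_far b hb
          have e1 : (b.factorial : ℝ) * ((((b ^ L).factorial : ℕ) : ℝ) * ((b : ℝ) ^ j * θ)) =
              ((b.factorial * (b ^ L).factorial : ℕ) : ℝ) * ((b : ℝ) ^ j * θ) := by
            push_cast
            ring
          rw [e1]
          exact hj.2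
        · right
          omega
      refine le_trans ?_ ((card_le_card h2).trans ((card_union_le _ _).trans ?_))
      · apply le_of_eq
        congr!
      · rw [Nat.card_Ico]
        omega
    omega
  obtain ⟨hp0, hp1, h, h1, h2, h3, h4, h5⟩ := hp
  have hZ := Z_bound hL hp0 h1 h2 h3 η hη0.le hη1 h5 θ c' μ hc'0.le (by linarith) hμ0.le hμ1.le hμL g
    (fun j hj => by rw [hg] at hj; exact hj) k 0 0 (by omega) (by simp)
  have hZ' : Z b p θ k 0 = ∑ v ∈ range (b ^ k), (p v : ℂ) * ee (v * θ) := by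
    unfold Z
    simp
  rw [hZ'] at hZ
  refine hZ.trans ?_
  apply mul_le_mul h4 _ (by positivity) (by positivity)
  exact pow_le_pow_of_le_one hμ0.le hμ1.le hact

/-- the uniform distribution on the words of `k` digits -/
lemma flex_unif (b L : ℕ) (hb : 2 ≤ b) (hL : 1 ≤ L) (η : ℝ) (hη : η * (b : ℝ) ^ L ≤ 1) (hη1 : η ≤ 1) (k : ℕ) :
    Flex b L η 0 k (fun _ => 1 / (b : ℝ) ^ k) := by
  have hb0 : (0 : ℝ) < b := by exact_mod_cast (by omega : 0 < b)
  refine ⟨fun _ => by positivity, ?_, fun i _ => 1 / (b : ℝ) ^ i, fun _ _ => by positivity, fun _ _ => le_rfl, ?_, by simp, ?_⟩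
  · rw [sum_const, card_range, nsmul_eq_mul]
    push_cast
    field_simp
  · intro i _ u _
    rw [sum_const, card_range, nsmul_eq_mul, pow_succ]
    apply le_of_eq
    field_simp
  · intro i u _ _
    have h2 : 1 < b ^ L := Nat.one_lt_pow (by omega) (by omega)
    have h3 : η * (1 / (b : ℝ) ^ i) ≤ 1 / (b : ℝ) ^ (i + L) := by
      rw [pow_add, mul_one_div, div_le_div_iff₀ (by positivity) (by positivity)]
      calc η * ((b : ℝ) ^ i * (b : ℝ) ^ L) = (η * (b : ℝ) ^ L) * (b : ℝ) ^ i := by ring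
        _ ≤ 1 * (b : ℝ) ^ i := mul_le_mul_of_nonneg_right hη (by positivity)
    refine ⟨0, 1, 1, by omega, h2, hη1, by linarith, fun w _ => ?_, h3, h3⟩
    rw [one_mul]

lemma Flex.weaken {b L T k : ℕ} {η η' : ℝ} {p : ℕ → ℝ} (h : Flex b L η T k p) (hη' : 0 < η') (hηη : η' ≤ η) :
    Flex b L η' T k p := by
  obtain ⟨h0, h1, P, p0, p1, p2, p3, p4⟩ := h
  refine ⟨h0, h1, P, p0, p1, p2, p3, fun i u hi hu => ?_⟩
  obtain ⟨a, a', r, q1, q2, q3, q4, q5, q6, q7⟩ := p4 i u hi hu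
  have hr : 0 ≤ r := by linarith
  exact ⟨a, a', r, q1, q2, hηη.trans q3, (mul_le_mul_of_nonneg_right hηη hr).trans q4, q5,
    (mul_le_mul_of_nonneg_right hηη (p0 _ _)).trans q6, (mul_le_mul_of_nonneg_right hηη (p0 _ _)).trans q7⟩

/-- **the random integers whose blocks of digits can be exchanged** -/
theorem flex_dom (b L : ℕ) (hb : 2 ≤ b) (hL : 1 ≤ L) (η : ℝ) (hη0 : 0 < η) (hη1 : η ≤ 1) (T : ℕ) :
    ∃ (A : ℕ) (γ : ℝ), 0 < γ ∧ γ < 1 ∧ ∀ k : ℕ, 1 ≤ k → ∀ p : ℕ → ℝ, Flex b L η T k p → ∀ κ c : ℤ,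
      Dom b (b.factorial * (b ^ L).factorial) A k γ κ ((k : ℝ) ^ T) (range (b ^ k)) p (fun v => c + κ * (v : ℕ)) := by
  have hb0 : (2 : ℝ) ≤ b := by exact_mod_cast hb
  have hbL : (1 : ℝ) ≤ (b : ℝ) ^ L := one_le_pow₀ (by linarith)
  obtain ⟨η', hη'⟩ : ∃ η' : ℝ, η' = η / (b : ℝ) ^ L := ⟨_, rfl⟩
  have hη'0 : 0 < η' := by rw [hη']; positivity
  have hη'η : η' ≤ η := by rw [hη']; exact div_le_self hη0.le hbL
  have hη'1 : η' ≤ 1 := hη'η.trans hη1
  have hη'b : η' * (b : ℝ) ^ L ≤ 1 := by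
    rw [hη', div_mul_cancel₀ _ (by positivity)]
    exact hη1
  obtain ⟨μ, hμ0, hμ1, H⟩ := char_pow b L hb hL η' hη'0 hη'1
  obtain ⟨t, ht⟩ := exists_pow_lt_of_lt_one (show (0 : ℝ) < 1 / 2 by norm_num) hμ1
  refine ⟨L + t + 1, μ, hμ0, hμ1, fun k hk p hp κ c => ?_⟩
  have hkT : (1 : ℝ) ≤ (k : ℝ) ^ T := one_le_pow₀ (by exact_mod_cast hk)
  obtain ⟨Q, hQ⟩ : ∃ Q : ℝ, Q = (k : ℝ) ^ T := ⟨_, rfl⟩
  rw [← hQ] at hkT ⊢
  have hQ0 : 0 < Q := by linarith
  have hQ1 : 1 / Q ≤ 1 := by rw [div_le_one hQ0]; exact hkT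
  obtain ⟨w, hw⟩ : ∃ w : ℕ → ℝ, w = fun v => 1 / Q * p v + (1 - 1 / Q) * (1 / (b : ℝ) ^ k) := ⟨_, rfl⟩
  have hu := flex_unif b L hb hL η' hη'b hη'1 k
  have hdec : Decays b (b.factorial * (b ^ L).factorial) (L + t + 1) k μ κ (range (b ^ k)) w
      (fun v => c + κ * (v : ℕ)) := by
    have hw0 : ∀ i ∈ range (b ^ k), 0 ≤ w i := by
      intro i _
      rw [hw]
      have := hp.nonneg i
      have h1 : 0 ≤ 1 - 1 / Q := by linarith
      positivity
    have hw1 : ∑ i ∈ range (b ^ k), w i = 1 := by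
      rw [hw, sum_add_distrib, ← mul_sum, ← mul_sum, hp.sum, hu.sum]
      ring
    refine ⟨hw0, hw1, fun θ N hfar _ => ?_⟩
    have e1 : ∑ i ∈ range (b ^ k), (w i : ℂ) * ee (((c + κ * (i : ℕ) : ℤ) : ℝ) * θ) =
        ee ((c : ℝ) * θ) * (((1 / Q : ℝ) : ℂ) * ∑ v ∈ range (b ^ k), (p v : ℂ) * ee (v * ((κ : ℝ) * θ)) +
          ((1 - 1 / Q : ℝ) : ℂ) * ∑ v ∈ range (b ^ k), ((1 / (b : ℝ) ^ k : ℝ) : ℂ) * ee (v * ((κ : ℝ) * θ))) := by
      rw [hw]
      simp only [mul_sum, ← sum_add_distrib]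
      refine sum_congr rfl fun v _ => ?_
      have e2 : (((c + κ * (v : ℕ) : ℤ) : ℝ) * θ) = (c : ℝ) * θ + v * ((κ : ℝ) * θ) := by
        push_cast
        ring
      rw [e2, ee_add]
      push_cast
      ring
    rw [e1, norm_mul, norm_ee, one_mul]
    obtain ⟨r, hr⟩ : ∃ r, r = (L + t + 1) * N + t := ⟨_, rfl⟩
    have hrL : r + L ≤ Mir.farCount b (b.factorial * (b ^ L).factorial) k ((κ : ℝ) * θ) := by
      refine le_trans ?_ hfar
      rw [hr]
      nlinarith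
    have g1 := H T k p (Flex.weaken hp hη'0 hη'η) ((κ : ℝ) * θ) r hrL
    have g2 := H 0 k _ hu ((κ : ℝ) * θ) r hrL
    rw [← hQ] at g1
    rw [pow_zero, one_mul] at g2
    have hμr : 0 ≤ μ ^ r := by positivity
    have n1 : ‖((1 / Q : ℝ) : ℂ) * ∑ v ∈ range (b ^ k), (p v : ℂ) * ee (v * ((κ : ℝ) * θ))‖ ≤ μ ^ r := by
      rw [norm_mul, Complex.norm_real, Real.norm_eq_abs, abs_of_pos (by positivity)]
      calc 1 / Q * _ ≤ 1 / Q * (Q * μ ^ r) := mul_le_mul_of_nonneg_left g1 (by positivity)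
        _ = μ ^ r := by field_simp
    have n2 : ‖((1 - 1 / Q : ℝ) : ℂ) * ∑ v ∈ range (b ^ k), ((1 / (b : ℝ) ^ k : ℝ) : ℂ) * ee (v * ((κ : ℝ) * θ))‖ ≤ μ ^ r := by
      rw [norm_mul, Complex.norm_real, Real.norm_eq_abs, abs_of_nonneg (by linarith)]
      calc (1 - 1 / Q) * _ ≤ 1 * μ ^ r := by
            apply mul_le_mul _ g2 (norm_nonneg _) (by norm_num)
            have : 0 < 1 / Q := by positivity
            linarith
        _ = μ ^ r := one_mul _
    refine (norm_add_le _ _).trans ((add_le_add n1 n2).trans ?_)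
    have e3 : μ ^ r = μ ^ ((L + t + 1) * N) * μ ^ t := by rw [hr, pow_add]
    have e4 : μ ^ ((L + t + 1) * N) ≤ μ ^ N := by
      apply pow_le_pow_of_le_one hμ0.le hμ1.le
      nlinarith
    have e5 : 0 ≤ μ ^ ((L + t + 1) * N) := by positivity
    calc μ ^ r + μ ^ r = μ ^ ((L + t + 1) * N) * (2 * μ ^ t) := by rw [e3]; ring
      _ ≤ μ ^ ((L + t + 1) * N) * 1 := mul_le_mul_of_nonneg_left (by linarith) e5
      _ ≤ μ ^ N := by rw [mul_one]; exact e4
  intro P τ _ hP E hE hbad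
  have h1 := hP ℕ _ _ _ hdec E hE hbad
  calc ∑ i ∈ E, p i ≤ ∑ i ∈ E, Q * w i := by
        apply sum_le_sum
        intro i _
        rw [hw]
        have h2 : 0 ≤ (1 - 1 / Q) * (1 / (b : ℝ) ^ k) := mul_nonneg (by linarith) (by positivity)
        have h3 : Q * (1 / Q * p i + (1 - 1 / Q) * (1 / (b : ℝ) ^ k)) = p i + Q * ((1 - 1 / Q) * (1 / (b : ℝ) ^ k)) := by
          field_simp
        simp only
        rw [h3]
        have := mul_nonneg hQ0.le h2
        linarith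
    _ = Q * ∑ i ∈ E, w i := (mul_sum _ _ _).symm
    _ ≤ Q * τ := mul_le_mul_of_nonneg_left h1 hQ0.le

end Pool.Agent.N794.CG
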