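import Pool.Agent.N794.CG.Dom
import Pool.Agent.N193.PS.Eqs

/-!
# The integer parts of smoothly varying functions of non-integral index are dominated by decaying random integers
-/

set_option autoImplicit false

namespace Pool.Agent.N794.CG
open Finset Filter
open Pool.Agent.R459.Eq (Decays)
open Pool.Agent.N193.PS (SmoothlyVarying sv_of val_iter'')

/-- the scale `k` and the size `Z ≥ 2 ^ k` -/
structure Scale (k : ℕ) (Z : ℝ) : Prop where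
  low : (2 : ℝ) ^ k ≤ Z
  high : Z < 2 ^ (k + 1)

lemma scale_of (Z : ℝ) (hZ : 1 ≤ Z) : Scale (Nat.log 2 ⌊Z⌋₊) Z := by
  have hfl : 1 ≤ ⌊Z⌋₊ := by
    rw [Nat.one_le_floor_iff]
    exact hZ
  constructor
  · have h1 : 2 ^ Nat.log 2 ⌊Z⌋₊ ≤ ⌊Z⌋₊ := Nat.pow_log_le_self 2 (by omega)
    calc (2 : ℝ) ^ Nat.log 2 ⌊Z⌋₊ ≤ (⌊Z⌋₊ : ℝ) := by exact_mod_cast h1
      _ ≤ Z := Nat.floor_le (by linarith)
  · have h1 : ⌊Z⌋₊ < 2 ^ (Nat.log 2 ⌊Z⌋₊ + 1) := Nat.lt_pow_succ_log_self (by norm_num) _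
    have h2 : Z < (⌊Z⌋₊ : ℝ) + 1 := Nat.lt_floor_add_one _
    have h3 : (⌊Z⌋₊ : ℝ) + 1 ≤ 2 ^ (Nat.log 2 ⌊Z⌋₊ + 1) := by exact_mod_cast h1
    linarith

lemma Scale.log_le {k : ℕ} {Z : ℝ} (h : Scale k Z) (hk : 3 ≤ k) : Real.log Z ≤ k := by
  have hZ0 : 0 < Z := lt_of_lt_of_le (by positivity) h.low
  have h1 : Real.log Z ≤ Real.log ((2 : ℝ) ^ (k + 1)) := Real.log_le_log hZ0 h.high.le
  rw [Real.log_pow] at h1
  have h2 := Real.log_two_lt_d9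
  have h3 : (3 : ℝ) ≤ k := by exact_mod_cast hk
  push_cast at h1
  nlinarith

lemma Scale.le_log {k : ℕ} {Z : ℝ} (h : Scale k Z) : (k : ℝ) ≤ 2 * Real.log Z := by
  have hZ0 : 0 < Z := lt_of_lt_of_le (by positivity) h.low
  have h1 : Real.log ((2 : ℝ) ^ k) ≤ Real.log Z := Real.log_le_log (by positivity) h.low
  rw [Real.log_pow] at h1
  have h2 := Real.log_two_gt_d9
  have h3 : (0 : ℝ) ≤ k := Nat.cast_nonneg _
  nlinarith

lemma Scale.rpow {k : ℕ} {Z : ℝ} (h : Scale k Z) (W : ℕ) (hW : 1 ≤ W) :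
    (2 : ℝ) ^ (-((k : ℝ) / W)) ≤ 2 * Z ^ (-(1 / (W : ℝ))) := by
  have hWr : (1 : ℝ) ≤ W := by exact_mod_cast hW
  have hZ0 : 0 < Z := lt_of_lt_of_le (by positivity) h.low
  have h1 : (2 : ℝ) ^ (-((k : ℝ) / W)) = 2 ^ (1 / (W : ℝ)) * ((2 : ℝ) ^ (k + 1)) ^ (-(1 / (W : ℝ))) := by
    rw [← Real.rpow_natCast, ← Real.rpow_mul (by norm_num), ← Real.rpow_add (by norm_num)]
    congr 1
    push_cast
    field_simp
    ring
  rw [h1]
  have h2 : (2 : ℝ) ^ (1 / (W : ℝ)) ≤ 2 := by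
    calc (2 : ℝ) ^ (1 / (W : ℝ)) ≤ 2 ^ (1 : ℝ) := by
          apply Real.rpow_le_rpow_of_exponent_le (by norm_num)
          rw [div_le_one (by linarith)]
          exact hWr
      _ = 2 := Real.rpow_one 2
  have h3 : ((2 : ℝ) ^ (k + 1)) ^ (-(1 / (W : ℝ))) ≤ Z ^ (-(1 / (W : ℝ))) := by
    apply Real.rpow_le_rpow_of_nonpos hZ0 h.high.le
    rw [neg_nonpos]
    positivity
  exact mul_le_mul h2 h3 (by positivity) (by norm_num)

/-- the passage from the scale `k` to the size `Z` in the hypotheses -/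
lemma Scale.int_le {k : ℕ} {Z : ℝ} (h : Scale k Z) (hk : 3 ≤ k) (T : ℕ) (j : ℤ) (hj : |(j : ℝ)| ≤ Real.log Z ^ T) :
    |j| ≤ (k : ℤ) ^ T := by
  have hk1 : (2 : ℝ) ^ 3 ≤ (2 : ℝ) ^ k := pow_le_pow_right₀ (by norm_num) hk
  have hZ1 : (1 : ℝ) ≤ Z := by
    have := h.low
    linarith
  have h1 : |(j : ℝ)| ≤ (k : ℝ) ^ T := hj.trans (pow_le_pow_left₀ (Real.log_nonneg hZ1) (h.log_le hk) T)
  have h2 : ((|j| : ℤ) : ℝ) ≤ (((k : ℤ) ^ T : ℤ) : ℝ) := by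
    push_cast
    exact h1
  exact_mod_cast h2

lemma Scale.nat_le {k : ℕ} {Z : ℝ} (h : Scale k Z) (hk : 3 ≤ k) (T : ℕ) (j : ℕ) (hj : (j : ℝ) ≤ Real.log Z ^ T) :
    j ≤ k ^ T := by
  have h1 := h.int_le hk T (j : ℤ) (by
    rw [Int.cast_natCast, abs_of_nonneg (Nat.cast_nonneg j)]
    exact hj)
  rw [abs_of_nonneg (by positivity)] at h1
  exact_mod_cast h1

lemma Scale.size_le {k : ℕ} {Z : ℝ} (h : Scale k Z) (hk : 1 ≤ k) (V : ℕ) (v : ℤ) (hv : |(v : ℝ)| ≤ Z ^ V) :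
    |v| ≤ ((2 : ℕ) : ℤ) ^ (2 * V * k) := by
  have hZ0 : 0 < Z := lt_of_lt_of_le (by positivity) h.low
  have h1 : |(v : ℝ)| ≤ (2 : ℝ) ^ (2 * V * k) := by
    calc |(v : ℝ)| ≤ Z ^ V := hv
      _ ≤ ((2 : ℝ) ^ (k + 1)) ^ V := pow_le_pow_left₀ hZ0.le h.high.le V
      _ = (2 : ℝ) ^ ((k + 1) * V) := (pow_mul _ _ _).symm
      _ ≤ (2 : ℝ) ^ (2 * V * k) := by
          apply pow_le_pow_right₀ (by norm_num)
          nlinarith
  have h2 : ((|v| : ℤ) : ℝ) ≤ ((((2 : ℕ) : ℤ) ^ (2 * V * k) : ℤ) : ℝ) := by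
    push_cast
    exact h1
  exact_mod_cast h2

/-- the passage from the scale `k` to the size `Z` in the bound -/
lemma Scale.bound {k : ℕ} {Z : ℝ} (h : Scale k Z) (hk : 3 ≤ k) (B W r : ℕ) (hW : 1 ≤ W) (Y θ : ℝ) (hY : 1 ≤ Y) :
    ((k : ℝ) ^ B * (√Y * max (Y ^ (-θ)) (((2 : ℕ) : ℝ) ^ (-((k : ℝ) / W))))) ^ r ≤
      (Real.log Z ^ (2 * B + 2) * (√Y * max (Y ^ (-θ)) (Z ^ (-(1 / (W : ℝ)))))) ^ r := by
  have hk8 : (2 : ℝ) ^ 3 ≤ (2 : ℝ) ^ k := pow_le_pow_right₀ (by norm_num) hk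
  have hZ8 : (8 : ℝ) ≤ Z := by
    have := h.low
    linarith
  have hL2 : (2 : ℝ) ≤ Real.log Z := by
    rw [Real.le_log_iff_exp_le (by linarith)]
    have h1 := Real.exp_one_lt_d9
    have h2 : Real.exp 2 = Real.exp 1 * Real.exp 1 := by rw [← Real.exp_add]; norm_num
    have h3 := Real.exp_pos 1
    rw [h2]
    nlinarith
  have hk0 : (0 : ℝ) ≤ k := Nat.cast_nonneg _
  have hkL : (k : ℝ) ≤ Real.log Z ^ 2 := by
    have h1 := h.le_log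
    nlinarith
  have h1 : (k : ℝ) ^ B ≤ Real.log Z ^ (2 * B) := by
    rw [pow_mul]
    exact pow_le_pow_left₀ hk0 hkL B
  have hY0 : 0 ≤ √Y := Real.sqrt_nonneg _
  have hYθ : 0 ≤ Y ^ (-θ) := Real.rpow_nonneg (by linarith) _
  have hZθ : 0 ≤ Z ^ (-(1 / (W : ℝ))) := Real.rpow_nonneg (by linarith) _
  have h2 : max (Y ^ (-θ)) (((2 : ℕ) : ℝ) ^ (-((k : ℝ) / W))) ≤ 2 * max (Y ^ (-θ)) (Z ^ (-(1 / (W : ℝ)))) := by
    apply max_le
    · have := le_max_left (Y ^ (-θ)) (Z ^ (-(1 / (W : ℝ))))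
      linarith
    · have h3 := h.rpow W hW
      have := le_max_right (Y ^ (-θ)) (Z ^ (-(1 / (W : ℝ))))
      rw [Nat.cast_ofNat]
      linarith
  obtain ⟨μ, hμ⟩ : ∃ μ : ℝ, μ = max (Y ^ (-θ)) (Z ^ (-(1 / (W : ℝ)))) := ⟨_, rfl⟩
  have hμ0 : 0 ≤ μ := by rw [hμ]; exact le_max_of_le_left hYθ
  rw [← hμ] at h2 ⊢
  apply pow_le_pow_left₀
  · apply mul_nonneg (by positivity)
    apply mul_nonneg hY0
    exact le_max_of_le_left hYθ
  · have hL0 : 0 ≤ Real.log Z := by linarith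
    calc (k : ℝ) ^ B * (√Y * max (Y ^ (-θ)) (((2 : ℕ) : ℝ) ^ (-((k : ℝ) / W)))) ≤
          Real.log Z ^ (2 * B) * (√Y * (2 * μ)) := by
            apply mul_le_mul h1 (mul_le_mul_of_nonneg_left h2 hY0) _ (by positivity)
            exact mul_nonneg hY0 (le_max_of_le_left hYθ)
      _ = (Real.log Z ^ (2 * B) * 2) * (√Y * μ) := by ring
      _ ≤ (Real.log Z ^ (2 * B) * Real.log Z ^ 2) * (√Y * μ) := by
          apply mul_le_mul_of_nonneg_right _ (mul_nonneg hY0 hμ0)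
          apply mul_le_mul_of_nonneg_left _ (by positivity)
          nlinarith
      _ = _ := by rw [pow_add]

/-- the integer parts of a smoothly varying function -/
theorem sv_dom (c : ℝ) (f : ℝ → ℝ) (hc : 0 < c) (hn : ∀ m : ℕ, c ≠ m) (hf : SmoothlyVarying c f) :
    ∃ A X₁ : ℕ, ∀ M : ℕ, (X₁ : ℝ) ≤ f M → 1 ≤ M ∧ ∀ κ c₀ : ℤ, ∀ k : ℕ, (2 : ℝ) ^ k ≤ f M →
      Decays 2 1 A k (1 / 2) κ (Icc 1 M) (fun _ => 1 / (M : ℝ)) (fun n => c₀ + κ * (⌊f n⌋₊ : ℕ)) := by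
  have hsv := sv_of c hc hn f hf
  obtain ⟨A, M₀, hdec⟩ := hsv.decays
  obtain ⟨X₁, hX₁⟩ := exists_nat_ge (∑ M ∈ range (M₀ + 1), |f M|)
  refine ⟨A, X₁ + 1, fun M hM => ?_⟩
  have hMM : M₀ + 1 ≤ M := by
    by_contra hcon
    push Not at hcon
    have h1 : |f M| ≤ ∑ M ∈ range (M₀ + 1), |f M| :=
      single_le_sum (f := fun M : ℕ => |f M|) (fun _ _ => abs_nonneg _) (mem_range.2 hcon)
    have h2 := le_abs_self (f M)
    push_cast at hM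
    linarith
  refine ⟨by omega, fun κ c₀ k hk => ?_⟩
  have h1 := hdec M (by omega) k (by simpa only [iteratedDeriv_zero] using hk) c₀ κ
  simpa only [val_iter''] using h1

end Pool.Agent.N794.CG
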