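import Pool.Agent.N794.CG.Apps
import Pool.Agent.N794.CG.Flex
import Pool.Agent.N794.CG.Aut
import Pool.Agent.N794.CG.Sv
import Pool.Agent.N384.MQ.Dec

/-!
# From theorems on dominated families to the five kinds of families

Digit families, automatic sets, random integers whose blocks of digits can be exchanged, families of residues with small Fourier
coefficients, values of functions of non-integral order.
-/

set_option autoImplicit false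

namespace Pool.Agent.N794.CG
open Finset Filter
open Pool.Agent.R459.Eq (Decays Sys Sysb Few pri mean Vs cntA prp)

/-- for almost all members of every dominated family, all the properties `Q s x` hold, `X ≤ x ≤ b ^ (k / W)` -/
def Eng {S : Type} (τ : ℕ → ℝ) (Q : S → ℕ → ℤ → Prop) : Prop :=
  ∀ b : ℕ, 2 ≤ b → ∀ (A : ℕ) (γ : ℝ), 0 < γ → γ < 1 → ∃ W : ℕ, 1 ≤ W ∧
    ∀ (F : ℕ) (κ : ℤ), 1 ≤ F → κ ≠ 0 → ∃ X₀ : ℕ, ∀ X : ℕ, X₀ ≤ X →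
    ∀ (k : ℕ) (Λ : ℝ) (ι : Type) (Ω : Finset ι) (w : ι → ℝ) (v : ι → ℤ), Dom b F A k γ κ Λ Ω w v → ∀ s : S,
    Mostly Ω w v (Λ * τ X) (fun n => ∀ x : ℕ, X ≤ x → x ^ W ≤ b ^ k → Q s x n)

/-- the systems of functions -/
def FS : Type := {g : ℕ → ℕ → ℤ → ℝ // (∀ j, Sysb (g j)) ∧ Few g}

/-- the two bounds for a system -/
def QF (δ : ℝ) (s : FS) (x : ℕ) (n : ℤ) : Prop :=
  (∀ j : ℕ, j ≤ x → |∑ p ∈ pri x, (s.1 j p n - mean p (s.1 j p))| ≤ (x : ℝ) ^ (1 / 2 + δ)) ∧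
  (∀ j : ℕ, (j : ℝ) ≤ (x : ℝ) ^ (δ / 2) →
    |∑ p ∈ pri x, (s.1 j p n - mean p (s.1 j p))| ≤ √(max 1 (Vs (s.1 j) (2 * x))) * (x : ℝ) ^ δ)

theorem eng_fine (δ : ℝ) (hδ : 0 < δ) (hδ1 : δ ≤ 1 / 2) : Eng (fun X : ℕ => 2 * (X : ℝ) ^ (-(δ / 2))) (QF δ) := by
  intro b hb A γ hγ0 hγ1
  obtain ⟨W, hW, H⟩ := dom_fine b hb A γ hγ0 hγ1 δ hδ hδ1
  refine ⟨W, hW, fun F κ hF hκ => ?_⟩
  obtain ⟨X₀, J⟩ := H F κ hF hκ
  exact ⟨X₀, fun X hX k Λ ι Ω w v hdom s => J X hX k Λ ι Ω w v hdom s.1 s.2.1 s.2.2⟩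

/-- the systems of angles -/
def AS : Type := {a : ℕ → ℤ → ℝ // Sys a}

/-- the bound for the distribution function of a system of angles -/
def QA (δ : ℝ) (s : AS) (x : ℕ) (n : ℤ) : Prop :=
  ∀ u : ℝ, |(cntA s.1 n x u : ℝ) - ∑ p ∈ pri x, prp s.1 p u| ≤ (x : ℝ) ^ (1 / 2 + δ)

theorem eng_ang (δ : ℝ) (hδ : 0 < δ) (hδ1 : δ ≤ 1 / 2) : Eng (fun X : ℕ => (X : ℝ) ^ (-δ)) (QA δ) := by
  intro b hb A γ hγ0 hγ1
  obtain ⟨W, hW, H⟩ := dom_ang b hb A γ hγ0 hγ1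
  refine ⟨W, hW, fun F κ hF hκ => ?_⟩
  obtain ⟨X₀, J⟩ := H F κ hF hκ δ hδ hδ1
  exact ⟨X₀, fun X hX k Λ ι Ω w v hdom s => J X hX k Λ ι Ω w v hdom s.1 s.2⟩

section
variable {S : Type} {τ : ℕ → ℝ} {Q : S → ℕ → ℤ → Prop}

lemma vac (W X x : ℕ) (hX : 2 ≤ X) (hW : 1 ≤ W) (hXx : X ≤ x) : x ≤ x ^ W := Nat.le_self_pow (by omega) x

/-- random integers whose blocks of digits can be exchanged -/
theorem eng_flex (hτ : ∀ X, 0 ≤ τ X) (H : Eng τ Q) (b L : ℕ) (hb : 2 ≤ b) (hL : 1 ≤ L) (η : ℝ) (hη0 : 0 < η) (hη1 : η ≤ 1)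
    (T : ℕ) : ∃ W : ℕ, 1 ≤ W ∧ ∀ κ : ℤ, κ ≠ 0 → ∃ X₀ : ℕ, ∀ X : ℕ, X₀ ≤ X → ∀ (k : ℕ) (p : ℕ → ℝ),
      Pool.Agent.N625.PT.Flex b L η T k p → ∀ (c : ℤ) (s : S),
      Mostly (range (b ^ k)) p (fun v => c + κ * (v : ℕ)) ((k : ℝ) ^ T * τ X)
        (fun n => ∀ x : ℕ, X ≤ x → x ^ W ≤ b ^ k → Q s x n) := by
  obtain ⟨A, γ, hγ0, hγ1, hdom⟩ := flex_dom b L hb hL η hη0 hη1 T
  obtain ⟨W, hW, J⟩ := H b hb A γ hγ0 hγ1
  refine ⟨W, hW, fun κ hκ => ?_⟩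
  obtain ⟨X₀, K⟩ := J (b.factorial * (b ^ L).factorial) κ (Nat.mul_pos (Nat.factorial_pos _) (Nat.factorial_pos _)) hκ
  refine ⟨X₀ + 2, fun X hX k p hp c s => ?_⟩
  rcases Nat.eq_zero_or_pos k with h0 | h0
  · refine Mostly.of_all (mul_nonneg (by positivity) (hτ X)) fun n x hXx hxW => ?_
    rw [h0, pow_zero] at hxW
    have := vac W X x (by omega) hW hXx
    omega
  · exact K X (by omega) k _ _ _ _ _ (hdom k h0 p hp κ c) s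

/-- automatic sets -/
theorem eng_aut (hτ : ∀ X, 0 ≤ τ X) (H : Eng τ Q) {σ : Type} [Fintype σ] (b : ℕ) (hb : 2 ≤ b) (M : DFA ℕ σ)
    (hS : ∀ k : ℕ, ∃ᶠ N : ℕ in atTop, Real.log N ^ k < ((mem b M N).card : ℝ)) : ∃ W e : ℕ, 1 ≤ W ∧
    ∀ κ : ℤ, κ ≠ 0 → ∃ X₀ : ℕ, ∀ X : ℕ, X₀ ≤ X → ∀ (N : ℕ) (c : ℤ) (s : S),
      Mostly (mem b M N) (fun _ => 1 / ((mem b M N).card : ℝ)) (fun v => c + κ * (v : ℕ)) (Real.log N ^ e * τ X)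
        (fun n => ∀ x : ℕ, X ≤ x → x ^ W ≤ N → Q s x n) := by
  obtain ⟨B, A, e, N₀, hB, hdom⟩ := aut_dom b hb M (fun k => (hS k).mono fun N hN => by
    rw [acc_mem]
    exact hN)
  obtain ⟨W, hW, J⟩ := H B hB A (1 / 2) (by norm_num) (by norm_num)
  refine ⟨W, e, hW, fun κ hκ => ?_⟩
  obtain ⟨X₀, K⟩ := J B.factorial κ (Nat.factorial_pos _) hκ
  refine ⟨X₀ + N₀ + 2, fun X hX N c s => ?_⟩
  rcases Nat.lt_or_ge N N₀ with h0 | h0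
  · refine Mostly.of_all (mul_nonneg (pow_nonneg (Real.log_natCast_nonneg N) e) (hτ X)) fun n x hXx hxW => ?_
    have := vac W X x (by omega) hW hXx
    omega
  · refine (K X (by omega) _ _ _ _ _ _ (hdom N h0 κ c) s).mono fun n hn x hXx hxW => hn x hXx ?_
    exact hxW.trans (Nat.lt_pow_succ_log_self (by omega) N).le

/-- the change of scale for a real size `Z` -/
lemma scale_change (W x k : ℕ) (Z : ℝ) (hk : 1 ≤ k) (hZ : Z < 2 ^ (k + 1)) (hx : (x : ℝ) ^ (2 * W) ≤ Z) : x ^ W ≤ 2 ^ k := by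
  by_contra hcon
  push Not at hcon
  have h1 : (2 : ℝ) ^ k < (x : ℝ) ^ W := by exact_mod_cast hcon
  have h2 : ((2 : ℝ) ^ k) ^ 2 < ((x : ℝ) ^ W) ^ 2 := pow_lt_pow_left₀ h1 (by positivity) (by norm_num)
  have h3 : ((x : ℝ) ^ W) ^ 2 = (x : ℝ) ^ (2 * W) := by rw [← pow_mul, mul_comm]
  have h4 : (2 : ℝ) ^ (k + 1) ≤ ((2 : ℝ) ^ k) ^ 2 := by
    rw [← pow_mul]
    exact pow_le_pow_right₀ (by norm_num) (by omega)
  linarith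

/-- families of residues with small Fourier coefficients -/
theorem eng_res (hτ : ∀ X, 0 ≤ τ X) (H : Eng τ Q) : ∃ W : ℕ, 1 ≤ W ∧ ∀ κ : ℤ, κ ≠ 0 → ∃ X₀ : ℕ, ∀ X : ℕ, X₀ ≤ X →
      ∀ (ι : Type) (q : ℕ) [NeZero q] (u : Finset ι) (y : ι → ZMod q) (Z : ℝ), 0 < Z → Z ≤ q →
      Pool.Agent.N384.MQ.Flat q (1 / (Z * (42 + 3 * Real.log q))) u y → ∀ (c₀ : ℤ) (s : S),
      Mostly u (fun _ => 1 / (u.card : ℝ)) (fun i => c₀ + κ * ((y i).val : ℕ)) (τ X)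
        (fun n => ∀ x : ℕ, X ≤ x → (x : ℝ) ^ W ≤ Z → Q s x n) := by
  obtain ⟨W, hW, J⟩ := H 2 le_rfl 5 (1 / 2) (by norm_num) (by norm_num)
  refine ⟨2 * W, by omega, fun κ hκ => ?_⟩
  obtain ⟨X₀, K⟩ := J 1 κ le_rfl hκ
  refine ⟨X₀ + 2, fun X hX ι q _ u y Z hZ hZq hfl c₀ s => ?_⟩
  rcases lt_or_ge Z 2 with h0 | h0
  · refine Mostly.of_all (hτ X) fun n x hXx hxW => ?_
    have h1 := vac (2 * W) X x (by omega) (by omega) hXx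
    have h2 : (2 : ℝ) ≤ (x : ℝ) ^ (2 * W) := by exact_mod_cast (by omega : 2 ≤ x ^ (2 * W))
    linarith
  rcases u.eq_empty_or_nonempty with hu | hu
  · intro E hE _
    rw [hu, subset_empty] at hE
    rw [hE, sum_empty]
    exact hτ X
  obtain ⟨k, hk⟩ : ∃ k, k = Nat.log 2 ⌊Z⌋₊ := ⟨_, rfl⟩
  have hsc : Scale k Z := by
    rw [hk]
    exact scale_of Z (by linarith)
  have hk1 : 1 ≤ k := by
    by_contra hcon
    have h1 : k = 0 := by omega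
    have h2 := hsc.high
    rw [h1] at h2
    norm_num at h2
    linarith
  have hq0 : 0 ≤ Real.log q := Real.log_natCast_nonneg q
  have hdec := Pool.Agent.N384.MQ.decays_fam u hu y (Z * (42 + 3 * Real.log q)) Z (by positivity) hfl hZq le_rfl k
    hsc.low c₀ κ
  have h1 := K X (by omega) k 1 ι u (fun _ => 1 / (u.card : ℝ)) (fun i => c₀ + κ * ((y i).val : ℕ)) (dom_of_decays hdec) s
  rw [one_mul] at h1
  exact h1.mono fun n hn x hXx hxW => hn x hXx (scale_change W x k Z hk1 hsc.high hxW)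

/-- values of functions of non-integral order -/
theorem eng_sv (hτ : ∀ X, 0 ≤ τ X) (H : Eng τ Q) (c : ℝ) (f : ℝ → ℝ) (hc : 0 < c) (hn : ∀ m : ℕ, c ≠ m)
    (hf : Pool.Agent.N193.PS.SmoothlyVarying c f) : ∃ W : ℕ, 1 ≤ W ∧ ∀ κ : ℤ, κ ≠ 0 → ∃ X₀ : ℕ, ∀ X : ℕ, X₀ ≤ X →
      ∀ (M : ℕ) (c₀ : ℤ) (s : S),
      Mostly (Icc 1 M) (fun _ => 1 / (M : ℝ)) (fun n => c₀ + κ * (⌊f n⌋₊ : ℕ)) (τ X)
        (fun n => ∀ x : ℕ, X ≤ x → (x : ℝ) ^ W ≤ f M → Q s x n) := by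
  obtain ⟨A, X₁, hdec⟩ := sv_dom c f hc hn hf
  obtain ⟨W, hW, J⟩ := H 2 le_rfl A (1 / 2) (by norm_num) (by norm_num)
  refine ⟨2 * W, by omega, fun κ hκ => ?_⟩
  obtain ⟨X₀, K⟩ := J 1 κ le_rfl hκ
  refine ⟨X₀ + X₁ + 2, fun X hX M c₀ s => ?_⟩
  rcases lt_or_ge (f M) (X₁ + 2 : ℕ) with h0 | h0
  · refine Mostly.of_all (hτ X) fun n x hXx hxW => ?_
    have h1 := vac (2 * W) X x (by omega) (by omega) hXx
    have h2 : ((X₁ + 2 : ℕ) : ℝ) ≤ (x : ℝ) ^ (2 * W) := by exact_mod_cast (by omega : X₁ + 2 ≤ x ^ (2 * W))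
    linarith
  have hfM : (X₁ : ℝ) ≤ f M := by
    push_cast at h0
    linarith
  have hf2 : (2 : ℝ) ≤ f M := by
    have : (0 : ℝ) ≤ X₁ := Nat.cast_nonneg _
    push_cast at h0
    linarith
  obtain ⟨k, hk⟩ : ∃ k, k = Nat.log 2 ⌊f M⌋₊ := ⟨_, rfl⟩
  have hsc : Scale k (f M) := by
    rw [hk]
    exact scale_of _ (by linarith)
  have hk1 : 1 ≤ k := by
    by_contra hcon
    have h1 : k = 0 := by omega
    have h2 := hsc.high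
    rw [h1] at h2
    norm_num at h2
    linarith
  obtain ⟨_, h1⟩ := hdec M hfM
  have h2 := K X (by omega) k 1 ℕ _ _ _ (dom_of_decays (h1 κ c₀ k hsc.low)) s
  rw [one_mul] at h2
  exact h2.mono fun n hn x hXx hxW => hn x hXx (scale_change W x k _ hk1 hsc.high hxW)

/-- digit families -/
theorem eng_dig (hτ : ∀ X, 0 ≤ τ X) (H : Eng τ Q) (b : ℕ) (hb : 2 ≤ b) (η : ℝ) (hη : 0 < η) : ∃ W : ℕ, 1 ≤ W ∧
    ∀ κ : ℤ, κ ≠ 0 → ∃ X₀ : ℕ, ∀ X : ℕ, X₀ ≤ X → ∀ k : ℕ, 2 ≤ k → ∀ (c : ℤ) (s : S),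
      Pool.Agent.R459.Eq.Almost b k κ c η (τ X) (fun n => ∀ x : ℕ, X ≤ x → x ^ W ≤ b ^ k → Q s x n) := by
  classical
  obtain ⟨A₁, A₂, γ₁, γ₂, h1, h2, h3, h4, G⟩ := Pool.Agent.R459.Eq.almost_of b hb η hη
  obtain ⟨W₁, hW₁, K₁⟩ := H b hb A₁ γ₁ h1 h2
  obtain ⟨W₂, hW₂, K₂⟩ := H b hb A₂ γ₂ h3 h4
  obtain ⟨W, hW⟩ : ∃ W, W = max W₁ W₂ := ⟨_, rfl⟩
  have hWW₁ : W₁ ≤ W := by rw [hW]; exact le_max_left _ _
  have hWW₂ : W₂ ≤ W := by rw [hW]; exact le_max_right _ _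
  refine ⟨W, hW₁.trans hWW₁, fun κ hκ => ?_⟩
  obtain ⟨X₁, J₁⟩ := K₁ (Pool.Agent.TH872.An.GG b) κ (Pool.Agent.TH872.An.GG_pos b hb) hκ
  obtain ⟨X₂, J₂⟩ := K₂ (b ^ 4).factorial κ (Nat.factorial_pos _) hκ
  refine ⟨X₁ + X₂ + 1, fun X hX k hk c s => ?_⟩
  refine G k hk κ c _ _ (hτ X) fun F₀ A' γ hFA ι Ω w v hdec E hE hbad => ?_
  have hpass : ∀ W' ≤ W, ∀ i ∈ E, ¬ ∀ x : ℕ, X ≤ x → x ^ W' ≤ b ^ k → Q s x (v i) := by
    intro W' hW' i hi hall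
    refine hbad i hi fun x hXx hxW => hall x hXx ?_
    refine le_trans (Nat.pow_le_pow_right (by omega) hW') hxW
  rcases hFA with hFA | hFA
  · rw [Prod.mk.injEq, Prod.mk.injEq] at hFA
    obtain ⟨e1, e2, e3⟩ := hFA
    rw [e1, e2, e3] at hdec
    have h5 := J₁ X (by omega) k 1 ι Ω w v (dom_of_decays hdec) s E hE (hpass W₁ hWW₁)
    rwa [one_mul] at h5
  · rw [Prod.mk.injEq, Prod.mk.injEq] at hFA
    obtain ⟨e1, e2, e3⟩ := hFA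
    rw [e1, e2, e3] at hdec
    have h5 := J₂ X (by omega) k 1 ι Ω w v (dom_of_decays hdec) s E hE (hpass W₂ hWW₂)
    rwa [one_mul] at h5

end

end Pool.Agent.N794.CG
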