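import Pool.Agent.N794.CG.Ang
import Pool.Agent.TH894.NF3

/-!
# Kloosterman angles and signs

The lemmas on the signs in the finite-field model follow `Pool.Agent.Results.MP_6ea630_nt.NonIntegralOrderValues` (helper193)
and `Pool.Agent.TH894.NF3` (starting library).
-/

set_option autoImplicit false

namespace Pool.Agent.N794.CG.Kl
open Finset Filter Polynomial
open Pool.Agent.R459.Eq

/-- The Kloosterman sum `S(a, 1; p)`. -/
noncomputable def kloosterman (p : ℕ) (a : ℤ) : ℝ :=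
  ∑ x ∈ Ico 1 p, Real.cos (2 * Real.pi * ((((a : ZMod p) * (x : ZMod p) + (x : ZMod p)⁻¹).val : ℕ) : ℝ) / (p : ℝ))

/-- The angle `θ / π` in `[0, 1]`, where `2 p ^ (1 / 2) cos θ = S(a, 1; p)`, and `1 / 2` if `p` divides `a`. -/
noncomputable def angle (p : ℕ) (a : ℤ) : ℝ :=
  if (p : ℤ) ∣ a then 1 / 2 else Real.arccos (kloosterman p a / (2 * √(p : ℝ))) / Real.pi

open Classical in
/-- The number of the primes `p ≤ x` in `T` for which the angle of `S(a, 1; p)` is in `[y, z)`. -/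
noncomputable def angleCount (T : Set ℕ) (y z : ℝ) (x : ℕ) (a : ℤ) : ℕ :=
  ((range (x + 1)).filter (fun p => p.Prime ∧ p ∈ T ∧ y ≤ angle p a ∧ angle p a < z)).card

open Classical in
/-- The sum over the primes `p ≤ x` in `T` of the proportion of the residues `t` modulo `p` for which the angle of `S(P(t), 1; p)` is in
`[y, z)`. -/
noncomputable def angleModel (P : ℤ[X]) (T : Set ℕ) (y z : ℝ) (x : ℕ) : ℝ :=
  ∑ p ∈ (range (x + 1)).filter (fun p => p.Prime ∧ p ∈ T),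
    (((range p).filter (fun t : ℕ => y ≤ angle p (P.eval (t : ℤ)) ∧ angle p (P.eval (t : ℤ)) < z)).card : ℝ) / p

open Classical in
/-- The number of the primes `p ≤ x` which do not divide `a` and for which `σ S(a, 1; p) > η p ^ (1 / 2)`. -/
noncomputable def signCount (σ η : ℝ) (x : ℕ) (a : ℤ) : ℕ :=
  ((range (x + 1)).filter (fun p : ℕ => p.Prime ∧ ¬ (p : ℤ) ∣ a ∧ η * √(p : ℝ) < σ * kloosterman p a)).card

/-- the Kloosterman sum as a function on the residue classes -/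
noncomputable def kz (p : ℕ) (z : ZMod p) : ℝ :=
  ∑ x ∈ Ico 1 p, Real.cos (2 * Real.pi * (((z * (x : ZMod p) + (x : ZMod p)⁻¹).val : ℕ) : ℝ) / (p : ℝ))

lemma k_eq (p : ℕ) (a : ℤ) : kloosterman p a = kz p (a : ZMod p) := rfl

lemma cast_eq (p : ℕ) {a b : ℤ} (h : (p : ℤ) ∣ a - b) : (a : ZMod p) = (b : ZMod p) := by
  rw [← sub_eq_zero, ← Int.cast_sub, ZMod.intCast_zmod_eq_zero_iff_dvd]
  exact h

lemma angle_congr (p : ℕ) {a b : ℤ} (h : (p : ℤ) ∣ a - b) : angle p a = angle p b := by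
  unfold angle
  rw [k_eq, k_eq, cast_eq p h]
  by_cases h1 : (p : ℤ) ∣ b
  · rw [if_pos h1, if_pos ((dvd_iff_dvd_of_dvd_sub h).2 h1)]
  · rw [if_neg h1, if_neg (fun h2 => h1 ((dvd_iff_dvd_of_dvd_sub h).1 h2))]

lemma angle_le (p : ℕ) (a : ℤ) : angle p a ≤ 1 := by
  unfold angle
  split_ifs
  · norm_num
  · rw [div_le_one Real.pi_pos]
    exact Real.arccos_le_pi _

variable {ι : Type} {Ω : Finset ι} {w : ι → ℝ} {v : ι → ℤ}

/-- the angles -/
theorem kl_angles {δ : ℝ} {X : ℕ} {R₀ : ℕ → Prop} {τ : ℝ}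
    (H : ∀ s : AS, Mostly Ω w v τ (fun n => ∀ x : ℕ, X ≤ x → R₀ x → QA δ s x n)) (P : ℤ[X]) (T : Set ℕ) :
    Mostly Ω w v τ (fun n => ∀ x : ℕ, X ≤ x → R₀ x → ∀ y z : ℝ,
      |(angleCount T y z x (P.eval n) : ℝ) - angleModel P T y z x| ≤ 2 * (x : ℝ) ^ (1 / 2 + δ)) :=
  ang_between H (fun p n => angle p (P.eval n)) (fun p _ m n hmn => angle_congr p (hmn.trans (P.sub_dvd_eval_sub m n)))
    (fun p n => angle_le p _) T

open Classical in
/-- the proportion of a sign -/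
lemma prop_ge (η : ℝ) (hη : 0 ≤ η) (σ : ℝ) (hσ : σ = 1 ∨ σ = -1) (p : ℕ) (hp : p.Prime) :
    1 / 4 - η - 1 / √(p : ℝ) - 1 / p ≤
      (((range p).filter (fun t : ℕ => ¬ (p : ℤ) ∣ (t : ℤ) ∧ η * √(p : ℝ) < σ * kloosterman p (t : ℤ))).card : ℝ) / p := by
  haveI : Fact p.Prime := ⟨hp⟩
  haveI : NeZero p := ⟨hp.ne_zero⟩
  refine (Pool.Agent.TH894.NF.sg_prop η hη σ hσ p hp).trans (le_of_eq ?_)
  unfold Pool.Agent.TH894.NE.Pr
  rw [pow_one]
  congr 2
  apply card_bij (fun m _ => m 0)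
  · intro m hm
    simp only [mem_filter, Pool.Agent.TH894.NE.mem_box] at hm
    simp only [mem_filter, mem_range]
    refine ⟨hm.1 0, ?_, ?_⟩
    · rw [Int.natCast_dvd_natCast]
      exact hm.2.1
    · have h1 := hm.2.2
      have e : Pool.Agent.TH894.NF.kls p (m 0) = kloosterman p ((m 0 : ℕ) : ℤ) := by
        unfold Pool.Agent.TH894.NF.kls kloosterman
        simp only [Int.cast_natCast]
      rw [e] at h1
      exact h1
  · intro m _ m' _ hmm
    funext i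
    rw [Subsingleton.elim i 0]
    exact hmm
  · intro a ha
    simp only [mem_filter, mem_range] at ha
    refine ⟨fun _ => a, ?_, rfl⟩
    simp only [mem_filter, Pool.Agent.TH894.NE.mem_box]
    refine ⟨fun _ => ha.1, ?_, ?_⟩
    · have h1 := ha.2.1
      rw [Int.natCast_dvd_natCast] at h1
      exact h1
    · have h1 := ha.2.2
      have e : Pool.Agent.TH894.NF.kls p a = kloosterman p ((a : ℕ) : ℤ) := by
        unfold Pool.Agent.TH894.NF.kls kloosterman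
        simp only [Int.cast_natCast]
      rw [← e] at h1
      exact h1

lemma sqrt_sum (x : ℕ) : ∑ p ∈ pri x, (1 / √(p : ℝ) + 1 / p) ≤ 4 * √(x : ℝ) := by
  have h1 : ∀ p ∈ pri x, 1 / √(p : ℝ) + 1 / (p : ℝ) ≤ 2 * (1 / √(p : ℝ)) := by
    intro p hp
    have hp1 : (1 : ℝ) ≤ p := by exact_mod_cast (mem_pri.1 hp).2.one_lt.le
    have hs : 1 ≤ √(p : ℝ) := by
      rw [Real.one_le_sqrt]
      exact hp1
    have h2 : √(p : ℝ) ≤ p := by
      rw [Real.sqrt_le_left (by linarith)]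
      nlinarith
    have h3 : 1 / (p : ℝ) ≤ 1 / √(p : ℝ) := one_div_le_one_div_of_le (by linarith) h2
    linarith
  have h2 : ∀ n : ℕ, ∑ p ∈ range n, 1 / √((p : ℝ) + 1) ≤ 2 * √(n : ℝ) := by
    intro n
    induction n with
    | zero => simp
    | succ n ih =>
      rw [sum_range_succ]
      have h3 : 0 < √((n : ℝ) + 1) := Real.sqrt_pos.2 (by positivity)
      have h4 : √(n : ℝ) ≤ √((n : ℝ) + 1) := Real.sqrt_le_sqrt (by linarith)
      have h5 : √((n : ℝ) + 1) ^ 2 = n + 1 := Real.sq_sqrt (by positivity)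
      have h6 : √(n : ℝ) ^ 2 = n := Real.sq_sqrt (by positivity)
      have h7 : 1 / √((n : ℝ) + 1) ≤ 2 * √((n : ℝ) + 1) - 2 * √(n : ℝ) := by
        rw [div_le_iff₀ h3]
        nlinarith [sq_nonneg (√((n : ℝ) + 1) - √(n : ℝ))]
      push_cast
      linarith
  have h3 : pri x ⊆ (range x).image (fun n : ℕ => n + 1) := by
    intro p hp
    have h4 := mem_pri.1 hp
    rw [mem_image]
    have := h4.2.one_lt
    exact ⟨p - 1, by rw [mem_range]; omega, by omega⟩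
  calc ∑ p ∈ pri x, (1 / √(p : ℝ) + 1 / p) ≤ ∑ p ∈ pri x, 2 * (1 / √(p : ℝ)) := sum_le_sum h1
    _ ≤ ∑ p ∈ (range x).image (fun n : ℕ => n + 1), 2 * (1 / √(p : ℝ)) :=
        sum_le_sum_of_subset_of_nonneg h3 fun p _ _ => by positivity
    _ = ∑ n ∈ range x, 2 * (1 / √((n : ℝ) + 1)) := by
        rw [sum_image (fun (a : ℕ) _ (b : ℕ) _ (h : a + 1 = b + 1) => by omega)]
        apply sum_congr rfl
        intro n _
        push_cast
        rfl
    _ = 2 * ∑ n ∈ range x, 1 / √((n : ℝ) + 1) := by rw [← mul_sum]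
    _ ≤ _ := by linarith [h2 x]

/-- the signs -/
theorem kl_signs {δ : ℝ} (hδ : 0 < δ) {X : ℕ} (hX : 1 ≤ X) {R₀ : ℕ → Prop} {τ : ℝ}
    (H : ∀ s : AS, Mostly Ω w v τ (fun n => ∀ x : ℕ, X ≤ x → R₀ x → QA δ s x n)) (σ : ℝ) (hσ : σ = 1 ∨ σ = -1) :
    Mostly Ω w v τ (fun n => ∀ x : ℕ, X ≤ x → R₀ x → ∀ η : ℝ, 0 ≤ η →
      (1 / 4 - η) * (((range (x + 1)).filter Nat.Prime).card : ℝ) - 5 * (x : ℝ) ^ (1 / 2 + δ) ≤ signCount σ η x n) := by
  classical
  obtain ⟨g, hg⟩ : ∃ g : ℕ → ℤ → ℝ, g = fun (p : ℕ) (n : ℤ) => if (p : ℤ) ∣ n then 10 else -(σ * kloosterman p n / √(p : ℝ)) := ⟨_, rfl⟩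
  have hsys : Sys g := by
    intro p hp m n hmn
    rw [hg]
    simp only
    rw [k_eq, k_eq, cast_eq p hmn]
    by_cases h1 : (p : ℤ) ∣ n
    · rw [if_pos h1, if_pos ((dvd_iff_dvd_of_dvd_sub hmn).2 h1)]
    · rw [if_neg h1, if_neg (fun h2 => h1 ((dvd_iff_dvd_of_dvd_sub hmn).1 h2))]
  have hiff : ∀ p : ℕ, p.Prime → ∀ (n : ℤ) (η : ℝ), 0 ≤ η →
      (g p n < -η ↔ ¬ (p : ℤ) ∣ n ∧ η * √(p : ℝ) < σ * kloosterman p n) := by
    intro p hp n η hη
    have hs : 0 < √(p : ℝ) := Real.sqrt_pos.2 (by exact_mod_cast hp.pos)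
    rw [hg]
    simp only
    by_cases h1 : (p : ℤ) ∣ n
    · rw [if_pos h1]
      constructor
      · intro h2
        linarith
      · rintro ⟨h2, _⟩
        exact absurd h1 h2
    · rw [if_neg h1, neg_lt_neg_iff, lt_div_iff₀ hs]
      exact ⟨fun h2 => ⟨h1, h2⟩, fun h2 => h2.2⟩
  refine (H ⟨g, hsys⟩).mono fun n hn x hXx hR η hη => ?_
  have hq : ∀ u : ℝ, |(cntA g n x u : ℝ) - ∑ p ∈ pri x, prp g p u| ≤ (x : ℝ) ^ (1 / 2 + δ) := hn x hXx hR
  have h1 := (abs_le.1 (hq (-η))).1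
  have e1 : cntA g n x (-η) = signCount σ η x n := by
    unfold cntA signCount
    congr 1
    ext p
    rw [mem_filter, mem_filter, mem_pri, mem_range]
    constructor
    · rintro ⟨⟨h2, h3⟩, h4⟩
      exact ⟨by omega, h3, (hiff p h3 n η hη).1 h4⟩
    · rintro ⟨h2, h3, h4⟩
      exact ⟨⟨by omega, h3⟩, (hiff p h3 n η hη).2 h4⟩
  have e2 : ∀ p ∈ pri x, 1 / 4 - η - (1 / √(p : ℝ) + 1 / p) ≤ prp g p (-η) := by
    intro p hp
    have hpp := (mem_pri.1 hp).2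
    have h2 := prop_ge η hη σ hσ p hpp
    unfold prp
    have e : (range p).filter (fun t : ℕ => g p (t : ℤ) < -η) =
        (range p).filter (fun t : ℕ => ¬ (p : ℤ) ∣ (t : ℤ) ∧ η * √(p : ℝ) < σ * kloosterman p (t : ℤ)) := by
      apply filter_congr
      intro t _
      exact hiff p hpp (t : ℤ) η hη
    rw [e]
    linarith
  have e3 : (1 / 4 - η) * (((range (x + 1)).filter Nat.Prime).card : ℝ) - 4 * √(x : ℝ) ≤ ∑ p ∈ pri x, prp g p (-η) := by
    have e4 : (range (x + 1)).filter Nat.Prime = pri x := by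
      unfold pri
      congr!
    rw [e4]
    have h2 := sum_le_sum e2
    rw [sum_sub_distrib, sum_const, nsmul_eq_mul] at h2
    have h3 := sqrt_sum x
    linarith
  have hx1 : (1 : ℝ) ≤ x := by exact_mod_cast (hX.trans hXx)
  have e5 : √(x : ℝ) ≤ (x : ℝ) ^ (1 / 2 + δ) := by
    rw [Real.sqrt_eq_rpow]
    exact Real.rpow_le_rpow_of_exponent_le hx1 (by linarith)
  rw [e1] at h1
  linarith

end Pool.Agent.N794.CG.Kl
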