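import Pool.Agent.N794.CG.Eng

/-!
# Several parameters

The values at prime numbers of functions of several residues, for almost all vectors whose coordinates are independent
members of families for which the one-dimensional statement `FineAt` is true.
-/

set_option autoImplicit false

namespace Pool.Agent.N794.CG
open Finset Filter
open Pool.Agent.R459.Eq (Decays Sys Sysb Few pri mem_pri mean Vs)

/-- the one-dimensional statement for a family -/
def FineAt (δ : ℝ) (X : ℕ) (R : ℕ → Prop) (τ : ℝ) {ι : Type} (Ω : Finset ι) (w : ι → ℝ) (v : ι → ℤ) : Prop :=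
  ∀ s : FS, Mostly Ω w v τ (fun n => ∀ x : ℕ, X ≤ x → R x → QF δ s x n)

/-- a system of functions of several variables, supported on the sets `T j` of primes -/
def SysM (T : ℕ → Set ℕ) {D : ℕ} (h : ℕ → ℕ → (Fin D → ℤ) → ℝ) : Prop :=
  (∀ j p : ℕ, p.Prime → ∀ m m' : Fin D → ℤ, (∀ l, (p : ℤ) ∣ m l - m' l) → h j p m = h j p m') ∧
  (∀ j p : ℕ, p.Prime → ∀ m : Fin D → ℤ, |h j p m| ≤ 1 ∧ (p ∉ T j → h j p m = 0))

/-- the mean over all the variables -/
noncomputable def meanD (p : ℕ) : (D : ℕ) → ((Fin D → ℤ) → ℝ) → ℝ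
  | 0, f => f (fun i => i.elim0)
  | D + 1, f => meanD p D (fun m => mean p (fun n => f (Fin.cons n m)))

open Classical in
/-- the number of the primes up to `x` in `T` -/
noncomputable def cntT (T : Set ℕ) (x : ℕ) : ℕ := ((pri x).filter (fun p => p ∈ T)).card

/-- the mean over the first variable -/
noncomputable def Avh {D : ℕ} (h : ℕ → ℕ → (Fin (D + 1) → ℤ) → ℝ) (j p : ℕ) (m : Fin D → ℤ) : ℝ :=
  mean p (fun n => h j p (Fin.cons n m))

lemma mean_le (p : ℕ) (hp : 1 ≤ p) (f : ℤ → ℝ) (C : ℝ) (hf : ∀ n, |f n| ≤ C) : |mean p f| ≤ C := by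
  have hp0 : (0 : ℝ) < p := by exact_mod_cast hp
  unfold mean
  rw [abs_div, abs_of_pos hp0, div_le_iff₀ hp0]
  refine (abs_sum_le_sum_abs _ _).trans ((sum_le_card_nsmul (range p) (fun t : ℕ => |f (t : ℤ)|) C fun t _ => hf (t : ℤ)).trans ?_)
  rw [card_range, nsmul_eq_mul, mul_comm]

lemma Avh_sys {T : ℕ → Set ℕ} {D : ℕ} {h : ℕ → ℕ → (Fin (D + 1) → ℤ) → ℝ} (hh : SysM T h) : SysM T (Avh h) := by
  constructor
  · intro j p hp m m' hm
    unfold Avh
    congr 1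
    funext n
    apply hh.1 j p hp
    intro l
    refine Fin.cases ?_ (fun l => ?_) l
    · simp
    · simpa using hm l
  · intro j p hp m
    constructor
    · exact mean_le p hp.one_lt.le _ 1 fun n => (hh.2 j p hp _).1
    · intro hpT
      unfold Avh
      have : (fun n : ℤ => h j p (Fin.cons n m)) = fun _ => 0 := funext fun n => (hh.2 j p hp _).2 hpT
      rw [this]
      unfold mean
      simp

/-- the system in the first variable -/
lemma fst_sys {T : ℕ → Set ℕ} (hT : ∀ p j j', p ∈ T j → p ∈ T j' → j = j') {D : ℕ} {h : ℕ → ℕ → (Fin (D + 1) → ℤ) → ℝ}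
    (hh : SysM T h) (m : Fin D → ℤ) : (∀ j, Sysb (fun p n => h j p (Fin.cons n m))) ∧ Few (fun j p n => h j p (Fin.cons n m)) := by
  classical
  constructor
  · intro j
    constructor
    · intro p hp a b hab
      apply hh.1 j p hp
      intro l
      refine Fin.cases ?_ (fun l => ?_) l
      · simpa using hab
      · simp
    · intro p hp n
      exact (hh.2 j p hp _).1
  · intro p hp n M
    have h1 : ∑ j ∈ range M, (h j p (Fin.cons n m)) ^ 2 ≤ ∑ j ∈ range M, if p ∈ T j then (1 : ℝ) else 0 := by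
      apply sum_le_sum
      intro j _
      have h2 := hh.2 j p hp (Fin.cons n m)
      split_ifs with h3
      · have := sq_le_one_iff_abs_le_one (h j p (Fin.cons n m))
        exact this.2 h2.1
      · rw [h2.2 h3]
        norm_num
    rw [sum_boole] at h1
    have h4 : ((range M).filter (fun j => p ∈ T j)).card ≤ 1 := by
      rw [card_le_one]
      intro j hj j' hj'
      exact hT p j j' (mem_filter.1 hj).2 (mem_filter.1 hj').2
    have h5 : (((range M).filter (fun j => p ∈ T j)).card : ℝ) ≤ 1 := by exact_mod_cast h4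
    have h6 : (0 : ℝ) ≤ Nat.log 2 p := Nat.cast_nonneg _
    linarith

lemma Vs_cnt {T : Set ℕ} (g : ℕ → ℤ → ℝ) (hg : ∀ p : ℕ, p.Prime → ∀ n, |g p n| ≤ 1 ∧ (p ∉ T → g p n = 0)) (x : ℕ) :
    Vs g x ≤ cntT T x := by
  classical
  unfold cntT
  rw [card_filter]
  push_cast
  unfold Vs
  apply sum_le_sum
  intro p hp
  have hpp := (mem_pri.1 hp).2
  refine (le_abs_self _).trans (mean_le p hpp.one_lt.le _ _ fun n => ?_)
  have h2 := hg p hpp n
  rw [abs_of_nonneg (sq_nonneg _)]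
  split_ifs with h3
  · exact (sq_le_one_iff_abs_le_one (g p n)).2 h2.1
  · rw [h2.2 h3]
    norm_num

/-- the property of the index vectors which are counted -/
def BadM (δ : ℝ) (X : ℕ) (R : ℕ → Prop) (T : ℕ → Set ℕ) (C : ℝ) (a b : ℕ → ℕ → ℝ) : Prop :=
  ∃ x : ℕ, X ≤ x ∧ R x ∧ ∃ j : ℕ, (j : ℝ) ≤ (x : ℝ) ^ (δ / 2) ∧
    C * (√(max 1 (cntT (T j) (2 * x) : ℝ)) * (x : ℝ) ^ δ) < |∑ p ∈ pri x, (a j p - b j p)|

/-- **several parameters** -/
theorem multi (δ : ℝ) (X : ℕ) (R : ℕ → Prop) (T : ℕ → Set ℕ) (hT : ∀ p j j', p ∈ T j → p ∈ T j' → j = j') :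
    ∀ (D : ℕ) (ι : Fin D → Type) (Ω : ∀ l, Finset (ι l)) (w : ∀ l, ι l → ℝ) (v : ∀ l, ι l → ℤ) (τ : Fin D → ℝ),
    (∀ l, 0 ≤ τ l) → (∀ l, ∀ i ∈ Ω l, 0 ≤ w l i) → (∀ l, ∑ i ∈ Ω l, w l i ≤ 1) →
    (∀ l, FineAt δ X R (τ l) (Ω l) (w l) (v l)) →
    ∀ h : ℕ → ℕ → (Fin D → ℤ) → ℝ, SysM T h → ∀ E : Finset (∀ l, ι l), E ⊆ Fintype.piFinset Ω →
    (∀ i ∈ E, BadM δ X R T D (fun j p => h j p (fun l => v l (i l))) (fun j p => meanD p D (h j p))) →
    ∑ i ∈ E, ∏ l, w l (i l) ≤ ∑ l, τ l := by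
  classical
  intro D
  induction D with
  | zero =>
    intro ι Ω w v τ _ _ _ _ h _ E _ hbad
    have hE : E = ∅ := by
      rw [eq_empty_iff_forall_notMem]
      intro i hi
      obtain ⟨x, _, _, j, _, hlt⟩ := hbad i hi
      have h1 : ∀ p, h j p (fun l => v l (i l)) - meanD p 0 (h j p) = 0 := by
        intro p
        have e : (fun l => v l (i l)) = (fun i : Fin 0 => (i.elim0 : ℤ)) := funext fun l => l.elim0
        rw [e, meanD, sub_self]
      simp only [h1, sum_const_zero, abs_zero, CharP.cast_eq_zero, zero_mul, lt_self_iff_false] at hlt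
    rw [hE, sum_empty]
    simp
  | succ D ih =>
    intro ι Ω w v τ hτ hw hw1 hfine h hh E hE hbad
    have hE' : ∀ i ∈ E, ∀ l, i l ∈ Ω l := fun i hi => Fintype.mem_piFinset.1 (hE hi)
    -- the tails
    obtain ⟨tl, htl⟩ : ∃ tl : (∀ l, ι l) → (∀ l : Fin D, ι l.succ), tl = fun i l => i l.succ := ⟨_, rfl⟩
    obtain ⟨Ω', hΩ'⟩ : ∃ Ω' : Finset (∀ l : Fin D, ι l.succ), Ω' = Fintype.piFinset (fun l : Fin D => Ω l.succ) := ⟨_, rfl⟩
    obtain ⟨w', hw'⟩ : ∃ w' : (∀ l : Fin D, ι l.succ) → ℝ, w' = fun i => ∏ l, w l.succ (i l) := ⟨_, rfl⟩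
    have htl' : ∀ i ∈ E, tl i ∈ Ω' := by
      intro i hi
      rw [hΩ', htl, Fintype.mem_piFinset]
      exact fun l => hE' i hi l.succ
    have hw'0 : ∀ i ∈ Ω', 0 ≤ w' i := by
      intro i hi
      rw [hΩ', Fintype.mem_piFinset] at hi
      rw [hw']
      exact prod_nonneg fun l _ => hw l.succ _ (hi l)
    have hw'1 : ∑ i ∈ Ω', w' i ≤ 1 := by
      rw [hΩ', hw', ← prod_univ_sum (fun l : Fin D => Ω l.succ) (fun l i => w l.succ i)]
      exact prod_le_one (fun l _ => sum_nonneg fun i hi => hw l.succ i hi) fun l _ => hw1 l.succ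
    have hprod : ∀ i : (∀ l, ι l), ∏ l, w l (i l) = w 0 (i 0) * w' (tl i) := by
      intro i
      rw [Fin.prod_univ_succ, hw', htl]
    have hvec : ∀ i : (∀ l, ι l), (fun l => v l (i l)) =
        Fin.cons (v 0 (i 0)) (fun l : Fin D => v l.succ (tl i l)) := by
      intro i
      funext l
      refine Fin.cases ?_ (fun l => ?_) l
      · simp
      · simp [htl]
    -- grouping by the tails
    have hgroup : ∀ G : Finset (∀ l, ι l), G ⊆ E → ∀ c : ℝ,
        (∀ i' ∈ Ω', i' ∈ G.image tl → ∑ i ∈ G.filter (fun i => tl i = i'), w 0 (i 0) ≤ c) →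
        ∑ i ∈ G, ∏ l, w l (i l) ≤ ∑ i' ∈ G.image tl, w' i' * c := by
      intro G hG c hc
      rw [← sum_fiberwise_of_maps_to (g := tl) (t := G.image tl) (fun i hi => mem_image_of_mem tl hi)]
      apply sum_le_sum
      intro i' hi'
      obtain ⟨i, hi, hii⟩ := mem_image.1 hi'
      have hi'Ω : i' ∈ Ω' := by
        rw [← hii]
        exact htl' i (hG hi)
      calc ∑ i ∈ G.filter (fun i => tl i = i'), ∏ l, w l (i l) = ∑ i ∈ G.filter (fun i => tl i = i'), w' i' * w 0 (i 0) := by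
            apply sum_congr rfl
            intro i hi
            rw [hprod i, (mem_filter.1 hi).2, mul_comm]
        _ = w' i' * ∑ i ∈ G.filter (fun i => tl i = i'), w 0 (i 0) := (mul_sum _ _ _).symm
        _ ≤ w' i' * c := mul_le_mul_of_nonneg_left (hc i' hi'Ω hi') (hw'0 i' hi'Ω)
    -- the fibres
    have hfib : ∀ (G : Finset (∀ l, ι l)), G ⊆ E → ∀ i' : (∀ l : Fin D, ι l.succ),
        ∑ i ∈ G.filter (fun i => tl i = i'), w 0 (i 0) = ∑ z ∈ (G.filter (fun i => tl i = i')).image (fun i => i 0), w 0 z := by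
      intro G hG i'
      rw [sum_image]
      intro i hi i₂ hi₂ h0
      rw [mem_coe, mem_filter] at hi hi₂
      funext l
      refine Fin.cases h0 (fun l => ?_) l
      have h1 := congrFun (hi.2.trans hi₂.2.symm) l
      rw [htl] at h1
      exact h1
    -- the two kinds of exceptions
    obtain ⟨E₁, hE₁⟩ : ∃ E₁, E₁ = E.filter (fun i => BadM δ X R T 1 (fun j p => h j p (fun l => v l (i l)))
      (fun j p => Avh h j p (fun l : Fin D => v l.succ (tl i l)))) := ⟨_, rfl⟩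
    obtain ⟨E₂, hE₂⟩ : ∃ E₂, E₂ = E.filter (fun i => BadM δ X R T D (fun j p => Avh h j p (fun l : Fin D => v l.succ (tl i l)))
      (fun j p => meanD p D (Avh h j p))) := ⟨_, rfl⟩
    have hE₁E : E₁ ⊆ E := by rw [hE₁]; exact filter_subset _ _
    have hE₂E : E₂ ⊆ E := by rw [hE₂]; exact filter_subset _ _
    have hsplit : E ⊆ E₁ ∪ E₂ := by
      intro i hi
      rw [mem_union]
      by_contra hcon
      push Not at hcon
      obtain ⟨c1, c2⟩ := hcon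
      obtain ⟨x, hXx, hxW, j, hj, hlt⟩ := hbad i hi
      obtain ⟨V, hV⟩ : ∃ V : ℝ, V = √(max 1 (cntT (T j) (2 * x) : ℝ)) * (x : ℝ) ^ δ := ⟨_, rfl⟩
      have b1 : |∑ p ∈ pri x, (h j p (fun l => v l (i l)) - Avh h j p (fun l : Fin D => v l.succ (tl i l)))| ≤ 1 * V := by
        by_contra h5
        push Not at h5
        rw [hV] at h5
        exact c1 (by rw [hE₁, mem_filter]; exact ⟨hi, x, hXx, hxW, j, hj, h5⟩)
      have b2 : |∑ p ∈ pri x, (Avh h j p (fun l : Fin D => v l.succ (tl i l)) - meanD p D (Avh h j p))| ≤ D * V := by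
        by_contra h5
        push Not at h5
        rw [hV] at h5
        exact c2 (by rw [hE₂, mem_filter]; exact ⟨hi, x, hXx, hxW, j, hj, h5⟩)
      have e : ∑ p ∈ pri x, (h j p (fun l => v l (i l)) - meanD p (D + 1) (h j p)) =
          ∑ p ∈ pri x, (h j p (fun l => v l (i l)) - Avh h j p (fun l : Fin D => v l.succ (tl i l))) +
          ∑ p ∈ pri x, (Avh h j p (fun l : Fin D => v l.succ (tl i l)) - meanD p D (Avh h j p)) := by
        rw [← sum_add_distrib]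
        apply sum_congr rfl
        intro p _
        have e1 : meanD p (D + 1) (h j p) = meanD p D (Avh h j p) := rfl
        rw [e1]
        ring
      rw [← hV, e] at hlt
      have := abs_add_le (∑ p ∈ pri x, (h j p (fun l => v l (i l)) - Avh h j p (fun l : Fin D => v l.succ (tl i l))))
        (∑ p ∈ pri x, (Avh h j p (fun l : Fin D => v l.succ (tl i l)) - meanD p D (Avh h j p)))
      push_cast at hlt
      linarith
    -- the sum over the first kind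
    have k1 : ∑ i ∈ E₁, ∏ l, w l (i l) ≤ τ 0 := by
      refine (hgroup E₁ hE₁E (τ 0) fun i' hi' _ => ?_).trans ?_
      · rw [hfib E₁ hE₁E i']
        obtain ⟨m, hm⟩ : ∃ m : Fin D → ℤ, m = fun l => v l.succ (i' l) := ⟨_, rfl⟩
        obtain ⟨s1, s2⟩ := fst_sys hT hh m
        refine hfine 0 ⟨fun j p n => h j p (Fin.cons n m), s1, s2⟩ _ ?_ ?_
        · intro z hz
          obtain ⟨i, hi, hiz⟩ := mem_image.1 hz
          rw [← hiz]
          exact hE' i (hE₁E (mem_filter.1 hi).1) 0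
        · intro z hz hall
          obtain ⟨i, hi, hiz⟩ := mem_image.1 hz
          obtain ⟨hi1, hi2⟩ := mem_filter.1 hi
          rw [hE₁, mem_filter] at hi1
          obtain ⟨_, x, hXx, hxW, j, hj, hlt⟩ := hi1
          have h6 := (hall x hXx hxW).2 j hj
          rw [hvec i] at hlt
          simp only [hi2, ← hm] at hlt
          rw [one_mul] at hlt
          rw [← hiz] at h6
          have h7 : √(max 1 (Vs ((⟨fun j p n => h j p (Fin.cons n m), s1, s2⟩ : FS).1 j) (2 * x))) * (x : ℝ) ^ δ ≤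
              √(max 1 (cntT (T j) (2 * x) : ℝ)) * (x : ℝ) ^ δ := by
            apply mul_le_mul_of_nonneg_right _ (by positivity)
            apply Real.sqrt_le_sqrt
            apply max_le_max le_rfl
            exact Vs_cnt _ (fun p hp n => hh.2 j p hp _) _
          exact absurd (h6.trans h7) (not_le.2 hlt)
      · rw [← sum_mul]
        have h8 : ∑ i' ∈ E₁.image tl, w' i' ≤ 1 := by
          refine (sum_le_sum_of_subset_of_nonneg ?_ fun i hi _ => hw'0 i hi).trans hw'1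
          intro i' hi'
          obtain ⟨i, hi, hii⟩ := mem_image.1 hi'
          rw [← hii]
          exact htl' i (hE₁E hi)
        calc _ ≤ 1 * τ 0 := mul_le_mul_of_nonneg_right h8 (hτ 0)
          _ = τ 0 := one_mul _
    -- the sum over the second kind
    have k2 : ∑ i ∈ E₂, ∏ l, w l (i l) ≤ ∑ l : Fin D, τ l.succ := by
      refine (hgroup E₂ hE₂E 1 fun i' hi' _ => ?_).trans ?_
      · rw [hfib E₂ hE₂E i']
        refine (sum_le_sum_of_subset_of_nonneg ?_ fun i hi _ => hw 0 i hi).trans (hw1 0)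
        intro z hz
        obtain ⟨i, hi, hiz⟩ := mem_image.1 hz
        rw [← hiz]
        exact hE' i (hE₂E (mem_filter.1 hi).1) 0
      · simp only [mul_one]
        rw [hw']
        refine ih (fun l => ι l.succ) (fun l => Ω l.succ) (fun l => w l.succ) (fun l => v l.succ) (fun l => τ l.succ)
          (fun l => hτ l.succ) (fun l => hw l.succ) (fun l => hw1 l.succ) (fun l => hfine l.succ) (Avh h) (Avh_sys hh)
          (E₂.image tl) ?_ ?_
        · intro i' hi'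
          obtain ⟨i, hi, hii⟩ := mem_image.1 hi'
          rw [← hii, ← hΩ']
          exact htl' i (hE₂E hi)
        · intro i' hi'
          obtain ⟨i, hi, hii⟩ := mem_image.1 hi'
          rw [hE₂, mem_filter] at hi
          rw [← hii]
          exact hi.2
    have hnn : ∀ i ∈ E, 0 ≤ ∏ l, w l (i l) := fun i hi => prod_nonneg fun l _ => hw l _ (hE' i hi l)
    have hsum : ∑ i ∈ E, ∏ l, w l (i l) ≤ ∑ i ∈ E₁, ∏ l, w l (i l) + ∑ i ∈ E₂, ∏ l, w l (i l) := by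
      calc ∑ i ∈ E, ∏ l, w l (i l) ≤ ∑ i ∈ E₁ ∪ E₂, ∏ l, w l (i l) :=
            sum_le_sum_of_subset_of_nonneg hsplit fun i hi _ => hnn i ((union_subset hE₁E hE₂E) hi)
        _ ≤ ∑ i ∈ E₁ ∪ E₂, ∏ l, w l (i l) + ∑ i ∈ E₁ ∩ E₂, ∏ l, w l (i l) := by
            have : 0 ≤ ∑ i ∈ E₁ ∩ E₂, ∏ l, w l (i l) := sum_nonneg fun i hi => hnn i (hE₁E (mem_inter.1 hi).1)
            linarith
        _ = _ := sum_union_inter
    rw [Fin.sum_univ_succ]
    linarith

/-- the means are linear -/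
lemma meanD_div (p : ℕ) (C : ℝ) : ∀ (D : ℕ) (f : (Fin D → ℤ) → ℝ), meanD p D (fun m => f m / C) = meanD p D f / C := by
  intro D
  induction D with
  | zero => intro f; rfl
  | succ D ih =>
    intro f
    rw [meanD, meanD, ← ih]
    congr 1
    funext m
    unfold mean
    rw [← sum_div]
    ring

lemma meanD_zero (p : ℕ) : ∀ (D : ℕ), meanD p D (fun _ => 0) = 0 := by
  intro D
  induction D with
  | zero => rfl
  | succ D ih =>
    rw [meanD]
    have : (fun m : Fin D → ℤ => mean p (fun _ : ℤ => (0 : ℝ))) = fun _ => 0 := by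
      funext m
      unfold mean
      simp
    rw [this, ih]

/-- the mean over the box -/
lemma meanD_eq (p : ℕ) : ∀ (D : ℕ) (f : (Fin D → ℤ) → ℝ),
    meanD p D f = 1 / (p : ℝ) ^ D * ∑ n ∈ Fintype.piFinset (fun _ : Fin D => range p), f (fun l => (n l : ℤ)) := by
  intro D
  induction D with
  | zero =>
    intro f
    rw [meanD]
    have h1 : (Fintype.piFinset (fun _ : Fin 0 => range p)) = {fun i => i.elim0} := by
      ext a
      rw [Fintype.mem_piFinset, mem_singleton]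
      constructor
      · intro _
        funext i
        exact i.elim0
      · intro _ i
        exact i.elim0
    rw [h1, sum_singleton, pow_zero, div_one, one_mul]
    congr 1
    funext i
    exact i.elim0
  | succ D ih =>
    intro f
    rw [meanD, ih]
    have h1 : ∑ n ∈ Fintype.piFinset (fun _ : Fin (D + 1) => range p), f (fun l => (n l : ℤ)) =
        ∑ m ∈ Fintype.piFinset (fun _ : Fin D => range p), ∑ t ∈ range p, f (Fin.cons (t : ℤ) (fun l => (m l : ℤ))) := by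
      rw [sum_comm, ← sum_product' (f := fun (t : ℕ) (m : Fin D → ℕ) => f (Fin.cons (t : ℤ) (fun l => (m l : ℤ))))]
      refine sum_nbij' (fun n => (n 0, fun l => n l.succ)) (fun z => Fin.cons z.1 z.2) ?_ ?_ ?_ ?_ ?_
      · intro n hn
        rw [Fintype.mem_piFinset] at hn
        rw [mem_product, Fintype.mem_piFinset]
        exact ⟨hn 0, fun l => hn l.succ⟩
      · intro z hz
        rw [mem_product, Fintype.mem_piFinset] at hz
        rw [Fintype.mem_piFinset]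
        intro l
        refine Fin.cases ?_ (fun l => ?_) l
        · simpa using hz.1
        · simpa using hz.2 l
      · intro n _
        funext l
        refine Fin.cases ?_ (fun l => ?_) l
        · simp
        · simp
      · intro z _
        simp
      · intro n _
        congr 1
        funext l
        refine Fin.cases ?_ (fun l => ?_) l
        · simp
        · simp
    rw [h1, pow_succ, mul_sum, mul_sum]
    apply sum_congr rfl
    intro m _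
    unfold mean
    rw [one_div, one_div, mul_inv]
    ring

/-- the sums of `p ^ (- 1 / 2)` over sets of primes -/
lemma sqrt_sum (T : Set ℕ) [DecidablePred (fun p => p ∈ T)] (x : ℕ) (L : ℝ) (hL : ∑ p ∈ pri x, 1 / (p : ℝ) ≤ L) :
    ∑ p ∈ (pri x).filter (fun p => p ∈ T), 1 / √(p : ℝ) ≤ √(((pri x).filter (fun p => p ∈ T)).card : ℝ) * √L := by
  have h0 : ∑ p ∈ (pri x).filter (fun p => p ∈ T), (1 / √(p : ℝ)) ^ 2 ≤ L := by
    refine le_trans ?_ hL
    refine le_trans (sum_le_sum_of_subset_of_nonneg (filter_subset _ _) fun p _ _ => sq_nonneg _) ?_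
    apply sum_le_sum
    intro p _
    rw [div_pow, one_pow, Real.sq_sqrt (Nat.cast_nonneg p)]
  have h1 := Finset.sum_mul_sq_le_sq_mul_sq ((pri x).filter (fun p => p ∈ T)) (fun _ => (1 : ℝ)) (fun p => 1 / √(p : ℝ))
  simp only [one_mul, one_pow, sum_const, nsmul_eq_mul, mul_one] at h1
  rw [← Real.sqrt_mul (Nat.cast_nonneg _)]
  apply Real.le_sqrt_of_sq_le
  exact h1.trans (mul_le_mul_of_nonneg_left h0 (Nat.cast_nonneg _))

lemma sum_biU {Θ α : Type} [DecidableEq Θ] [DecidableEq α] (Q : Finset Θ) (E : Θ → Finset α) (f : α → ℝ)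
    (hf : ∀ θ ∈ Q, ∀ i ∈ E θ, 0 ≤ f i) : ∑ i ∈ Q.biUnion E, f i ≤ ∑ θ ∈ Q, ∑ i ∈ E θ, f i := by
  induction Q using Finset.induction_on with
  | empty => simp
  | insert a Q ha ih =>
    rw [biUnion_insert, sum_insert ha]
    have h1 := ih fun θ hθ => hf θ (mem_insert_of_mem hθ)
    have h2 := sum_union_inter (s₁ := E a) (s₂ := Q.biUnion E) (f := f)
    have h3 : 0 ≤ ∑ i ∈ E a ∩ Q.biUnion E, f i := sum_nonneg fun i hi => hf a (mem_insert_self a Q) i (mem_inter.1 hi).1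
    linarith

/-- what is counted for the vectors -/
def BadQ (δ : ℝ) (X : ℕ) (R : ℕ → Prop) (T : ℕ → Set ℕ) {Θ : Type} (Q : Finset Θ) (a : Θ → ℕ → ℝ) : Prop :=
  ∃ x : ℕ, X ≤ x ∧ R x ∧ ∃ θ ∈ Q, ∃ j : ℕ, (j : ℝ) ≤ (x : ℝ) ^ (δ / 4) ∧
    √(max 1 (cntT (T j) (2 * x) : ℝ)) * (x : ℝ) ^ δ < |∑ p ∈ pri x, (open Classical in if p ∈ T j then a θ p else 0)|

/-- **sums over primes of functions of several residues** -/
theorem multi_gen (recip : ∀ x : ℕ, ∑ p ∈ pri x, 1 / (p : ℝ) ≤ 1 + Real.log x)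
    (logs : ∀ δ : ℝ, 0 < δ → ∃ X₀ : ℕ, ∀ x : ℕ, X₀ ≤ x → (1 + Real.log x) ≤ (x : ℝ) ^ δ)
    (D : ℕ) {Θ : Type} (Q : Finset Θ) (F : Θ → ℕ → (Fin D → ℤ) → ℝ) (M : Θ → ℕ → ℝ)
    (hper : ∀ θ ∈ Q, ∀ p : ℕ, p.Prime → ∀ m m' : Fin D → ℤ, (∀ l, (p : ℤ) ∣ m l - m' l) → F θ p m = F θ p m')
    (hbd : ∀ θ ∈ Q, ∃ C : ℝ, ∀ p : ℕ, p.Prime → ∀ m, |F θ p m| ≤ C)
    (hmean : ∀ θ ∈ Q, ∃ C : ℝ, ∀ p : ℕ, p.Prime → |meanD p D (F θ p) - M θ p| ≤ C / √(p : ℝ))
    (δ : ℝ) (hδ : 0 < δ) : ∃ X₁ : ℕ, ∀ X : ℕ, X₁ ≤ X → ∀ (R : ℕ → Prop) (T : ℕ → Set ℕ),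
    (∀ p j j', p ∈ T j → p ∈ T j' → j = j') →
    ∀ (ι : Fin D → Type) (Ω : ∀ l, Finset (ι l)) (w : ∀ l, ι l → ℝ) (v : ∀ l, ι l → ℤ) (τ : Fin D → ℝ),
    (∀ l, 0 ≤ τ l) → (∀ l, ∀ i ∈ Ω l, 0 ≤ w l i) → (∀ l, ∑ i ∈ Ω l, w l i ≤ 1) →
    (∀ l, FineAt (δ / 2) X R (τ l) (Ω l) (w l) (v l)) →
    ∀ E : Finset (∀ l, ι l), E ⊆ Fintype.piFinset Ω →
    (∀ i ∈ E, BadQ δ X R T Q (fun θ p => F θ p (fun l => v l (i l)) - M θ p)) →
    ∑ i ∈ E, ∏ l, w l (i l) ≤ Q.card * ∑ l, τ l := by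
  classical
  choose! C₁ hC₁ using hbd
  choose! C₂ hC₂ using hmean
  obtain ⟨B, hB⟩ : ∃ B : ℝ, B = 1 + ∑ θ ∈ Q, (|C₁ θ| + |C₂ θ|) := ⟨_, rfl⟩
  have hBθ : ∀ θ ∈ Q, |C₁ θ| + |C₂ θ| + 1 ≤ B := by
    intro θ hθ
    have h1 := single_le_sum (f := fun θ => |C₁ θ| + |C₂ θ|) (fun θ _ => by positivity) hθ
    rw [hB]
    linarith
  have hB1 : 1 ≤ B := by
    have : 0 ≤ ∑ θ ∈ Q, (|C₁ θ| + |C₂ θ|) := sum_nonneg fun θ _ => by positivity
    rw [hB]
    linarith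
  obtain ⟨X₂, hX₂⟩ := logs δ hδ
  have hev := (tendsto_rpow_atTop (show 0 < δ / 2 by linarith)).eventually_ge_atTop (B * (D + 1))
  obtain ⟨y, hy⟩ := Filter.eventually_atTop.1 hev
  obtain ⟨X₃, hX₃⟩ := exists_nat_ge y
  refine ⟨X₂ + X₃ + 1, fun X hX R T hT ι Ω w v τ hτ hw hw1 hfine E hE hbad => ?_⟩
  -- the systems
  obtain ⟨h, hh⟩ : ∃ h : Θ → ℕ → ℕ → (Fin D → ℤ) → ℝ, h = fun θ j p m => if p ∈ T j then F θ p m / B else 0 := ⟨_, rfl⟩
  have hsys : ∀ θ ∈ Q, SysM T (h θ) := by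
    intro θ hθ
    constructor
    · intro j p hp m m' hm
      rw [hh]
      simp only
      rw [hper θ hθ p hp m m' hm]
    · intro j p hp m
      rw [hh]
      simp only
      constructor
      · split_ifs
        · rw [abs_div, abs_of_pos (show 0 < B by linarith), div_le_one (by linarith)]
          have h1 := hC₁ θ hθ p hp m
          have h2 := hBθ θ hθ
          have h3 := le_abs_self (C₁ θ)
          have h4 := abs_nonneg (C₂ θ)
          linarith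
        · simp
      · intro hpT
        rw [if_neg hpT]
  have hmeanh : ∀ θ j p, meanD p D (h θ j p) = if p ∈ T j then meanD p D (F θ p) / B else 0 := by
    intro θ j p
    rw [hh]
    simp only
    by_cases hp : p ∈ T j
    · simp only [if_pos hp]
      exact meanD_div p B D (F θ p)
    · simp only [if_neg hp]
      exact meanD_zero p D
  -- the exceptions for `θ`
  obtain ⟨Eθ, hEθ⟩ : ∃ Eθ : Θ → Finset (∀ l, ι l), Eθ = fun θ => E.filter (fun i =>
      BadM (δ / 2) X R T D (fun j p => h θ j p (fun l => v l (i l))) (fun j p => meanD p D (h θ j p))) := ⟨_, rfl⟩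
  have hk : ∀ θ ∈ Q, ∑ i ∈ Eθ θ, ∏ l, w l (i l) ≤ ∑ l, τ l := by
    intro θ hθ
    rw [hEθ]
    exact multi (δ / 2) X R T hT D ι Ω w v τ hτ hw hw1 hfine (h θ) (hsys θ hθ) _ ((filter_subset _ _).trans hE)
      fun i hi => (mem_filter.1 hi).2
  have hcov : E ⊆ Q.biUnion Eθ := by
    intro i hi
    obtain ⟨x, hXx, hxW, θ, hθ, j, hj, hlt⟩ := hbad i hi
    rw [mem_biUnion]
    refine ⟨θ, hθ, ?_⟩
    rw [hEθ, mem_filter]
    refine ⟨hi, x, hXx, hxW, j, ?_, ?_⟩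
    · have e : δ / 2 / 2 = δ / 4 := by ring
      rw [e]
      exact hj
    · by_contra hcon
      push Not at hcon
      have hx1 : (1 : ℝ) ≤ x := by exact_mod_cast (by omega : 1 ≤ x)
      obtain ⟨V, hV⟩ : ∃ V : ℝ, V = √(max 1 (cntT (T j) (2 * x) : ℝ)) := ⟨_, rfl⟩
      have hV0 : 0 ≤ V := by rw [hV]; exact Real.sqrt_nonneg _
      rw [← hV] at hcon hlt
      obtain ⟨Y, hY⟩ : ∃ Y : ℝ, Y = (x : ℝ) ^ (δ / 2) := ⟨_, rfl⟩
      have hY0 : 0 < Y := by rw [hY]; positivity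
      have hYB : B * (D + 1) ≤ Y := by
        rw [hY]
        apply hy
        have h5 : (X₃ : ℝ) ≤ x := by exact_mod_cast (by omega : X₃ ≤ x)
        linarith
      have hYY : (x : ℝ) ^ δ = Y * Y := by
        rw [hY, ← Real.rpow_add (by linarith)]
        congr 1
        ring
      have hlog : √(1 + Real.log x) ≤ Y := by
        apply Real.sqrt_le_iff.2
        refine ⟨hY0.le, ?_⟩
        rw [sq, ← hYY]
        exact hX₂ x (by omega)
      rw [← hY] at hcon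
      rw [hYY] at hlt
      -- the two parts
      have e1 : ∑ p ∈ pri x, (if p ∈ T j then F θ p (fun l => v l (i l)) - M θ p else 0) =
          B * ∑ p ∈ pri x, (h θ j p (fun l => v l (i l)) - meanD p D (h θ j p)) +
          ∑ p ∈ pri x, (if p ∈ T j then meanD p D (F θ p) - M θ p else 0) := by
        rw [mul_sum, ← sum_add_distrib]
        apply sum_congr rfl
        intro p _
        rw [hmeanh, hh]
        simp only
        split_ifs
        · field_simp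
          ring
        · ring
      have e2 : |∑ p ∈ pri x, (if p ∈ T j then meanD p D (F θ p) - M θ p else 0)| ≤ |C₂ θ| * (V * Y) := by
        rw [← sum_filter]
        calc |∑ p ∈ (pri x).filter (fun p => p ∈ T j), (meanD p D (F θ p) - M θ p)| ≤
              ∑ p ∈ (pri x).filter (fun p => p ∈ T j), |C₂ θ| * (1 / √(p : ℝ)) := by
                refine (abs_sum_le_sum_abs _ _).trans (sum_le_sum fun p hp => ?_)
                have hpp := (mem_pri.1 (mem_filter.1 hp).1).2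
                refine (hC₂ θ hθ p hpp).trans ?_
                rw [mul_one_div]
                exact div_le_div_of_nonneg_right (le_abs_self _) (Real.sqrt_nonneg _)
          _ = |C₂ θ| * ∑ p ∈ (pri x).filter (fun p => p ∈ T j), 1 / √(p : ℝ) := (mul_sum _ _ _).symm
          _ ≤ |C₂ θ| * (√(((pri x).filter (fun p => p ∈ T j)).card : ℝ) * √(1 + Real.log x)) :=
              mul_le_mul_of_nonneg_left (sqrt_sum (T j) x _ (recip x)) (abs_nonneg _)
          _ ≤ |C₂ θ| * (V * Y) := by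
              apply mul_le_mul_of_nonneg_left _ (abs_nonneg _)
              apply mul_le_mul _ hlog (Real.sqrt_nonneg _) hV0
              rw [hV]
              apply Real.sqrt_le_sqrt
              apply le_max_of_le_right
              unfold cntT
              have : ((pri x).filter (fun p => p ∈ T j)).card ≤ ((pri (2 * x)).filter (fun p => p ∈ T j)).card := by
                apply card_le_card
                intro p hp
                rw [mem_filter, mem_pri] at hp ⊢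
                exact ⟨⟨by omega, hp.1.2⟩, hp.2⟩
              exact_mod_cast this
      have e3 : |B * ∑ p ∈ pri x, (h θ j p (fun l => v l (i l)) - meanD p D (h θ j p))| ≤ B * (D * (V * Y)) := by
        rw [abs_mul, abs_of_pos (show 0 < B by linarith)]
        exact mul_le_mul_of_nonneg_left hcon (by linarith)
      have e4 := abs_add_le (B * ∑ p ∈ pri x, (h θ j p (fun l => v l (i l)) - meanD p D (h θ j p)))
        (∑ p ∈ pri x, (if p ∈ T j then meanD p D (F θ p) - M θ p else 0))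
      rw [← e1] at e4
      have e5 : |C₂ θ| ≤ B := by
        have := hBθ θ hθ
        have := abs_nonneg (C₁ θ)
        linarith
      have hVY : 0 ≤ V * Y := mul_nonneg hV0 hY0.le
      have e6 : B * (D * (V * Y)) + |C₂ θ| * (V * Y) ≤ V * (Y * Y) := by
        calc B * (D * (V * Y)) + |C₂ θ| * (V * Y) ≤ B * (D * (V * Y)) + B * (V * Y) := by
              have := mul_le_mul_of_nonneg_right e5 hVY
              linarith
          _ = (B * (D + 1)) * (V * Y) := by ring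
          _ ≤ Y * (V * Y) := mul_le_mul_of_nonneg_right hYB hVY
          _ = V * (Y * Y) := by ring
      have e7 : ∑ p ∈ pri x, (open Classical in if p ∈ T j then F θ p (fun l => v l (i l)) - M θ p else 0) =
          ∑ p ∈ pri x, (if p ∈ T j then F θ p (fun l => v l (i l)) - M θ p else 0) := by congr!
      linarith
  have hnn : ∀ i ∈ E, 0 ≤ ∏ l, w l (i l) := fun i hi =>
    prod_nonneg fun l _ => hw l _ (Fintype.mem_piFinset.1 (hE hi) l)
  calc ∑ i ∈ E, ∏ l, w l (i l) ≤ ∑ i ∈ Q.biUnion Eθ, ∏ l, w l (i l) := by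
        apply sum_le_sum_of_subset_of_nonneg hcov
        intro i hi _
        obtain ⟨θ, _, hi2⟩ := mem_biUnion.1 hi
        rw [hEθ] at hi2
        exact hnn i (mem_filter.1 hi2).1
    _ ≤ ∑ θ ∈ Q, ∑ i ∈ Eθ θ, ∏ l, w l (i l) := by
        apply sum_biU
        intro θ _ i hi2
        rw [hEθ] at hi2
        exact hnn i (mem_filter.1 hi2).1
    _ ≤ ∑ θ ∈ Q, ∑ l, τ l := sum_le_sum hk
    _ = Q.card * ∑ l, τ l := by rw [sum_const, nsmul_eq_mul]


/-- **sums over primes of functions of several residues**, without the auxiliary hypotheses -/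
theorem multi_all (D : ℕ) {Θ : Type} (Q : Finset Θ) (F : Θ → ℕ → (Fin D → ℤ) → ℝ) (M : Θ → ℕ → ℝ)
    (hper : ∀ θ ∈ Q, ∀ p : ℕ, p.Prime → ∀ m m' : Fin D → ℤ, (∀ l, (p : ℤ) ∣ m l - m' l) → F θ p m = F θ p m')
    (hbd : ∀ θ ∈ Q, ∃ C : ℝ, ∀ p : ℕ, p.Prime → ∀ m, |F θ p m| ≤ C)
    (hmean : ∀ θ ∈ Q, ∃ C : ℝ, ∀ p : ℕ, p.Prime → |meanD p D (F θ p) - M θ p| ≤ C / √(p : ℝ))
    (δ : ℝ) (hδ : 0 < δ) : ∃ X₁ : ℕ, ∀ X : ℕ, X₁ ≤ X → ∀ (R : ℕ → Prop) (T : ℕ → Set ℕ),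
    (∀ p j j', p ∈ T j → p ∈ T j' → j = j') →
    ∀ (ι : Fin D → Type) (Ω : ∀ l, Finset (ι l)) (w : ∀ l, ι l → ℝ) (v : ∀ l, ι l → ℤ) (τ : Fin D → ℝ),
    (∀ l, 0 ≤ τ l) → (∀ l, ∀ i ∈ Ω l, 0 ≤ w l i) → (∀ l, ∑ i ∈ Ω l, w l i ≤ 1) →
    (∀ l, FineAt (δ / 2) X R (τ l) (Ω l) (w l) (v l)) →
    ∀ E : Finset (∀ l, ι l), E ⊆ Fintype.piFinset Ω →
    (∀ i ∈ E, BadQ δ X R T Q (fun θ p => F θ p (fun l => v l (i l)) - M θ p)) →
    ∑ i ∈ E, ∏ l, w l (i l) ≤ Q.card * ∑ l, τ l :=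
  multi_gen Pool.Agent.R459.Tw.recip_sum Pool.Agent.R459.Tw.log_small D Q F M hper hbd hmean δ hδ

/-- the constants are absorbed -/
lemma absorb (C : ℝ) (δ : ℝ) (hδ : 0 < δ) : ∃ X₁ : ℕ, 1 ≤ X₁ ∧ ∀ X : ℕ, X₁ ≤ X →
    C * (2 * (X : ℝ) ^ (-(δ / 2 / 2))) ≤ (X : ℝ) ^ (-(δ / 8)) := by
  have hev := (tendsto_rpow_atTop (show 0 < δ / 8 by linarith)).eventually_ge_atTop (2 * |C|)
  obtain ⟨y, hy⟩ := Filter.eventually_atTop.1 hev
  obtain ⟨X₁, hX₁⟩ := exists_nat_ge y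
  refine ⟨X₁ + 1, by omega, fun X hX => ?_⟩
  have hX1 : (1 : ℝ) ≤ X := by exact_mod_cast (by omega : 1 ≤ X)
  have h1 := hy X (by
    have : (X₁ : ℝ) ≤ X := by exact_mod_cast (by omega : X₁ ≤ X)
    linarith)
  have h2 : (X : ℝ) ^ (-(δ / 8)) = (X : ℝ) ^ (δ / 8) * (X : ℝ) ^ (-(δ / 2 / 2)) := by
    rw [← Real.rpow_add (by linarith)]
    congr 1
    ring
  rw [h2]
  have h3 : 0 ≤ (X : ℝ) ^ (-(δ / 2 / 2)) := by positivity
  calc C * (2 * (X : ℝ) ^ (-(δ / 2 / 2))) = (2 * C) * (X : ℝ) ^ (-(δ / 2 / 2)) := by ring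
    _ ≤ (X : ℝ) ^ (δ / 8) * (X : ℝ) ^ (-(δ / 2 / 2)) := by
        apply mul_le_mul_of_nonneg_right _ h3
        have := le_abs_self C
        linarith

/-- from the weights to the numbers of the vectors -/
lemma count_of {D : ℕ} {ι : Fin D → Type} (Ω : ∀ l, Finset (ι l)) (E : Finset (∀ l, ι l)) (hE : E ⊆ Fintype.piFinset Ω)
    (B : ℝ) (hB : 0 ≤ B) (h : ∑ _i ∈ E, ∏ l, (1 / ((Ω l).card : ℝ)) ≤ B) : (E.card : ℝ) ≤ B * ∏ l, ((Ω l).card : ℝ) := by
  rcases E.eq_empty_or_nonempty with h0 | ⟨i, hi⟩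
  · rw [h0, card_empty, Nat.cast_zero]
    exact mul_nonneg hB (prod_nonneg fun l _ => Nat.cast_nonneg _)
  · have h1 : ∀ l, (0 : ℝ) < (Ω l).card := by
      intro l
      have := Fintype.mem_piFinset.1 (hE hi) l
      exact_mod_cast card_pos.2 ⟨_, this⟩
    rw [sum_const, nsmul_eq_mul, prod_div_distrib, prod_const_one, mul_one_div, div_le_iff₀ (prod_pos fun l _ => h1 l)] at h
    exact h

section
open Classical

variable {D : ℕ} {Θ : Type} {Q : Finset Θ} {F : Θ → ℕ → (Fin D → ℤ) → ℝ} {M : Θ → ℕ → ℝ}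

/-- the conclusion for a vector -/
def GoodQ (δ : ℝ) (T : ℕ → Set ℕ) (Q : Finset Θ) (F : Θ → ℕ → (Fin D → ℤ) → ℝ) (M : Θ → ℕ → ℝ) (x : ℕ) (m : Fin D → ℤ) : Prop :=
  ∀ θ ∈ Q, ∀ j : ℕ, (j : ℝ) ≤ (x : ℝ) ^ (δ / 4) →
    |∑ p ∈ pri x, (if p ∈ T j then F θ p m - M θ p else 0)| ≤ √(max 1 (cntT (T j) (2 * x) : ℝ)) * (x : ℝ) ^ δ

lemma badQ_of {δ : ℝ} {X : ℕ} {R : ℕ → Prop} {T : ℕ → Set ℕ} {m : Fin D → ℤ}
    (h : ¬ ∀ x : ℕ, X ≤ x → R x → GoodQ δ T Q F M x m) : BadQ δ X R T Q (fun θ p => F θ p m - M θ p) := by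
  unfold GoodQ at h
  push Not at h
  obtain ⟨x, hXx, hR, θ, hθ, j, hj, hlt⟩ := h
  exact ⟨x, hXx, hR, θ, hθ, j, hj, hlt⟩

/-- the data of the functions -/
structure Data (Q : Finset Θ) (F : Θ → ℕ → (Fin D → ℤ) → ℝ) (M : Θ → ℕ → ℝ) : Prop where
  per : ∀ θ ∈ Q, ∀ p : ℕ, p.Prime → ∀ m m' : Fin D → ℤ, (∀ l, (p : ℤ) ∣ m l - m' l) → F θ p m = F θ p m'
  bd : ∀ θ ∈ Q, ∃ C : ℝ, ∀ p : ℕ, p.Prime → ∀ m, |F θ p m| ≤ C
  mean : ∀ θ ∈ Q, ∃ C : ℝ, ∀ p : ℕ, p.Prime → |meanD p D (F θ p) - M θ p| ≤ C / √(p : ℝ)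

/-- **vectors of members of automatic sets** -/
theorem multi_aut (hF : Data Q F M) (δ : ℝ) (hδ : 0 < δ) (hδ1 : δ ≤ 1) (σ : Fin D → Type) [∀ l, Fintype (σ l)]
    (b : Fin D → ℕ) (hb : ∀ l, 2 ≤ b l) (A : ∀ l, DFA ℕ (σ l))
    (hS : ∀ l, ∀ k : ℕ, ∃ᶠ N : ℕ in atTop, Real.log N ^ k < ((mem (b l) (A l) N).card : ℝ)) : ∃ W e : ℕ, 1 ≤ W ∧
    ∀ κ : Fin D → ℤ, (∀ l, κ l ≠ 0) → ∃ X₀ : ℕ, ∀ X : ℕ, X₀ ≤ X → ∀ (N : Fin D → ℕ) (c : Fin D → ℤ) (T : ℕ → Set ℕ),
    (∀ p j j', p ∈ T j → p ∈ T j' → j = j') →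
    (((Fintype.piFinset (fun l => mem (b l) (A l) (N l))).filter (fun v => ¬ ∀ x : ℕ, X ≤ x → (∀ l, x ^ W ≤ N l) →
      GoodQ δ T Q F M x (fun l => c l + κ l * (v l : ℕ)))).card : ℝ) ≤
      ((∑ l, (1 + Real.log (N l)) ^ e) * (X : ℝ) ^ (-(δ / 8))) * ∏ l, ((mem (b l) (A l) (N l)).card : ℝ) := by
  have heng := eng_fine (δ / 2) (by linarith) (by linarith)
  have h1 := fun l => eng_aut (fun X => by positivity) heng (b l) (hb l) (A l) (hS l)
  choose W₁ e₁ hW₁ H₁ using h1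
  obtain ⟨X₁, J₁⟩ := multi_all D Q F M hF.per hF.bd hF.mean δ hδ
  obtain ⟨X₂, hX₂, J₂⟩ := absorb Q.card δ hδ
  refine ⟨1 + ∑ l, W₁ l, ∑ l, e₁ l, by omega, fun κ hκ => ?_⟩
  choose X₃ J₃ using fun l => H₁ l (κ l) (hκ l)
  refine ⟨X₁ + X₂ + ∑ l, X₃ l, fun X hX N c T hT => ?_⟩
  have hX3 : ∀ l, X₃ l ≤ X := fun l => by
    have := single_le_sum (f := X₃) (fun l _ => Nat.zero_le _) (mem_univ l)
    omega
  have hXr : (1 : ℝ) ≤ X := by exact_mod_cast (by omega : 1 ≤ X)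
  have hlog : ∀ l, 0 ≤ Real.log (N l) := fun l => Real.log_natCast_nonneg _
  obtain ⟨τ, hτ⟩ : ∃ τ : Fin D → ℝ, τ = fun l => (1 + Real.log (N l)) ^ (∑ l, e₁ l) * (2 * (X : ℝ) ^ (-(δ / 2 / 2))) := ⟨_, rfl⟩
  have hτ0 : ∀ l, 0 ≤ τ l := fun l => by
    rw [hτ]
    have := hlog l
    positivity
  have hfine : ∀ l, FineAt (δ / 2) X (fun x => ∀ l, x ^ (1 + ∑ l, W₁ l) ≤ N l) (τ l) (mem (b l) (A l) (N l))
      (fun _ => 1 / ((mem (b l) (A l) (N l)).card : ℝ)) (fun v => c l + κ l * (v : ℕ)) := by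
    intro l s
    refine ((J₃ l X (hX3 l) (N l) (c l) s).mono fun n hn x hXx hx => hn x hXx ?_).le ?_
    · refine le_trans (Nat.pow_le_pow_right (by omega) ?_) (hx l)
      have := single_le_sum (f := W₁) (fun l _ => Nat.zero_le _) (mem_univ l)
      omega
    · rw [hτ]
      apply mul_le_mul_of_nonneg_right _ (by positivity)
      have h5 := hlog l
      calc Real.log (N l) ^ e₁ l ≤ (1 + Real.log (N l)) ^ e₁ l := pow_le_pow_left₀ h5 (by linarith) _
        _ ≤ (1 + Real.log (N l)) ^ (∑ l, e₁ l) := pow_le_pow_right₀ (by linarith)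
            (single_le_sum (f := e₁) (fun l _ => Nat.zero_le _) (mem_univ l))
  have h2 := J₁ X (by omega) (fun x => ∀ l, x ^ (1 + ∑ l, W₁ l) ≤ N l) T hT (fun _ => ℕ) (fun l => mem (b l) (A l) (N l))
    (fun l _ => 1 / ((mem (b l) (A l) (N l)).card : ℝ)) (fun l v => c l + κ l * (v : ℕ)) τ hτ0
    (fun l i _ => by positivity) (fun l => by
      rw [sum_const, nsmul_eq_mul, mul_one_div]
      exact div_self_le_one _) hfine
    ((Fintype.piFinset (fun l => mem (b l) (A l) (N l))).filter (fun v => ¬ ∀ x : ℕ, X ≤ x → (∀ l, x ^ (1 + ∑ l, W₁ l) ≤ N l) →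
      GoodQ δ T Q F M x (fun l => c l + κ l * (v l : ℕ)))) (filter_subset _ _) fun i hi => badQ_of (mem_filter.1 hi).2
  refine count_of (fun l => mem (b l) (A l) (N l)) _ (filter_subset _ _) _ (mul_nonneg (sum_nonneg fun l _ => by
    have := hlog l
    positivity) (by positivity)) (h2.trans ?_)
  rw [hτ, ← sum_mul]
  calc (Q.card : ℝ) * ((∑ l, (1 + Real.log (N l)) ^ (∑ l, e₁ l)) * (2 * (X : ℝ) ^ (-(δ / 2 / 2)))) =
        (∑ l, (1 + Real.log (N l)) ^ (∑ l, e₁ l)) * (Q.card * (2 * (X : ℝ) ^ (-(δ / 2 / 2)))) := by ring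
    _ ≤ _ := mul_le_mul_of_nonneg_left (J₂ X (by omega)) (sum_nonneg fun l _ => by
        have := hlog l
        positivity)

/-- **vectors of random integers whose blocks of digits can be exchanged** -/
theorem multi_flex (hF : Data Q F M) (δ : ℝ) (hδ : 0 < δ) (hδ1 : δ ≤ 1) (b L : ℕ) (hb : 2 ≤ b) (hL : 1 ≤ L)
    (η : ℝ) (hη0 : 0 < η) (hη1 : η ≤ 1) (T₀ : ℕ) : ∃ W : ℕ, 1 ≤ W ∧
    ∀ κ : Fin D → ℤ, (∀ l, κ l ≠ 0) → ∃ X₀ : ℕ, ∀ X : ℕ, X₀ ≤ X → ∀ (k : Fin D → ℕ) (p : Fin D → ℕ → ℝ),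
    (∀ l, Pool.Agent.N625.PT.Flex b L η T₀ (k l) (p l)) → ∀ (c : Fin D → ℤ) (T : ℕ → Set ℕ),
    (∀ p j j', p ∈ T j → p ∈ T j' → j = j') →
    ∑ v ∈ Fintype.piFinset (fun l => range (b ^ k l)), (if ∀ x : ℕ, X ≤ x → (∀ l, x ^ W ≤ b ^ k l) →
      GoodQ δ T Q F M x (fun l => c l + κ l * (v l : ℕ)) then 0 else ∏ l, p l (v l)) ≤
      (∑ l, (k l : ℝ) ^ T₀) * (X : ℝ) ^ (-(δ / 8)) := by
  have heng := eng_fine (δ / 2) (by linarith) (by linarith)
  obtain ⟨W, hW, H₁⟩ := eng_flex (fun X => by positivity) heng b L hb hL η hη0 hη1 T₀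
  obtain ⟨X₁, J₁⟩ := multi_all D Q F M hF.per hF.bd hF.mean δ hδ
  obtain ⟨X₂, hX₂, J₂⟩ := absorb Q.card δ hδ
  refine ⟨W, hW, fun κ hκ => ?_⟩
  choose X₃ J₃ using fun l => H₁ (κ l) (hκ l)
  refine ⟨X₁ + X₂ + ∑ l, X₃ l, fun X hX k p hp c T hT => ?_⟩
  have hX3 : ∀ l, X₃ l ≤ X := fun l => by
    have := single_le_sum (f := X₃) (fun l _ => Nat.zero_le _) (mem_univ l)
    omega
  have hXr : (1 : ℝ) ≤ X := by exact_mod_cast (by omega : 1 ≤ X)
  obtain ⟨τ, hτ⟩ : ∃ τ : Fin D → ℝ, τ = fun l => (k l : ℝ) ^ T₀ * (2 * (X : ℝ) ^ (-(δ / 2 / 2))) := ⟨_, rfl⟩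
  have hτ0 : ∀ l, 0 ≤ τ l := fun l => by rw [hτ]; positivity
  have hfine : ∀ l, FineAt (δ / 2) X (fun x => ∀ l, x ^ W ≤ b ^ k l) (τ l) (range (b ^ k l))
      (p l) (fun v => c l + κ l * (v : ℕ)) := by
    intro l s
    refine ((J₃ l X (hX3 l) (k l) (p l) (hp l) (c l) s).mono fun n hn x hXx hx => hn x hXx (hx l)).le ?_
    rw [hτ]
  have h2 := J₁ X (by omega) (fun x => ∀ l, x ^ W ≤ b ^ k l) T hT (fun _ => ℕ) (fun l => range (b ^ k l))
    p (fun l v => c l + κ l * (v : ℕ)) τ hτ0 (fun l i _ => (hp l).nonneg i) (fun l => (hp l).sum.le) hfine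
    ((Fintype.piFinset (fun l => range (b ^ k l))).filter (fun v => ¬ ∀ x : ℕ, X ≤ x → (∀ l, x ^ W ≤ b ^ k l) →
      GoodQ δ T Q F M x (fun l => c l + κ l * (v l : ℕ)))) (filter_subset _ _) fun i hi => badQ_of (mem_filter.1 hi).2
  have h3 : ∑ v ∈ Fintype.piFinset (fun l => range (b ^ k l)), (if ∀ x : ℕ, X ≤ x → (∀ l, x ^ W ≤ b ^ k l) →
      GoodQ δ T Q F M x (fun l => c l + κ l * (v l : ℕ)) then 0 else ∏ l, p l (v l)) =
      ∑ v ∈ (Fintype.piFinset (fun l => range (b ^ k l))).filter (fun v => ¬ ∀ x : ℕ, X ≤ x → (∀ l, x ^ W ≤ b ^ k l) →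
      GoodQ δ T Q F M x (fun l => c l + κ l * (v l : ℕ))), ∏ l, p l (v l) := by
    rw [sum_filter]
    apply sum_congr rfl
    intro v _
    by_cases hv : ∀ x : ℕ, X ≤ x → (∀ l, x ^ W ≤ b ^ k l) → GoodQ δ T Q F M x (fun l => c l + κ l * (v l : ℕ))
    · rw [if_pos hv, if_neg (not_not.2 hv)]
    · rw [if_neg hv, if_pos hv]
  rw [h3]
  refine h2.trans ?_
  rw [hτ, ← sum_mul]
  calc (Q.card : ℝ) * ((∑ l, (k l : ℝ) ^ T₀) * (2 * (X : ℝ) ^ (-(δ / 2 / 2)))) =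
        (∑ l, (k l : ℝ) ^ T₀) * (Q.card * (2 * (X : ℝ) ^ (-(δ / 2 / 2)))) := by ring
    _ ≤ _ := mul_le_mul_of_nonneg_left (J₂ X (by omega)) (sum_nonneg fun l _ => by positivity)

/-- **vectors of residues from families with small Fourier coefficients** -/
theorem multi_res (hF : Data Q F M) (δ : ℝ) (hδ : 0 < δ) (hδ1 : δ ≤ 1) : ∃ W : ℕ, 1 ≤ W ∧
    ∀ κ : Fin D → ℤ, (∀ l, κ l ≠ 0) → ∃ X₀ : ℕ, ∀ X : ℕ, X₀ ≤ X → ∀ (ι : Fin D → Type) (q : Fin D → ℕ) [∀ l, NeZero (q l)]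
    (u : ∀ l, Finset (ι l)) (y : ∀ l, ι l → ZMod (q l)) (Z : ℝ), 0 < Z → (∀ l, Z ≤ q l) →
    (∀ l, Pool.Agent.N384.MQ.Flat (q l) (1 / (Z * (42 + 3 * Real.log (q l)))) (u l) (y l)) → ∀ (c : Fin D → ℤ) (T : ℕ → Set ℕ),
    (∀ p j j', p ∈ T j → p ∈ T j' → j = j') →
    (((Fintype.piFinset u).filter (fun v => ¬ ∀ x : ℕ, X ≤ x → (x : ℝ) ^ W ≤ Z →
      GoodQ δ T Q F M x (fun l => c l + κ l * ((y l (v l)).val : ℕ)))).card : ℝ) ≤
      (D * (X : ℝ) ^ (-(δ / 8))) * ∏ l, ((u l).card : ℝ) := by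
  have heng := eng_fine (δ / 2) (by linarith) (by linarith)
  obtain ⟨W, hW, H₁⟩ := eng_res (fun X => by positivity) heng
  obtain ⟨X₁, J₁⟩ := multi_all D Q F M hF.per hF.bd hF.mean δ hδ
  obtain ⟨X₂, hX₂, J₂⟩ := absorb Q.card δ hδ
  refine ⟨W, hW, fun κ hκ => ?_⟩
  choose X₃ J₃ using fun l => H₁ (κ l) (hκ l)
  refine ⟨X₁ + X₂ + ∑ l, X₃ l, fun X hX ι q _ u y Z hZ hZq hfl c T hT => ?_⟩
  have hX3 : ∀ l, X₃ l ≤ X := fun l => by
    have := single_le_sum (f := X₃) (fun l _ => Nat.zero_le _) (mem_univ l)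
    omega
  have hXr : (1 : ℝ) ≤ X := by exact_mod_cast (by omega : 1 ≤ X)
  have hfine : ∀ l, FineAt (δ / 2) X (fun x => (x : ℝ) ^ W ≤ Z) (2 * (X : ℝ) ^ (-(δ / 2 / 2))) (u l)
      (fun _ => 1 / ((u l).card : ℝ)) (fun i => c l + κ l * ((y l i).val : ℕ)) :=
    fun l s => J₃ l X (hX3 l) (ι l) (q l) (u l) (y l) Z hZ (hZq l) (hfl l) (c l) s
  have h2 := J₁ X (by omega) (fun x => (x : ℝ) ^ W ≤ Z) T hT ι u
    (fun l _ => 1 / ((u l).card : ℝ)) (fun l i => c l + κ l * ((y l i).val : ℕ)) (fun _ => 2 * (X : ℝ) ^ (-(δ / 2 / 2)))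
    (fun l => by positivity)
    (fun l i _ => by positivity) (fun l => by
      rw [sum_const, nsmul_eq_mul, mul_one_div]
      exact div_self_le_one _) hfine
    ((Fintype.piFinset u).filter (fun v => ¬ ∀ x : ℕ, X ≤ x → (x : ℝ) ^ W ≤ Z →
      GoodQ δ T Q F M x (fun l => c l + κ l * ((y l (v l)).val : ℕ)))) (filter_subset _ _) fun i hi => badQ_of (mem_filter.1 hi).2
  refine count_of u _ (filter_subset _ _) _ (by positivity) (h2.trans ?_)
  rw [sum_const, card_univ, Fintype.card_fin, nsmul_eq_mul]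
  calc (Q.card : ℝ) * (D * (2 * (X : ℝ) ^ (-(δ / 2 / 2)))) = D * (Q.card * (2 * (X : ℝ) ^ (-(δ / 2 / 2)))) := by ring
    _ ≤ _ := mul_le_mul_of_nonneg_left (J₂ X (by omega)) (Nat.cast_nonneg _)

/-- **vectors of values of functions of non-integral order** -/
theorem multi_sv (hF : Data Q F M) (δ : ℝ) (hδ : 0 < δ) (hδ1 : δ ≤ 1) (e : Fin D → ℝ) (f : Fin D → ℝ → ℝ) (he : ∀ l, 0 < e l)
    (hn : ∀ l, ∀ m : ℕ, e l ≠ m) (hf : ∀ l, Pool.Agent.N193.PS.SmoothlyVarying (e l) (f l)) : ∃ W : ℕ, 1 ≤ W ∧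
    ∀ κ : Fin D → ℤ, (∀ l, κ l ≠ 0) → ∃ X₀ : ℕ, ∀ X : ℕ, X₀ ≤ X → ∀ (N : Fin D → ℕ) (c : Fin D → ℤ) (T : ℕ → Set ℕ),
    (∀ p j j', p ∈ T j → p ∈ T j' → j = j') →
    (((Fintype.piFinset (fun l => Icc 1 (N l))).filter (fun v => ¬ ∀ x : ℕ, X ≤ x → (∀ l, (x : ℝ) ^ W ≤ f l (N l)) →
      GoodQ δ T Q F M x (fun l => c l + κ l * (⌊f l (v l)⌋₊ : ℕ)))).card : ℝ) ≤
      (D * (X : ℝ) ^ (-(δ / 8))) * ∏ l, (N l : ℝ) := by
  have heng := eng_fine (δ / 2) (by linarith) (by linarith)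
  have h1 := fun l => eng_sv (fun X => by positivity) heng (e l) (f l) (he l) (hn l) (hf l)
  choose W₁ hW₁ H₁ using h1
  obtain ⟨X₁, J₁⟩ := multi_all D Q F M hF.per hF.bd hF.mean δ hδ
  obtain ⟨X₂, hX₂, J₂⟩ := absorb Q.card δ hδ
  refine ⟨1 + ∑ l, W₁ l, by omega, fun κ hκ => ?_⟩
  choose X₃ J₃ using fun l => H₁ l (κ l) (hκ l)
  refine ⟨X₁ + X₂ + ∑ l, X₃ l, fun X hX N c T hT => ?_⟩
  have hX3 : ∀ l, X₃ l ≤ X := fun l => by
    have := single_le_sum (f := X₃) (fun l _ => Nat.zero_le _) (mem_univ l)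
    omega
  have hXr : (1 : ℝ) ≤ X := by exact_mod_cast (by omega : 1 ≤ X)
  have hcard : ∀ l, (Icc 1 (N l)).card = N l := fun l => by rw [Nat.card_Icc]; omega
  have hfine : ∀ l, FineAt (δ / 2) X (fun x => ∀ l, (x : ℝ) ^ (1 + ∑ l, W₁ l) ≤ f l (N l)) (2 * (X : ℝ) ^ (-(δ / 2 / 2)))
      (Icc 1 (N l)) (fun _ => 1 / ((Icc 1 (N l)).card : ℝ)) (fun v : ℕ => c l + κ l * (⌊f l v⌋₊ : ℕ)) := by
    intro l s
    rw [hcard l]
    refine (J₃ l X (hX3 l) (N l) (c l) s).mono fun n hn x hXx hx => hn x hXx ?_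
    refine le_trans ?_ (hx l)
    apply pow_le_pow_right₀
    · exact_mod_cast (by omega : 1 ≤ x)
    · have := single_le_sum (f := W₁) (fun l _ => Nat.zero_le _) (mem_univ l)
      omega
  have h2 := J₁ X (by omega) (fun x => ∀ l, (x : ℝ) ^ (1 + ∑ l, W₁ l) ≤ f l (N l)) T hT (fun _ => ℕ) (fun l => Icc 1 (N l))
    (fun l _ => 1 / ((Icc 1 (N l)).card : ℝ)) (fun l (v : ℕ) => c l + κ l * (⌊f l v⌋₊ : ℕ)) (fun _ => 2 * (X : ℝ) ^ (-(δ / 2 / 2)))
    (fun l => by positivity)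
    (fun l i _ => by positivity) (fun l => by
      rw [sum_const, nsmul_eq_mul, mul_one_div]
      exact div_self_le_one _) hfine
    ((Fintype.piFinset (fun l => Icc 1 (N l))).filter (fun v => ¬ ∀ x : ℕ, X ≤ x → (∀ l, (x : ℝ) ^ (1 + ∑ l, W₁ l) ≤ f l (N l)) →
      GoodQ δ T Q F M x (fun l => c l + κ l * (⌊f l (v l)⌋₊ : ℕ)))) (filter_subset _ _) fun i hi => badQ_of (mem_filter.1 hi).2
  have h3 := count_of (fun l => Icc 1 (N l)) _ (filter_subset _ _) (D * (X : ℝ) ^ (-(δ / 8))) (by positivity) (h2.trans (by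
    rw [sum_const, card_univ, Fintype.card_fin, nsmul_eq_mul]
    calc (Q.card : ℝ) * (D * (2 * (X : ℝ) ^ (-(δ / 2 / 2)))) = D * (Q.card * (2 * (X : ℝ) ^ (-(δ / 2 / 2)))) := by ring
      _ ≤ _ := mul_le_mul_of_nonneg_left (J₂ X (by omega)) (Nat.cast_nonneg _)))
  have h4 : ∏ l, ((Icc 1 (N l)).card : ℝ) = ∏ l, (N l : ℝ) := prod_congr rfl fun l _ => by rw [hcard l]
  rw [h4] at h3
  exact h3

end

end Pool.Agent.N794.CG
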