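import Pool.Agent.N794.CG.Apps2

/-!
# Counts of primes for pairs of members of two families
-/

set_option autoImplicit false

namespace Pool.Agent.N794.CG

open Finset Filter
open Pool.Agent.R459.Eq

lemma pairs_chain (M1 M2 M4 Ma Ma2 cnt y y2 s s2 sa : ℝ) (h12 : M1 ≤ M2) (h24 : M2 ≤ M4) (hy : 1 ≤ y)
    (hy2 : y2 ≤ 2 * y) (hs : s = √(max 1 M4)) (hs2 : s2 = √(max 1 M2)) (hsa : sa = √(max 1 Ma2))
    (hA1 : |Ma - M1| ≤ s2 * y) (hA2 : |Ma2 - M2| ≤ s * y2) (hB : |cnt - Ma| ≤ sa * y) :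
    |cnt - M1| ≤ 3 * s * y ^ 2 := by
  have hs1 : 1 ≤ s := by
    rw [hs, Real.one_le_sqrt]
    exact le_max_left _ _
  have hss : s ^ 2 = max 1 M4 := by
    rw [hs]
    exact Real.sq_sqrt (le_trans zero_le_one (le_max_left _ _))
  have h1 : s2 ≤ s := by
    rw [hs, hs2]
    exact Real.sqrt_le_sqrt (max_le_max le_rfl h24)
  have h2 : M4 ≤ s ^ 2 := by
    rw [hss]
    exact le_max_right _ _
  have h3 : Ma2 ≤ 3 * s ^ 2 * y := by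
    have h4 := (abs_le.1 hA2).2
    have h5 : s * y2 ≤ s * (2 * y) := mul_le_mul_of_nonneg_left hy2 (by linarith)
    have h6 : s * y ≤ s ^ 2 * y := by
      apply mul_le_mul_of_nonneg_right _ (by linarith)
      nlinarith
    have h7 : s ^ 2 ≤ s ^ 2 * y := le_mul_of_one_le_right (by positivity) hy
    nlinarith
  have h4 : sa ≤ 7 / 4 * s * y := by
    rw [hsa, Real.sqrt_le_left (by positivity)]
    apply max_le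
    · have h5 : 1 ≤ s * y := one_le_mul_of_one_le_of_one_le hs1 hy
      nlinarith
    · have h5 : s ^ 2 * y ≤ s ^ 2 * y ^ 2 := mul_le_mul_of_nonneg_left (by nlinarith) (by positivity)
      have h6 : (7 / 4 * s * y) ^ 2 = 49 / 16 * (s ^ 2 * y ^ 2) := by ring
      rw [h6]
      have h7 : 0 ≤ s ^ 2 * y ^ 2 := by positivity
      linarith
  have h5 : sa * y ≤ 7 / 4 * s * y * y := mul_le_mul_of_nonneg_right h4 (by linarith)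
  have h6 : s2 * y ≤ s * y := mul_le_mul_of_nonneg_right h1 (by linarith)
  have h7 : s * y ≤ s * y ^ 2 := mul_le_mul_of_nonneg_left (by nlinarith) (by linarith)
  have h8 : |cnt - M1| ≤ |cnt - Ma| + |Ma - M1| := abs_sub_le _ _ _
  have h9 : 0 ≤ s * y ^ 2 := by positivity
  nlinarith

lemma dens2_nonneg (R : ℕ → ℤ → ℤ → Prop) (p : ℕ) : 0 ≤ dens2 R p := by
  unfold dens2
  positivity

lemma sum_dens2_mono (R : ℕ → ℤ → ℤ → Prop) {x y : ℕ} (h : x ≤ y) :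
    ∑ p ∈ pri x, dens2 R p ≤ ∑ p ∈ pri y, dens2 R p := by
  apply sum_le_sum_of_subset_of_nonneg
  · intro p hp
    rw [mem_pri] at hp ⊢
    exact ⟨hp.1.trans h, hp.2⟩
  · intro p _ _
    exact dens2_nonneg R p

/-- the sum of the weights of a set of pairs -/
lemma pairs_sum {ι₁ ι₂ : Type} {Ω₁ : Finset ι₁} {Ω₂ : Finset ι₂} {w₁ : ι₁ → ℝ} {w₂ : ι₂ → ℝ}
    (hw₁ : ∀ i ∈ Ω₁, 0 ≤ w₁ i) (hw₂ : ∀ i ∈ Ω₂, 0 ≤ w₂ i) (hs₁ : ∑ i ∈ Ω₁, w₁ i ≤ 1) (hs₂ : ∑ i ∈ Ω₂, w₂ i ≤ 1)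
    {τ₁ τ₂ : ℝ} (hτ₂ : 0 ≤ τ₂) (G : ι₁ → Prop) (hG : ∀ F : Finset ι₁, F ⊆ Ω₁ → (∀ i ∈ F, ¬ G i) → ∑ i ∈ F, w₁ i ≤ τ₁)
    (E : Finset (ι₁ × ι₂)) (hE : E ⊆ Ω₁ ×ˢ Ω₂)
    (hE2 : ∀ i ∈ Ω₁, G i → ∀ F : Finset ι₂, F ⊆ Ω₂ → (∀ l ∈ F, (i, l) ∈ E) → ∑ l ∈ F, w₂ l ≤ τ₂) :
    ∑ z ∈ E, w₁ z.1 * w₂ z.2 ≤ τ₁ + τ₂ := by
  classical
  have hmem : ∀ z ∈ E, z.1 ∈ Ω₁ ∧ z.2 ∈ Ω₂ := fun z hz => mem_product.1 (hE hz)
  -- grouping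
  have hgroup : ∑ z ∈ E, w₁ z.1 * w₂ z.2 = ∑ i ∈ Ω₁, w₁ i * ∑ l ∈ Ω₂.filter (fun l => (i, l) ∈ E), w₂ l := by
    have e1 : E = (Ω₁ ×ˢ Ω₂).filter (fun z => z ∈ E) := by
      ext z
      rw [mem_filter]
      exact ⟨fun h => ⟨hE h, h⟩, fun h => h.2⟩
    calc ∑ z ∈ E, w₁ z.1 * w₂ z.2 = ∑ z ∈ (Ω₁ ×ˢ Ω₂).filter (fun z => z ∈ E), w₁ z.1 * w₂ z.2 := by rw [← e1]
      _ = ∑ z ∈ Ω₁ ×ˢ Ω₂, if z ∈ E then w₁ z.1 * w₂ z.2 else 0 := sum_filter _ _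
      _ = ∑ i ∈ Ω₁, ∑ l ∈ Ω₂, if (i, l) ∈ E then w₁ i * w₂ l else 0 := sum_product _ _ _
      _ = _ := by
        apply sum_congr rfl
        intro i _
        rw [← sum_filter, mul_sum]
  rw [hgroup, ← sum_filter_add_sum_filter_not Ω₁ (fun i => ¬ G i)]
  refine add_le_add ?_ ?_
  · refine le_trans (sum_le_sum fun i hi => ?_) (hG (Ω₁.filter (fun i => ¬ G i)) (filter_subset _ _) fun i hi => (mem_filter.1 hi).2)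
    have h1 : ∑ l ∈ Ω₂.filter (fun l => (i, l) ∈ E), w₂ l ≤ 1 :=
      le_trans (sum_le_sum_of_subset_of_nonneg (filter_subset _ _) fun l hl _ => hw₂ l hl) hs₂
    exact mul_le_of_le_one_right (hw₁ i (mem_filter.1 hi).1) h1
  · have h1 : ∀ i ∈ Ω₁.filter (fun i => ¬ ¬ G i), w₁ i * ∑ l ∈ Ω₂.filter (fun l => (i, l) ∈ E), w₂ l ≤ w₁ i * τ₂ := by
      intro i hi
      rw [mem_filter, not_not] at hi
      apply mul_le_mul_of_nonneg_left _ (hw₁ i hi.1)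
      exact hE2 i hi.1 hi.2 _ (filter_subset _ _) fun l hl => (mem_filter.1 hl).2
    refine (sum_le_sum h1).trans ?_
    rw [← sum_mul]
    have h2 : ∑ i ∈ Ω₁.filter (fun i => ¬ ¬ G i), w₁ i ≤ 1 :=
      le_trans (sum_le_sum_of_subset_of_nonneg (filter_subset _ _) fun l hl _ => hw₁ l hl) hs₁
    exact mul_le_of_le_one_left hτ₂ h2

/-- **pairs of members of two families** -/
theorem pairs_count {ι₁ ι₂ : Type} {Ω₁ : Finset ι₁} {Ω₂ : Finset ι₂} {w₁ : ι₁ → ℝ} {w₂ : ι₂ → ℝ} {v₁ : ι₁ → ℤ} {v₂ : ι₂ → ℤ}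
    (hw₁ : ∀ i ∈ Ω₁, 0 ≤ w₁ i) (hw₂ : ∀ i ∈ Ω₂, 0 ≤ w₂ i) (hs₁ : ∑ i ∈ Ω₁, w₁ i ≤ 1) (hs₂ : ∑ i ∈ Ω₂, w₂ i ≤ 1)
    {δ : ℝ} (hδ : 0 < δ) (hδ1 : δ ≤ 1 / 2) {X : ℕ} (hX : 1 ≤ X) {R₁ R₂ : ℕ → Prop} {τ₁ τ₂ : ℝ} (hτ₂ : 0 ≤ τ₂)
    (H₁ : FineAt δ X R₁ τ₁ Ω₁ w₁ v₁) (H₂ : FineAt δ X R₂ τ₂ Ω₂ w₂ v₂) (R : ℕ → ℕ → ℤ → ℤ → Prop)
    (hper : ∀ j p : ℕ, p.Prime → ∀ a a' n n' : ℤ, (p : ℤ) ∣ a - a' → (p : ℤ) ∣ n - n' → (R j p a n ↔ R j p a' n'))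
    (hfew : ∀ p : ℕ, p.Prime → ∀ (a n : ℤ) (Q : Finset ℕ), (∀ j ∈ Q, R j p a n) → Q.card ≤ Nat.log 2 p + 3)
    (E : Finset (ι₁ × ι₂)) (hE : E ⊆ Ω₁ ×ˢ Ω₂)
    (hbad : ∀ z ∈ E, ∃ x : ℕ, X ≤ x ∧ R₁ x ∧ R₁ (2 * x) ∧ R₂ x ∧ ∃ j : ℕ, (j : ℝ) ≤ (x : ℝ) ^ (δ / 2) ∧
      3 * √(max 1 (∑ p ∈ pri (4 * x), dens2 (R j) p)) * (x : ℝ) ^ (2 * δ) <
        |(cntR (R j) (v₁ z.1) (v₂ z.2) x : ℝ) - ∑ p ∈ pri x, dens2 (R j) p|) :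
    ∑ z ∈ E, w₁ z.1 * w₂ z.2 ≤ τ₁ + τ₂ := by
  classical
  have hA := (H₁.two_count R hper hfew).2
  refine pairs_sum hw₁ hw₂ hs₁ hs₂ hτ₂ _ (fun F hF hFb => hA F hF hFb) E hE fun i hi hGi F hF hFE => ?_
  refine (H₂.two_count R hper hfew).1 (v₁ i) F hF fun l hl hgood => ?_
  obtain ⟨x, hXx, hR1, hR2, hR3, j, hj, hlt⟩ := hbad (i, l) (hFE l hl)
  have hx1 : (1 : ℝ) ≤ x := by exact_mod_cast (hX.trans hXx)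
  have hxp : (0 : ℝ) < x := by linarith
  have hB := (hgood x hXx hR3).2 j hj
  have hA1 := (hGi x hXx hR1).2 j hj
  have hA2 := (hGi (2 * x) (by omega) hR2).2 j (by
    refine hj.trans (Real.rpow_le_rpow hxp.le ?_ (by linarith))
    push_cast
    linarith)
  have e4 : 2 * (2 * x) = 4 * x := by ring
  rw [e4] at hA2
  have hy2 : ((2 * x : ℕ) : ℝ) ^ δ ≤ 2 * (x : ℝ) ^ δ := by
    push_cast
    rw [Real.mul_rpow (by norm_num) hxp.le]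
    apply mul_le_mul_of_nonneg_right _ (by positivity)
    calc (2 : ℝ) ^ δ ≤ 2 ^ (1 : ℝ) := Real.rpow_le_rpow_of_exponent_le (by norm_num) (by linarith)
      _ = 2 := Real.rpow_one 2
  have h1 := pairs_chain _ _ _ _ _ _ ((x : ℝ) ^ δ) (((2 * x : ℕ) : ℝ) ^ δ) _ _ _
    (sum_dens2_mono (R j) (by omega : x ≤ 2 * x)) (sum_dens2_mono (R j) (by omega : 2 * x ≤ 4 * x))
    (Real.one_le_rpow hx1 hδ.le) hy2 rfl rfl rfl hA1 hA2 hB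
  have e5 : ((x : ℝ) ^ δ) ^ 2 = (x : ℝ) ^ (2 * δ) := by
    rw [← Real.rpow_natCast, ← Real.rpow_mul hxp.le]
    congr 1
    push_cast
    ring
  rw [e5] at h1
  exact absurd h1 (not_le.2 hlt)

/-- **pairs of members of two families**, properties indexed by the integers of which at most one holds at a prime -/
theorem pairs_trace {ι₁ ι₂ : Type} {Ω₁ : Finset ι₁} {Ω₂ : Finset ι₂} {w₁ : ι₁ → ℝ} {w₂ : ι₂ → ℝ} {v₁ : ι₁ → ℤ} {v₂ : ι₂ → ℤ}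
    (hw₁ : ∀ i ∈ Ω₁, 0 ≤ w₁ i) (hw₂ : ∀ i ∈ Ω₂, 0 ≤ w₂ i) (hs₁ : ∑ i ∈ Ω₁, w₁ i ≤ 1) (hs₂ : ∑ i ∈ Ω₂, w₂ i ≤ 1)
    {δ : ℝ} (hδ : 0 < δ) (hδ1 : δ ≤ 1 / 2) {X : ℕ} (hX : 1 ≤ X) {R₁ R₂ : ℕ → Prop} {τ₁ τ₂ : ℝ} (hτ₂ : 0 ≤ τ₂)
    (H₁ : FineAt δ X R₁ τ₁ Ω₁ w₁ v₁) (H₂ : FineAt δ X R₂ τ₂ Ω₂ w₂ v₂) (T : ℤ → ℕ → ℤ → ℤ → Prop)
    (hper : ∀ (r : ℤ) (p : ℕ), p.Prime → ∀ a a' n n' : ℤ, (p : ℤ) ∣ a - a' → (p : ℤ) ∣ n - n' → (T r p a n ↔ T r p a' n'))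
    (huniq : ∀ (p : ℕ) (a n r r' : ℤ), T r p a n → T r' p a n → r = r')
    (E : Finset (ι₁ × ι₂)) (hE : E ⊆ Ω₁ ×ˢ Ω₂)
    (hbad : ∀ z ∈ E, ∃ x : ℕ, X ≤ x ∧ R₁ x ∧ R₁ (2 * x) ∧ R₂ x ∧ ∃ r : ℤ, |(r : ℝ)| ≤ (x : ℝ) ^ (δ / 2) ∧
      3 * √(max 1 (∑ p ∈ pri (4 * x), dens2 (T r) p)) * (x : ℝ) ^ (2 * δ) <
        |(cntR (T r) (v₁ z.1) (v₂ z.2) x : ℝ) - ∑ p ∈ pri x, dens2 (T r) p|) :
    ∑ z ∈ E, w₁ z.1 * w₂ z.2 ≤ 2 * (τ₁ + τ₂) := by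
  classical
  obtain ⟨B, hB⟩ : ∃ B : ℤ → (ι₁ × ι₂) → Prop, B = fun σ z => ∃ x : ℕ, X ≤ x ∧ R₁ x ∧ R₁ (2 * x) ∧ R₂ x ∧
      ∃ j : ℕ, (j : ℝ) ≤ (x : ℝ) ^ (δ / 2) ∧
      3 * √(max 1 (∑ p ∈ pri (4 * x), dens2 (T (σ * j)) p)) * (x : ℝ) ^ (2 * δ) <
        |(cntR (T (σ * j)) (v₁ z.1) (v₂ z.2) x : ℝ) - ∑ p ∈ pri x, dens2 (T (σ * j)) p| := ⟨_, rfl⟩
  have hcov : ∀ z ∈ E, B 1 z ∨ B (-1) z := by
    intro z hz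
    obtain ⟨x, h1, h2, h3, h4, r, hr, hlt⟩ := hbad z hz
    have hj : ((r.natAbs : ℕ) : ℝ) ≤ (x : ℝ) ^ (δ / 2) := by
      have : ((r.natAbs : ℕ) : ℝ) = |(r : ℝ)| := by
        rw [← Int.cast_abs, Int.abs_eq_natAbs]
        rfl
      rw [this]
      exact hr
    rw [hB]
    rcases Int.natAbs_eq r with h | h
    · left
      refine ⟨x, h1, h2, h3, h4, r.natAbs, hj, ?_⟩
      have e : (1 : ℤ) * (r.natAbs : ℕ) = r := by omega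
      rw [e]
      exact hlt
    · right
      refine ⟨x, h1, h2, h3, h4, r.natAbs, hj, ?_⟩
      have e : (-1 : ℤ) * (r.natAbs : ℕ) = r := by omega
      rw [e]
      exact hlt
  have hone : ∀ σ : ℤ, σ = 1 ∨ σ = -1 → ∑ z ∈ E.filter (B σ), w₁ z.1 * w₂ z.2 ≤ τ₁ + τ₂ := by
    intro σ hσ
    refine pairs_count hw₁ hw₂ hs₁ hs₂ hδ hδ1 hX hτ₂ H₁ H₂ (fun j => T (σ * j))
      (fun j p hp a a' n n' h h' => hper (σ * j) p hp a a' n n' h h') (fun p _ a n Q hQ => ?_) (E.filter (B σ))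
      ((filter_subset _ _).trans hE) (fun z hz => ?_)
    · have h1 : Q.card ≤ 1 := by
        rw [card_le_one]
        intro j hj j' hj'
        have h2 := huniq p a n _ _ (hQ j hj) (hQ j' hj')
        have h4 : (j : ℤ) = j' := by
          rcases hσ with h | h <;> rw [h] at h2 <;> linarith
        exact_mod_cast h4
      omega
    · have h1 := (mem_filter.1 hz).2
      rw [hB] at h1
      exact h1
  have hnn : ∀ z ∈ Ω₁ ×ˢ Ω₂, 0 ≤ w₁ z.1 * w₂ z.2 := fun z hz =>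
    mul_nonneg (hw₁ _ (mem_product.1 hz).1) (hw₂ _ (mem_product.1 hz).2)
  have hsplit : E ⊆ E.filter (B 1) ∪ E.filter (B (-1)) := by
    intro z hz
    rw [mem_union, mem_filter, mem_filter]
    rcases hcov z hz with h | h
    · exact Or.inl ⟨hz, h⟩
    · exact Or.inr ⟨hz, h⟩
  have hsum : ∑ z ∈ E, w₁ z.1 * w₂ z.2 ≤ ∑ z ∈ E.filter (B 1), w₁ z.1 * w₂ z.2 + ∑ z ∈ E.filter (B (-1)), w₁ z.1 * w₂ z.2 := by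
    calc ∑ z ∈ E, w₁ z.1 * w₂ z.2 ≤ ∑ z ∈ E.filter (B 1) ∪ E.filter (B (-1)), w₁ z.1 * w₂ z.2 :=
          sum_le_sum_of_subset_of_nonneg hsplit fun z hz _ => hnn z (hE (by
            rcases mem_union.1 hz with h | h
            · exact (mem_filter.1 h).1
            · exact (mem_filter.1 h).1))
      _ ≤ ∑ z ∈ E.filter (B 1) ∪ E.filter (B (-1)), w₁ z.1 * w₂ z.2 +
          ∑ z ∈ E.filter (B 1) ∩ E.filter (B (-1)), w₁ z.1 * w₂ z.2 := by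
          have : 0 ≤ ∑ z ∈ E.filter (B 1) ∩ E.filter (B (-1)), w₁ z.1 * w₂ z.2 :=
            sum_nonneg fun z hz => hnn z (hE (mem_filter.1 (mem_inter.1 hz).1).1)
          linarith
      _ = _ := sum_union_inter
  have h1 := hone 1 (Or.inl rfl)
  have h2 := hone (-1) (Or.inr rfl)
  linarith

/-- counts from weights -/
lemma pairs_card {ι₁ ι₂ : Type} (Ω₁ : Finset ι₁) (Ω₂ : Finset ι₂) (E : Finset (ι₁ × ι₂)) (hE : E ⊆ Ω₁ ×ˢ Ω₂) (τ : ℝ)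
    (h : ∑ _z ∈ E, (1 / (Ω₁.card : ℝ)) * (1 / (Ω₂.card : ℝ)) ≤ τ) : (E.card : ℝ) ≤ τ * (Ω₁.card * Ω₂.card) := by
  rcases E.eq_empty_or_nonempty with h0 | ⟨z, hz⟩
  · rw [h0, sum_empty] at h
    rw [h0, card_empty, Nat.cast_zero]
    exact mul_nonneg h (by positivity)
  · have hz' := mem_product.1 (hE hz)
    have h1 : (0 : ℝ) < Ω₁.card := by exact_mod_cast card_pos.2 ⟨_, hz'.1⟩
    have h2 : (0 : ℝ) < Ω₂.card := by exact_mod_cast card_pos.2 ⟨_, hz'.2⟩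
    rw [sum_const, nsmul_eq_mul] at h
    have e : (E.card : ℝ) = (E.card : ℝ) * ((1 / (Ω₁.card : ℝ)) * (1 / (Ω₂.card : ℝ))) * (Ω₁.card * Ω₂.card) := by
      field_simp
    calc (E.card : ℝ) = (E.card : ℝ) * ((1 / (Ω₁.card : ℝ)) * (1 / (Ω₂.card : ℝ))) * (Ω₁.card * Ω₂.card) := e
      _ ≤ τ * (Ω₁.card * Ω₂.card) := mul_le_mul_of_nonneg_right h (mul_nonneg h1.le h2.le)

end Pool.Agent.N794.CG
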