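import Pool.Agent.N794.CG.Mom
import Pool.Agent.N794.CG.Dom
import Pool.Agent.R345.HM1

/-!
# The moments of the class groups of quadratic fields, for all families with small characteristic functions
-/

set_option autoImplicit false

namespace Pool.Agent.N794.CG
open Polynomial Finset NumberField Filter
open Pool.Agent.R459.Eq (Decays)
open Pool.Agent.R459.Tor (Small)

open Classical in
/-- **quadratic fields, the torsion** -/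
theorem quad_gen (b : ℕ) (hb : 2 ≤ b) (A₀ : ℕ) (γ : ℝ) (hγ0 : 0 < γ) (hγ1 : γ < 1) (r : ℕ) (hr : 1 ≤ r) : ∃ W : ℕ, 1 ≤ W ∧
    ∀ (F₀ : ℕ) (κ : ℤ), 1 ≤ F₀ → κ ≠ 0 → ∀ T V : ℕ, ∃ B k₀ : ℕ, ∀ k : ℕ, k₀ ≤ k →
    ∀ j : ℤ, j ≠ 0 → |j| ≤ (k : ℤ) ^ T → ∀ ℓ : ℕ, 1 ≤ ℓ → ℓ ≤ k ^ T → ∀ Y : ℝ, 1 ≤ Y →
    ∀ (S : Set ℤ) (K : ℤ → Type) [∀ v, Field (K v)] [∀ v, NumberField (K v)],
    (∀ v ∈ S, |v| ≤ (b : ℤ) ^ (V * k) ∧ Module.finrank ℚ (K v) = 2 ∧ |(discr (K v) : ℝ)| ≤ Y ∧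
      ∃ α : K v, IntermediateField.adjoin ℚ {α} = ⊤ ∧ α ^ 2 = ((j * v : ℤ) : K v)) →
    ∀ (Λ : ℝ) (ι : Type) (Ω : Finset ι) (w : ι → ℝ) (v : ι → ℤ), 1 ≤ Λ → (∀ i ∈ Ω, 0 ≤ w i) → ∑ i ∈ Ω, w i ≤ 1 →
    Dom b F₀ A₀ k γ κ Λ Ω w v →
    ∑ i ∈ Ω, w i * (if v i ∈ S then (Nat.card {x : ClassGroup (𝓞 (K (v i))) // x ^ ℓ = 1} : ℝ) ^ r else 0) ≤
      Λ * ((k : ℝ) ^ B * (√Y * max (Y ^ (-(1 / (2 * (ℓ : ℝ))))) ((b : ℝ) ^ (-((k : ℝ) / W))))) ^ r := by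
  obtain ⟨W, hW, H⟩ := torsion_gen b hb A₀ γ hγ0 hγ1 r hr
  refine ⟨W, hW, fun F₀ κ hF₀ hκ T V => ?_⟩
  obtain ⟨B, k₀, J⟩ := H F₀ κ hF₀ hκ 2 le_rfl T V
  refine ⟨B, k₀ + 1, fun k hk j hj0 hj ℓ hℓ1 hℓT Y hY S K _ _ hS Λ ι Ω w v hΛ hw hw1 hdom => ?_⟩
  have h1 := J k (by omega) (X ^ 2) ⟨monic_X_pow 2, natDegree_X_pow 2, fun i => by
    have hk1 : (1 : ℤ) ≤ (k : ℤ) ^ T := one_le_pow₀ (by exact_mod_cast (by omega : 1 ≤ k))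
    rw [coeff_X_pow]
    split_ifs
    · simp [hk1]
    · simp⟩ j hj0 hj ℓ hℓ1 hℓT Y hY S K (by
    intro v hv
    obtain ⟨h1, h2, h3, α, h4, h5⟩ := hS v hv
    refine ⟨h1, h2, h3, α, h4, ?_⟩
    rw [map_pow, aeval_X]
    exact h5) Λ ι Ω w v hΛ hw hw1 (fun P τ hτ hP => hdom P τ hτ hP _ (filter_subset _ _) fun i hi => (mem_filter.1 hi).2)
  have e1 : ((2 * (2 - 1) * ℓ : ℕ) : ℝ) = 2 * ℓ := by push_cast; ring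
  rw [e1] at h1
  exact h1

/-- `#Sur(Cl(K)[p^∞], H)` for the group `H`, the product of the cyclic groups of orders `p ^ e i`. -/
noncomputable def numSur (K : Type) [Field K] [NumberField K] (p : ℕ) {r : ℕ} (e : Fin r → ℕ) : ℕ :=
  Nat.card {φ : CommGroup.primaryComponent (ClassGroup (𝓞 K)) p →* (∀ i : Fin r, Multiplicative (ZMod (p ^ e i))) //
    Function.Surjective φ}

lemma numSur_le (K : Type) [Field K] [NumberField K] (p : ℕ) (hp : p.Prime) {r : ℕ} (e : Fin r → ℕ) (m : ℕ)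
    (he : ∀ i, e i ≤ m) :
    (numSur K p e : ℝ) ≤ (Nat.card {x : ClassGroup (𝓞 K) // x ^ (p ^ m) = 1} : ℝ) ^ r := by
  have := Pool.Agent.R345.HM.card_sur_le (ClassGroup (𝓞 K)) p hp m r e he
  exact_mod_cast this

open Classical in
/-- **quadratic fields, the `H`-moments** -/
theorem sur_gen (b : ℕ) (hb : 2 ≤ b) (A₀ : ℕ) (γ : ℝ) (hγ0 : 0 < γ) (hγ1 : γ < 1) (r : ℕ) (hr : 1 ≤ r) : ∃ W : ℕ, 1 ≤ W ∧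
    ∀ (F₀ : ℕ) (κ : ℤ), 1 ≤ F₀ → κ ≠ 0 → ∀ T V : ℕ, ∃ B k₀ : ℕ, ∀ k : ℕ, k₀ ≤ k →
    ∀ j : ℤ, j ≠ 0 → |j| ≤ (k : ℤ) ^ T → ∀ (p m : ℕ) (e : Fin r → ℕ), p.Prime → p ^ m ≤ k ^ T → (∀ i, e i ≤ m) →
    ∀ Y : ℝ, 1 ≤ Y → ∀ (S : Set ℤ) (K : ℤ → Type) [∀ v, Field (K v)] [∀ v, NumberField (K v)],
    (∀ v ∈ S, |v| ≤ (b : ℤ) ^ (V * k) ∧ Module.finrank ℚ (K v) = 2 ∧ |(discr (K v) : ℝ)| ≤ Y ∧
      ∃ α : K v, IntermediateField.adjoin ℚ {α} = ⊤ ∧ α ^ 2 = ((j * v : ℤ) : K v)) →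
    ∀ (Λ : ℝ) (ι : Type) (Ω : Finset ι) (w : ι → ℝ) (v : ι → ℤ), 1 ≤ Λ → (∀ i ∈ Ω, 0 ≤ w i) → ∑ i ∈ Ω, w i ≤ 1 →
    Dom b F₀ A₀ k γ κ Λ Ω w v →
    ∑ i ∈ Ω, w i * (if v i ∈ S then (numSur (K (v i)) p e : ℝ) else 0) ≤
      Λ * ((k : ℝ) ^ B * (√Y * max (Y ^ (-(1 / (2 * (p : ℝ) ^ m)))) ((b : ℝ) ^ (-((k : ℝ) / W))))) ^ r := by
  obtain ⟨W, hW, H⟩ := quad_gen b hb A₀ γ hγ0 hγ1 r hr
  refine ⟨W, hW, fun F₀ κ hF₀ hκ T V => ?_⟩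
  obtain ⟨B, k₀, J⟩ := H F₀ κ hF₀ hκ T V
  refine ⟨B, k₀, fun k hk j hj0 hj p m e hp hℓT he Y hY S K _ _ hS Λ ι Ω w v hΛ hw hw1 hdom => ?_⟩
  have h1 := J k hk j hj0 hj (p ^ m) (Nat.one_le_pow _ _ hp.pos) hℓT Y hY S K hS Λ ι Ω w v hΛ hw hw1 hdom
  have e1 : ((p ^ m : ℕ) : ℝ) = (p : ℝ) ^ m := by push_cast; rfl
  rw [e1] at h1
  refine le_trans (sum_le_sum fun i hi => mul_le_mul_of_nonneg_left ?_ (hw i hi)) h1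
  by_cases hv : v i ∈ S
  · rw [if_pos hv, if_pos hv]
    exact numSur_le (K (v i)) p hp e m he
  · rw [if_neg hv, if_neg hv]

end Pool.Agent.N794.CG
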